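import Mathlib
import Pool.Graph.R_seed8.Helper223.Tools
import Pool.Graph.R_seed8.Helper566.FD.J7

/-! Computability tools. -/

set_option autoImplicit false

namespace Pool.Agent.H670.OA

open Pool.Agent.Helper223 (comp_foldl comp_find)

attribute [fun_prop] Computable

variable {α β σ τ : Type} [Primcodable α] [Primcodable β] [Primcodable σ] [Primcodable τ]

@[fun_prop] theorem c_comp {f : β → σ} {g : α → β} (hf : Computable f) (hg : Computable g) :
    Computable fun a => f (g a) := hf.comp hg
@[fun_prop] theorem c_id : Computable (fun a : α => a) := Computable.id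
@[fun_prop] theorem c_const (b : β) : Computable (fun _ : α => b) := Computable.const b
@[fun_prop] theorem c_mk {f : α → β} {g : α → σ} (hf : Computable f) (hg : Computable g) :
    Computable fun a => (f a, g a) := hf.pair hg
@[fun_prop] theorem c_fst {f : α → β × σ} (hf : Computable f) : Computable fun a => (f a).1 :=
  Computable.fst.comp hf
@[fun_prop] theorem c_snd {f : α → β × σ} (hf : Computable f) : Computable fun a => (f a).2 :=
  Computable.snd.comp hf
@[fun_prop] theorem c_nadd {f g : α → ℕ} (hf : Computable f) (hg : Computable g) :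
    Computable (fun a => f a + g a) := Primrec.nat_add.to_comp.comp hf hg
@[fun_prop] theorem c_nsub {f g : α → ℕ} (hf : Computable f) (hg : Computable g) :
    Computable (fun a => f a - g a) := Primrec.nat_sub.to_comp.comp hf hg
@[fun_prop] theorem c_nmul {f g : α → ℕ} (hf : Computable f) (hg : Computable g) :
    Computable (fun a => f a * g a) := Primrec.nat_mul.to_comp.comp hf hg
@[fun_prop] theorem c_ndiv {f g : α → ℕ} (hf : Computable f) (hg : Computable g) :
    Computable (fun a => f a / g a) := Primrec.nat_div.to_comp.comp hf hg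
@[fun_prop] theorem c_nmod {f g : α → ℕ} (hf : Computable f) (hg : Computable g) :
    Computable (fun a => f a % g a) := Primrec.nat_mod.to_comp.comp hf hg
@[fun_prop] theorem c_nsucc {f : α → ℕ} (hf : Computable f) :
    Computable (fun a => Nat.succ (f a)) := Computable.succ.comp hf
@[fun_prop] theorem c_npair {f g : α → ℕ} (hf : Computable f) (hg : Computable g) :
    Computable (fun a => Nat.pair (f a) (g a)) := Primrec₂.natPair.to_comp.comp hf hg
@[fun_prop] theorem c_unpair {f : α → ℕ} (hf : Computable f) :
    Computable (fun a => Nat.unpair (f a)) := Computable.unpair.comp hf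
@[fun_prop] theorem c_iadd {f g : α → ℤ} (hf : Computable f) (hg : Computable g) :
    Computable (fun a => f a + g a) :=
  Pool.Agent.Helper566.FD.J7.prim_int_add.to_comp.comp hf hg
@[fun_prop] theorem c_isub {f g : α → ℤ} (hf : Computable f) (hg : Computable g) :
    Computable (fun a => f a - g a) :=
  Pool.Agent.Helper566.FD.J7.prim_int_sub.to_comp.comp hf hg
@[fun_prop] theorem c_imul {f g : α → ℤ} (hf : Computable f) (hg : Computable g) :
    Computable (fun a => f a * g a) :=
  Pool.Agent.Helper566.FD.J7.prim_int_mul.to_comp.comp hf hg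
@[fun_prop] theorem c_ineg {f : α → ℤ} (hf : Computable f) :
    Computable (fun a => - f a) :=
  Pool.Agent.Helper566.FD.J7.prim_int_neg.to_comp.comp hf
@[fun_prop] theorem c_icast {f : α → ℕ} (hf : Computable f) :
    Computable (fun a => (f a : ℤ)) :=
  Pool.Agent.Helper566.FD.J7.prim_natCast.to_comp.comp hf
@[fun_prop] theorem c_toNat {f : α → ℤ} (hf : Computable f) :
    Computable (fun a => (f a).toNat) :=
  Pool.Agent.Helper566.FD.J7.prim_toNat.to_comp.comp hf
@[fun_prop] theorem c_getD {f : α → List β} {g : α → ℕ} {d : β} (hf : Computable f)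
    (hg : Computable g) : Computable (fun a => (f a).getD (g a) d) :=
  (Primrec.list_getD d).to_comp.comp hf hg
@[fun_prop] theorem c_length {f : α → List β} (hf : Computable f) :
    Computable (fun a => (f a).length) := Computable.list_length.comp hf
@[fun_prop] theorem c_encode {f : α → β} (hf : Computable f) :
    Computable (fun a => Encodable.encode (f a)) := Computable.encode.comp hf
@[fun_prop] theorem c_decode {f : α → ℕ} (hf : Computable f) :
    Computable (fun a => (Encodable.decode (f a) : Option β)) := Computable.decode.comp hf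
@[fun_prop] theorem c_ogetD {f : α → Option β} {d : β} (hf : Computable f) :
    Computable (fun a => (f a).getD d) := Computable.option_getD hf (Computable.const d)

/-! ### predicates -/

attribute [fun_prop] ComputablePred

theorem cp_iff {p : α → Prop} [DecidablePred p] :
    ComputablePred p ↔ Computable (fun a => decide (p a)) := by
  constructor
  · intro h; exact h.decide
  · intro h; exact ⟨inferInstance, h⟩

open Classical in
theorem cp_iff' {p : α → Prop} : ComputablePred p ↔ Computable (fun a => decide (p a)) := cp_iff

theorem cp_of_eq {p q : α → Prop} (h : ComputablePred p) (hpq : ∀ a, p a ↔ q a) :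
    ComputablePred q := by
  have : p = q := funext fun a => propext (hpq a)
  rwa [← this]

@[fun_prop] theorem cp_and {p q : α → Prop} (hp : ComputablePred p) (hq : ComputablePred q) :
    ComputablePred (fun a => p a ∧ q a) := by
  classical
  rw [cp_iff'] at *
  refine (Primrec.and.to_comp.comp hp hq).of_eq fun a => ?_
  simp

@[fun_prop] theorem cp_or {p q : α → Prop} (hp : ComputablePred p) (hq : ComputablePred q) :
    ComputablePred (fun a => p a ∨ q a) := by
  classical
  rw [cp_iff'] at *
  refine (Primrec.or.to_comp.comp hp hq).of_eq fun a => ?_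
  simp

@[fun_prop] theorem cp_not {p : α → Prop} (hp : ComputablePred p) :
    ComputablePred (fun a => ¬ p a) := by
  classical
  rw [cp_iff'] at *
  refine (Primrec.not.to_comp.comp hp).of_eq fun a => ?_
  simp

theorem cp_imp {p q : α → Prop} (hp : ComputablePred p) (hq : ComputablePred q) :
    ComputablePred (fun a => p a → q a) :=
  cp_of_eq (cp_or (cp_not hp) hq) fun a => by tauto

@[fun_prop] theorem cp_iff2 {p q : α → Prop} (hp : ComputablePred p) (hq : ComputablePred q) :
    ComputablePred (fun a => p a ↔ q a) :=
  cp_of_eq (cp_and (cp_imp hp hq) (cp_imp hq hp)) fun a => by tauto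

@[fun_prop] theorem cp_nlt {f g : α → ℕ} (hf : Computable f) (hg : Computable g) :
    ComputablePred (fun a => f a < g a) :=
  cp_iff.2 (Primrec.nat_lt.decide.to_comp.comp hf hg)

@[fun_prop] theorem cp_nle {f g : α → ℕ} (hf : Computable f) (hg : Computable g) :
    ComputablePred (fun a => f a ≤ g a) :=
  cp_iff.2 (Primrec.nat_le.decide.to_comp.comp hf hg)

@[fun_prop] theorem cp_ilt {f g : α → ℤ} (hf : Computable f) (hg : Computable g) :
    ComputablePred (fun a => f a < g a) :=
  cp_iff.2 (Pool.Agent.Helper566.FD.J7.prim_int_lt.decide.to_comp.comp hf hg)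

@[fun_prop] theorem cp_eq {f g : α → β} (hf : Computable f) (hg : Computable g) :
    ComputablePred (fun a => f a = g a) := by
  have : DecidableEq β := Encodable.decidableEqOfEncodable β
  exact cp_iff.2 (Primrec.eq.decide.to_comp.comp hf hg)

@[fun_prop] theorem cp_ne {f g : α → β} (hf : Computable f) (hg : Computable g) :
    ComputablePred (fun a => f a ≠ g a) := cp_not (cp_eq hf hg)

theorem cp_comp {p : β → Prop} {f : α → β} (hp : ComputablePred p) (hf : Computable f) :
    ComputablePred (fun a => p (f a)) := by
  classical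
  rw [cp_iff'] at *
  exact hp.comp hf

theorem cp_ball {p : α → ℕ → Prop} {f : α → ℕ} (hp : ComputablePred (fun x : α × ℕ => p x.1 x.2))
    (hf : Computable f) : ComputablePred (fun a => ∀ i, i < f a → p a i) := by
  classical
  rw [cp_iff'] at *
  have h := Pool.Agent.Helper223.comp_ball (P := fun a i => decide (p a i)) hp hf
  refine h.of_eq fun a => ?_
  rw [Bool.eq_iff_iff, Pool.Agent.Helper223.ball_iff]
  simp

theorem cp_bex {p : α → ℕ → Prop} {f : α → ℕ} (hp : ComputablePred (fun x : α × ℕ => p x.1 x.2))
    (hf : Computable f) : ComputablePred (fun a => ∃ i, i < f a ∧ p a i) :=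
  cp_of_eq (cp_not (cp_ball (p := fun a i => ¬ p a i) (cp_not hp) hf)) fun a => by
    push Not; rfl

open Classical in
theorem c_ite {p : α → Prop} {f g : α → β} (hp : ComputablePred p) (hf : Computable f)
    (hg : Computable g) : Computable (fun a => if p a then f a else g a) := by
  rw [cp_iff'] at hp
  refine (Computable.cond hp hf hg).of_eq fun a => ?_
  by_cases h : p a <;> simp [h]

theorem c_isum {f : α → ℕ → ℤ} {n : α → ℕ} (hf : Computable (fun x : α × ℕ => f x.1 x.2))
    (hn : Computable n) : Computable (fun a => ∑ i ∈ Finset.range (n a), f a i) := by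
  have h := Computable.nat_rec (f := n) (g := fun _ => (0 : ℤ))
    (h := fun a (p : ℕ × ℤ) => p.2 + f a p.1) hn (Computable.const 0)
    (by
      show Computable (fun x : α × (ℕ × ℤ) => x.2.2 + f x.1 x.2.1)
      have : Computable (fun x : α × (ℕ × ℤ) => f x.1 x.2.1) :=
        hf.comp (f := fun x : α × ℕ => f x.1 x.2) (g := fun x : α × (ℕ × ℤ) => (x.1, x.2.1))
          (by fun_prop)
      fun_prop)
  refine h.of_eq fun a => ?_
  induction n a with
  | zero => rfl
  | succ m ih => rw [Finset.sum_range_succ, ← ih]

theorem c_nsum {f : α → ℕ → ℕ} {n : α → ℕ} (hf : Computable (fun x : α × ℕ => f x.1 x.2))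
    (hn : Computable n) : Computable (fun a => ∑ i ∈ Finset.range (n a), f a i) := by
  have h := Computable.nat_rec (f := n) (g := fun _ => (0 : ℕ))
    (h := fun a (p : ℕ × ℕ) => p.2 + f a p.1) hn (Computable.const 0)
    (by
      show Computable (fun x : α × (ℕ × ℕ) => x.2.2 + f x.1 x.2.1)
      have : Computable (fun x : α × (ℕ × ℕ) => f x.1 x.2.1) :=
        hf.comp (f := fun x : α × ℕ => f x.1 x.2) (g := fun x : α × (ℕ × ℕ) => (x.1, x.2.1))
          (by fun_prop)
      fun_prop)
  refine h.of_eq fun a => ?_
  induction n a with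
  | zero => rfl
  | succ m ih => rw [Finset.sum_range_succ, ← ih]

open Classical in
theorem c_find {p : α → ℕ → Prop} (hp : ComputablePred (fun x : α × ℕ => p x.1 x.2))
    (H : ∀ a, ∃ n, p a n) : Computable (fun a => Nat.find (H a)) := by
  have h1 : Computable₂ (fun (a : α) (n : ℕ) => decide (p a n)) := by
    rw [cp_iff'] at hp; exact hp
  have H' : ∀ a, ∃ n, (fun (a : α) (n : ℕ) => decide (p a n)) a n = true := by
    intro a; obtain ⟨n, hn⟩ := H a; exact ⟨n, by simpa using hn⟩
  have h := comp_find (fun (a : α) (n : ℕ) => decide (p a n)) h1 H'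
  refine h.of_eq fun a => ?_
  congr 1
  funext n
  simp

theorem exists_find {p : α → ℕ → Prop} (hp : ComputablePred (fun x : α × ℕ => p x.1 x.2))
    (H : ∀ a, ∃ n, p a n) : ∃ F : α → ℕ, Computable F ∧ ∀ a, p a (F a) := by
  classical
  exact ⟨fun a => Nat.find (H a), c_find hp H, fun a => Nat.find_spec (H a)⟩

/-- least element of `p` below `n` -/
noncomputable def lfind (p : ℕ → Prop) (n : ℕ) : Option ℕ := by
  classical
  exact if h : ∃ i, i < n ∧ p i then some (Nat.find h) else none

theorem lfind_some {p : ℕ → Prop} {n m : ℕ} (h : lfind p n = some m) :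
    m < n ∧ p m ∧ ∀ i < m, ¬ p i := by
  classical
  unfold lfind at h
  split_ifs at h with h1
  have h2 := Option.some.inj h
  subst h2
  refine ⟨(Nat.find_spec h1).1, (Nat.find_spec h1).2, fun i hi hp => ?_⟩
  exact Nat.find_min h1 hi ⟨lt_trans hi (Nat.find_spec h1).1, hp⟩

theorem lfind_none {p : ℕ → Prop} {n : ℕ} (h : lfind p n = none) : ∀ i < n, ¬ p i := by
  classical
  unfold lfind at h
  split_ifs at h with h1
  intro i hi hp
  exact h1 ⟨i, hi, hp⟩

theorem c_lfind {p : α → ℕ → Prop} {f : α → ℕ}
    (hp : ComputablePred (fun x : α × ℕ => p x.1 x.2)) (hf : Computable f) :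
    Computable (fun a => lfind (p a) (f a)) := by
  classical
  have h1 : Computable₂ (fun (a : α) (n : ℕ) => decide (p a n)) := by
    rw [cp_iff'] at hp; exact hp
  have h := Pool.Agent.Helper223.comp_bfind (P := fun a i => decide (p a i)) h1 hf
  refine h.of_eq fun a => ?_
  cases hl : lfind (p a) (f a) with
  | none =>
    exact Pool.Agent.Helper223.bfind_none _ _ (fun i hi => by
      simpa using lfind_none hl i hi)
  | some m =>
    have h2 := lfind_some hl
    exact Pool.Agent.Helper223.bfind_some _ _ _ (by simpa using h2.2.1)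
      (fun i hi => by simpa using h2.2.2 i hi) h2.1

end Pool.Agent.H670.OA
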