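import Pool.Agent.H670.OA.Gen
import Mathlib.GroupTheory.DivisibleHull

/-! The final statement. -/

set_option autoImplicit false

namespace Pool.Agent.H670.OA

theorem main (H : Type) [AddCommGroup H]
    (htf : ∀ (n : ℕ) (x : H), n ≠ 0 → n • x = 0 → x = 0)
    (hrk : Cardinal.aleph0 ≤ Module.rank ℤ H)
    (hc : ∃ ν : ℕ ≃ H, Computable₂ (fun a b : ℕ => ν.symm (ν a + ν b))) :
    ∃ μ : ℕ ≃ H, Computable₂ (fun a b : ℕ => μ.symm (μ a + μ b)) ∧
      ∃ P : Set H, Cone P ∧ Computable (Set.indicator (μ ⁻¹' P) (fun _ => (1 : ℕ)) : ℕ → ℕ) ∧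
        ∀ Q : Set H, Cone Q →
          Computable (Set.indicator (μ ⁻¹' Q) (fun _ => (1 : ℕ)) : ℕ → ℕ) →
          (∀ x, x ∈ Q ↔ x ∈ P) ∨ (∀ x, x ∈ Q ↔ -x ∈ P) := by
  obtain ⟨ν, hν⟩ := hc
  have htf' : IsAddTorsionFree H := by
    refine ⟨fun n hn x y h => ?_⟩
    have h' : n • x = n • y := h
    have h1 : n • (x - y) = 0 := by rw [smul_sub, h', sub_self]
    exact sub_eq_zero.1 (htf n _ hn h1)
  let ι : H →+ DivisibleHull H := DivisibleHull.coeAddMonoidHom H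
  have hι : Function.Injective ι := DivisibleHull.coe_injective
  have hinf := Binf_infinite ν ι hι hrk
  obtain ⟨st, hcst, hst⟩ := exists_seq ν hν (fun s σ h => step_exists ν ι hι s σ h)
  choose qF F hF using late_one ι hst hι hinf
  have hlate : ∀ i, ∃ S, 1 ≤ S ∧ ∀ s ≥ S, i < sn (st s) ∧ qv (st s) i = qF i ∧
      sy (st s) i = F i := hF
  obtain ⟨μ, hμ, hadd, P, hP, hPc, hPr⟩ := main_limit ι hι hst hcst hlate
  exact ⟨μ, hadd, P, hP, hPc, fun Q hQ hQc =>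
    only_orders ι hι hinf hst hlate μ hμ P hP hPr Q hQ hQc⟩

end Pool.Agent.H670.OA
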