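import Pool.Agent.H670.OA.Rs
import Pool.Graph.R_seed8.Helper743.Oracle

/-! A noncomputable function which computes only two orders. -/

set_option autoImplicit false

namespace Pool.Agent.H670.OA

open Pool.Agent.Helper743 (pre pre_length pre_prefix pre_succ use_principle)

theorem exists_generic (D : ℕ → Set (List ℕ)) (hD : ∀ k σ, ∃ τ, σ <+: τ ∧ τ ∈ D k) :
    ∃ X : ℕ → ℕ, ∀ k, ∃ n, pre X n ∈ D k := by
  choose nx hnx1 hnx2 using hD
  let c : ℕ → List ℕ := fun k => Nat.rec [] (fun k σ => nx k (σ ++ [0])) k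
  have hc : ∀ k, c (k + 1) = nx k (c k ++ [0]) := fun k => rfl
  have hpre : ∀ k, c k <+: c (k + 1) := fun k => by
    rw [hc]
    exact (List.prefix_append _ _).trans (hnx1 k _)
  have hlen : ∀ k, (c k).length < (c (k + 1)).length := fun k => by
    rw [hc]
    have := (hnx1 k (c k ++ [0])).length_le
    rw [List.length_append, List.length_singleton] at this
    omega
  have hge : ∀ k, k ≤ (c k).length := by
    intro k
    induction k with
    | zero => exact Nat.zero_le _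
    | succ k ih => have := hlen k; omega
  have hmono : ∀ k k', k ≤ k' → c k <+: c k' := by
    intro k k' h
    induction k', h using Nat.le_induction with
    | base => exact List.prefix_refl _
    | succ m _ ih => exact ih.trans (hpre m)
  have hget : ∀ k k' i, k ≤ k' → i < (c k).length → (c k).getD i 0 = (c k').getD i 0 := by
    intro k k' i h hi
    obtain ⟨l, hl⟩ := hmono k k' h
    rw [← hl, List.getD_append _ _ _ _ hi]
  refine ⟨fun i => (c (i + 1)).getD i 0, fun k => ⟨(c (k + 1)).length, ?_⟩⟩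
  have : pre (fun i => (c (i + 1)).getD i 0) (c (k + 1)).length = c (k + 1) := by
    apply List.ext_getElem
    · rw [pre_length]
    · intro i h1 h2
      unfold Pool.Agent.Helper743.pre
      rw [List.getElem_map, List.getElem_range]
      have h3 : (c (i + 1)).getD i 0 = (c (k + 1)).getD i 0 := by
        have hi : i < (c (i + 1)).length := by have := hge (i + 1); omega
        rcases le_total (i + 1) (k + 1) with h | h
        · exact hget _ _ _ h hi
        · exact (hget _ _ _ h h2).symm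
      rw [h3, List.getD_eq_getElem _ _ h2]
  rw [this, hc]
  exact hnx2 _ _

instance : Countable {ev : List ℕ → ℕ → Option ℕ // Computable₂ ev} := by
  have hinj : Function.Injective (fun ev : {ev : List ℕ → ℕ → Option ℕ // Computable₂ ev} =>
      (⟨fun n => Encodable.encode (ev.1 (Denumerable.ofNat (List ℕ) n.unpair.1) n.unpair.2), by
        have h1 : Computable (fun n : ℕ => ev.1 (Denumerable.ofNat (List ℕ) n.unpair.1)
            n.unpair.2) :=
          ev.2.comp ((Computable.ofNat (List ℕ)).comp (Computable.fst.comp Computable.unpair))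
            (Computable.snd.comp Computable.unpair)
        exact Computable.encode.comp h1⟩ : {f : ℕ → ℕ // Computable f})) := by
    intro ev ev' h
    have h1 := congrArg Subtype.val h
    apply Subtype.ext
    funext σ x
    have h2 := congrFun h1 (Nat.pair (Encodable.encode σ) x)
    simp only [Nat.unpair_pair, Denumerable.ofNat_encode] at h2
    exact Encodable.encode_injective h2
  exact hinj.countable

variable {H : Type} [AddCommGroup H] (μ : ℕ ≃ H)

/-- some order is compatible with the information -/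
def Con (ev : List ℕ → ℕ → Option ℕ) (a b : ℕ) (τ : List ℕ) : Prop :=
  ∃ Q : Set H, Cone Q ∧ μ a ∈ Q ∧ μ b ∉ Q ∧
    ∀ i v, ev τ i = some v → v = Set.indicator (μ ⁻¹' Q) (fun _ => (1 : ℕ)) i

theorem dense_aux (P : Set H) (hP : Cone P)
    (honly : ∀ Q : Set H, Cone Q →
      Computable (Set.indicator (μ ⁻¹' Q) (fun _ => (1 : ℕ)) : ℕ → ℕ) →
      (∀ x, x ∈ Q ↔ x ∈ P) ∨ (∀ x, x ∈ Q ↔ -x ∈ P))
    (ev : List ℕ → ℕ → Option ℕ) (hev : Computable₂ ev)
    (hmono : ∀ σ τ x y, σ <+: τ → ev σ x = some y → ev τ x = some y)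
    (a b : ℕ) (ha : μ a ∈ P ∧ μ a ≠ 0) (hb : μ b ∈ P ∧ μ b ≠ 0) (σ : List ℕ) :
    ∃ τ, σ <+: τ ∧ (¬ Con μ ev a b τ ∨ ∃ m, ∀ τ', τ <+: τ' → ev τ' m = none) := by
  classical
  by_contra hno
  push Not at hno
  -- search for extensions
  have H1 : ∀ x : List ℕ × ℕ, ∃ c : ℕ, ev (σ ++ (x.1 ++
      ((Encodable.decode c : Option (List ℕ)).getD []))) x.2 ≠ none := by
    rintro ⟨ρ, m⟩
    obtain ⟨_, h2⟩ := hno (σ ++ ρ) (List.prefix_append _ _)
    obtain ⟨τ', ⟨l, hl⟩, h3⟩ := h2 m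
    refine ⟨Encodable.encode l, ?_⟩
    rw [Encodable.encodek, Option.getD_some]
    show ev (σ ++ (ρ ++ l)) m ≠ none
    rw [← List.append_assoc, hl]
    exact h3
  have happ : Computable₂ (fun l1 l2 : List ℕ => l1 ++ l2) := Primrec.list_append.to_comp
  obtain ⟨dl, hdl, hdl2⟩ : ∃ dl : ℕ → List ℕ, Computable dl ∧
      ∀ c, dl c = (Encodable.decode c : Option (List ℕ)).getD [] :=
    ⟨_, c_ogetD (c_decode Computable.id), fun _ => rfl⟩
  simp only [← hdl2] at H1
  have hp : ComputablePred (fun y : (List ℕ × ℕ) × ℕ => ev (σ ++ (y.1.1 ++ dl y.2)) y.1.2 ≠ none) := by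
    have h1 : Computable (fun y : (List ℕ × ℕ) × ℕ => ev (σ ++ (y.1.1 ++ dl y.2)) y.1.2) := by
      have h2 : Computable (fun y : (List ℕ × ℕ) × ℕ => y.1.1 ++ dl y.2) :=
        happ.comp (Computable.fst.comp Computable.fst) (hdl.comp Computable.snd)
      have h3 : Computable (fun y : (List ℕ × ℕ) × ℕ => σ ++ (y.1.1 ++ dl y.2)) :=
        happ.comp (Computable.const σ) h2
      exact hev.comp h3 (Computable.snd.comp Computable.fst)
    exact cp_ne h1 (Computable.const none)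
  obtain ⟨G, hG, hG2⟩ := exists_find (p := fun (x : List ℕ × ℕ) c =>
    ev (σ ++ (x.1 ++ dl c)) x.2 ≠ none) hp H1
  let ρ : ℕ → List ℕ := fun m => Nat.rec [] (fun m ρ => ρ ++ dl (G (ρ, m))) m
  have hρ : Computable ρ := by
    have h := Computable.nat_rec (α := ℕ) (f := fun s => s) (g := fun _ => ([] : List ℕ))
      (h := fun _ (p : ℕ × List ℕ) => p.2 ++ dl (G (p.2, p.1))) Computable.id
      (Computable.const _)
      (by
        have h2 : Computable (fun x : ℕ × (ℕ × List ℕ) => x.2.2) :=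
          Computable.snd.comp Computable.snd
        have h3 : Computable (fun x : ℕ × (ℕ × List ℕ) => x.2.1) :=
          Computable.fst.comp Computable.snd
        exact happ.comp h2 (hdl.comp (hG.comp (h2.pair h3))))
    exact h
  have hρs : ∀ m, ρ (m + 1) = ρ m ++ dl (G (ρ m, m)) := fun m => rfl
  have hdef : ∀ m, ev (σ ++ ρ (m + 1)) m ≠ none := fun m => by rw [hρs]; exact hG2 (ρ m, m)
  have hρm : ∀ m m', m ≤ m' → σ ++ ρ m <+: σ ++ ρ m' := by
    intro m m' h
    induction m', h using Nat.le_induction with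
    | base => exact List.prefix_refl _
    | succ k _ ih =>
      refine ih.trans ?_
      rw [hρs, ← List.append_assoc]
      exact List.prefix_append _ _
  obtain ⟨f, hf, hf2⟩ : ∃ f : ℕ → ℕ, Computable f ∧ ∀ m, ev (σ ++ ρ (m + 1)) m = some (f m) := by
    refine ⟨fun m => (ev (σ ++ ρ (m + 1)) m).getD 0, ?_, fun m => ?_⟩
    · have h1 : Computable (fun m : ℕ => σ ++ ρ (m + 1)) :=
        happ.comp (Computable.const σ) (hρ.comp (Computable.succ))
      exact c_ogetD (hev.comp h1 Computable.id)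
    · cases h : ev (σ ++ ρ (m + 1)) m with
      | none => exact absurd h (hdef m)
      | some v =>
        show some v = some ((ev (σ ++ ρ (m + 1)) m).getD 0)
        rw [h, Option.getD_some]
  have hcon : ∀ N, ∃ Q : Set H, Cone Q ∧ μ a ∈ Q ∧ μ b ∉ Q ∧
      ∀ i < N, f i = Set.indicator (μ ⁻¹' Q) (fun _ => (1 : ℕ)) i := by
    intro N
    obtain ⟨⟨Q, hQ, h1, h2, h3⟩, _⟩ := hno (σ ++ ρ N) (List.prefix_append _ _)
    refine ⟨Q, hQ, h1, h2, fun i hi => h3 i (f i) ?_⟩
    exact hmono _ _ _ _ (hρm (i + 1) N hi) (hf2 i)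
  have hval : ∀ (Q : Set H) (i : ℕ), Set.indicator (μ ⁻¹' Q) (fun _ => (1 : ℕ)) i = 1 ↔ μ i ∈ Q := by
    intro Q i
    by_cases h : μ i ∈ Q
    · rw [Set.indicator_of_mem (show i ∈ μ ⁻¹' Q from h)]; simp [h]
    · rw [Set.indicator_of_notMem (show i ∉ μ ⁻¹' Q from h)]; simp [h]
  have hmem : ∀ i, μ i ∈ {x : H | f (μ.symm x) = 1} ↔ f i = 1 := by
    intro i
    rw [Set.mem_ofPred_eq, Equiv.symm_apply_apply]
  have hQ' : Cone {x : H | f (μ.symm x) = 1} := by
    refine ⟨?_, ?_, ?_⟩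
    · intro x hx y hy
      obtain ⟨i, rfl⟩ := μ.surjective x
      obtain ⟨j, rfl⟩ := μ.surjective y
      obtain ⟨k, hk⟩ := μ.surjective (μ i + μ j)
      rw [← hk, hmem]
      rw [hmem] at hx hy
      obtain ⟨Q, hQ, _, _, h3⟩ := hcon (i + j + k + 1)
      rw [h3 i (by omega), hval] at hx
      rw [h3 j (by omega), hval] at hy
      rw [h3 k (by omega), hval, hk]
      exact hQ.1 _ hx _ hy
    · intro x hx hx'
      obtain ⟨i, rfl⟩ := μ.surjective x
      obtain ⟨k, hk⟩ := μ.surjective (-μ i)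
      rw [← hk, hmem] at hx'
      rw [hmem] at hx
      obtain ⟨Q, hQ, _, _, h3⟩ := hcon (i + k + 1)
      rw [h3 i (by omega), hval] at hx
      rw [h3 k (by omega), hval, hk] at hx'
      exact hQ.2.1 _ hx hx'
    · intro x
      obtain ⟨i, rfl⟩ := μ.surjective x
      obtain ⟨k, hk⟩ := μ.surjective (-μ i)
      rw [← hk, hmem, hmem]
      obtain ⟨Q, hQ, _, _, h3⟩ := hcon (i + k + 1)
      rw [h3 i (by omega), h3 k (by omega), hval, hval, hk]
      exact hQ.2.2 _
  have hcomp : Computable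
      (Set.indicator (μ ⁻¹' {x : H | f (μ.symm x) = 1}) (fun _ => (1 : ℕ)) : ℕ → ℕ) := by
    refine hf.of_eq fun i => ?_
    by_cases h : f i = 1
    · rw [h]
      exact ((hval _ i).2 ((hmem i).2 h)).symm
    · have h0 : f i = 0 := by
        obtain ⟨Q, _, _, _, h3⟩ := hcon (i + 1)
        rw [h3 i (by omega)] at h ⊢
        rw [hval] at h
        exact Set.indicator_of_notMem (show i ∉ μ ⁻¹' Q from h) _
      rw [h0, Set.indicator_of_notMem]
      exact fun hc => h ((hmem i).1 hc)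
  obtain ⟨Q, hQ, hQa, hQb, h3⟩ := hcon (a + b + 1)
  have h1 : f a = 1 := by rw [h3 a (by omega), hval]; exact hQa
  have h2 : f b ≠ 1 := by rw [h3 b (by omega), Ne, hval]; exact hQb
  rcases honly _ hQ' hcomp with h | h
  · exact h2 ((hmem b).1 ((h _).2 hb.1))
  · exact ha.2 (hP.2.1 _ ha.1 ((h _).1 ((hmem a).2 h1)))

theorem exists_X (P : Set H) (hP : Cone P)
    (honly : ∀ Q : Set H, Cone Q →
      Computable (Set.indicator (μ ⁻¹' Q) (fun _ => (1 : ℕ)) : ℕ → ℕ) →
      (∀ x, x ∈ Q ↔ x ∈ P) ∨ (∀ x, x ∈ Q ↔ -x ∈ P)) :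
    ∃ X : ℕ → ℕ, ¬ Computable X ∧ ∀ Q : Set H, Cone Q →
      TuringReducible ((Set.indicator (μ ⁻¹' Q) (fun _ => (1 : ℕ)) : ℕ → ℕ) : ℕ →. ℕ)
        ((X : ℕ → ℕ) : ℕ →. ℕ) →
      (∀ x, x ∈ Q ↔ x ∈ P) ∨ (∀ x, x ∈ Q ↔ -x ∈ P) := by
  classical
  let I : Type := ({ev : List ℕ → ℕ → Option ℕ // Computable₂ ev} × ℕ × ℕ) ⊕
    {f : ℕ → ℕ // Computable f}
  have hI : Nonempty I := ⟨Sum.inr ⟨fun _ => 0, Computable.const 0⟩⟩
  obtain ⟨en, hen⟩ := exists_surjective_nat I
  let D : I → Set (List ℕ) := fun x => match x with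
    | Sum.inl (ev, a, b) => {τ | ((∀ σ τ x y, σ <+: τ → ev.1 σ x = some y → ev.1 τ x = some y) ∧
        (μ a ∈ P ∧ μ a ≠ 0) ∧ (μ b ∈ P ∧ μ b ≠ 0)) →
        (¬ Con μ ev.1 a b τ ∨ ∃ m, ∀ τ', τ <+: τ' → ev.1 τ' m = none)}
    | Sum.inr f => {τ | ∃ i, ∃ v, τ[i]? = some v ∧ v ≠ f.1 i}
  have hD : ∀ k σ, ∃ τ, σ <+: τ ∧ τ ∈ D (en k) := by
    intro k σ
    rcases en k with ⟨ev, a, b⟩ | f
    · by_cases h : (∀ σ τ x y, σ <+: τ → ev.1 σ x = some y → ev.1 τ x = some y) ∧
        (μ a ∈ P ∧ μ a ≠ 0) ∧ (μ b ∈ P ∧ μ b ≠ 0)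
      · obtain ⟨τ, h1, h2⟩ := dense_aux μ P hP honly ev.1 ev.2 h.1 a b h.2.1 h.2.2 σ
        exact ⟨τ, h1, fun _ => h2⟩
      · exact ⟨σ, List.prefix_refl _, fun h' => absurd h' h⟩
    · refine ⟨σ ++ [f.1 σ.length + 1], List.prefix_append _ _, σ.length, f.1 σ.length + 1, ?_, ?_⟩
      · simp
      · omega
  obtain ⟨X, hX⟩ := exists_generic (fun k => D (en k)) hD
  have hX' : ∀ x : I, ∃ n, pre X n ∈ D x := by
    intro x
    obtain ⟨k, rfl⟩ := hen x
    exact hX k
  refine ⟨X, ?_, ?_⟩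
  · intro hc
    obtain ⟨n, i, v, h1, h2⟩ := hX' (Sum.inr ⟨X, hc⟩)
    rw [Pool.Agent.Helper743.pre_getElem?] at h1
    split_ifs at h1 with h
    exact h2 (Option.some.inj h1).symm
  · intro Q hQ hred
    have hred' : Nat.RecursiveIn {(X : ℕ →. ℕ)}
        ((Set.indicator (μ ⁻¹' Q) (fun _ => (1 : ℕ)) : ℕ → ℕ) : ℕ →. ℕ) :=
      RecursiveIn.iff_nat.1 hred
    obtain ⟨ev, hev, hmono, huse⟩ := use_principle X _ hred'
    by_contra hcon
    push Not at hcon
    obtain ⟨a, haP, ha0, haQ⟩ : ∃ a, μ a ∈ P ∧ μ a ≠ 0 ∧ μ a ∈ Q := by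
      by_contra hno
      push Not at hno
      obtain ⟨x, hx⟩ := hcon.2
      obtain ⟨i, rfl⟩ := μ.surjective x
      obtain ⟨j, hj⟩ := μ.surjective (-μ i)
      have hz0 : μ i ≠ 0 := by
        intro h
        rcases hx with ⟨h1, h2⟩ | ⟨h1, h2⟩
        · exact h2 (by rw [h, neg_zero]; exact hP.zero_mem)
        · exact h1 (by rw [h]; exact hQ.zero_mem)
      rcases hx with ⟨h1, h2⟩ | ⟨h1, h2⟩
      · exact hno i ((hP.2.2 (μ i)).resolve_right h2) hz0 h1
      · refine hno j (by rw [hj]; exact h2) (by rw [hj]; exact neg_ne_zero.2 hz0) ?_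
        rw [hj]; exact hQ.neg_mem_of_notMem h1
    obtain ⟨b, hbP, hb0, hbQ⟩ : ∃ a, μ a ∈ P ∧ μ a ≠ 0 ∧ μ a ∉ Q := by
      by_contra hno
      push Not at hno
      obtain ⟨x, hx⟩ := hcon.1
      obtain ⟨i, rfl⟩ := μ.surjective x
      obtain ⟨j, hj⟩ := μ.surjective (-μ i)
      have hz0 : μ i ≠ 0 := by
        intro h
        rcases hx with ⟨h1, h2⟩ | ⟨h1, h2⟩
        · exact h2 (by rw [h]; exact hP.zero_mem)
        · exact h1 (by rw [h]; exact hQ.zero_mem)
      rcases hx with ⟨h1, h2⟩ | ⟨h1, h2⟩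
      · have h3 : μ j ∈ P := by rw [hj]; exact hP.neg_mem_of_notMem h2
        have h4 := hno j h3 (by rw [hj]; exact neg_ne_zero.2 hz0)
        rw [hj] at h4
        exact hz0 (hQ.2.1 _ h1 h4)
      · exact h1 (hno i h2 hz0)
    obtain ⟨n, hn⟩ := hX' (Sum.inl (⟨ev, hev⟩, a, b))
    rcases hn ⟨hmono, ⟨haP, ha0⟩, ⟨hbP, hb0⟩⟩ with h | ⟨m, hm⟩
    · apply h
      refine ⟨Q, hQ, haQ, hbQ, fun i v hv => ?_⟩
      have h1 := (huse i v).2 ⟨n, hv⟩
      exact Part.mem_some_iff.1 h1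
    · obtain ⟨n', hn'⟩ := (huse m _).1 (Part.mem_some
        (Set.indicator (μ ⁻¹' Q) (fun _ => (1 : ℕ)) m))
      have h1 := hmono _ _ _ _ (pre_prefix X (le_max_right n n')) hn'
      have h2 : ev (pre X (max n n')) m = none := hm _ (pre_prefix X (le_max_left n n'))
      rw [h2] at h1
      exact Option.some_ne_none _ h1.symm

end Pool.Agent.H670.OA
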