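import Pool.Agent.H670.OA.Lin5

/-! Properties of the sequence of states. -/

set_option autoImplicit false

namespace Pool.Agent.H670.OA

open Finset (range)
open Nat.Partrec (Code)

theorem eps_mono {t t' e i v : ℕ} (ht : t ≤ t') (h : eps t e i = some v) : eps t' e i = some v := by
  unfold eps at *
  have h1 : v ∈ Code.evaln t (Denumerable.ofNat Code e) i := h
  exact Code.evaln_mono ht h1

/-- a certificate with a given code -/
def SatK (t : ℕ) (σ : St) (e κ : ℕ) : Prop :=
  κ < sK σ ∧ (len κ ≤ sn σ ∧ dr σ κ = 0 ∧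
    (∀ i, i < sn σ → ((0 < cf κ i → eps t e i = some 1) ∧ (cf κ i < 0 → eps t e i = some 0))) ∧
    ∃ i, i < sn σ ∧ (cf κ i ≠ 0 ∧ sr σ i ≠ 0))

variable {H : Type} [AddCommGroup H] {ν : ℕ ≃ H} {st : ℕ → St}
  (hst : ∀ s, Step ν s (st s) (st (s + 1)))

include hst

theorem good_st {s : ℕ} (hs : 1 ≤ s) : Good ν ((s + 1) / 2) (st s) := by
  obtain ⟨s', rfl⟩ : ∃ s', s = s' + 1 := ⟨s - 1, by omega⟩
  exact (hst s').1

theorem n_lt (s : ℕ) : sn (st s) < sn (st (s + 1)) := by
  classical
  have h := (hst s).2.2.2.2.1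
  choose! k hk using h
  have h1 : (range (sn (st s) + 1)).card ≤ (range (sn (st (s + 1)))).card := by
    refine Finset.card_le_card_of_injOn k (fun h hh => ?_) (fun h1 hh1 h2 hh2 he => ?_)
    · exact Finset.mem_coe.2 (Finset.mem_range.2 (hk h (Finset.mem_range.1 hh)).1)
    · have e1 := (hk h1 (Finset.mem_range.1 hh1)).2.1
      have e2 := (hk h2 (Finset.mem_range.1 hh2)).2.1
      rw [← e1, he, e2]
  simp only [Finset.card_range] at h1
  omega

theorem n_mono {s s' : ℕ} (h : s ≤ s') : sn (st s) ≤ sn (st s') := by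
  induction s', h using Nat.le_induction with
  | base => exact le_refl _
  | succ k _ ih => exact ih.trans (n_lt hst k).le

theorem n_ge (s : ℕ) : s ≤ sn (st s) := by
  induction s with
  | zero => exact Nat.zero_le _
  | succ s ih => have := n_lt hst s; omega

theorem K_mono {s s' : ℕ} (h : s ≤ s') : sK (st s) ≤ sK (st s') := by
  induction s', h using Nat.le_induction with
  | base => exact le_refl _
  | succ k _ ih => exact ih.trans (hst k).2.2.1.le

theorem K_ge (s : ℕ) : s ≤ sK (st s) := by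
  induction s with
  | zero => exact Nat.zero_le _
  | succ s ih => have := (hst s).2.2.1; omega

theorem sign_pub {κ s s' : ℕ} (hκ : κ < sK (st s)) (hl : len κ ≤ sn (st s)) (h : s ≤ s') :
    (0 < dr (st s') κ ↔ 0 < dr (st s) κ) ∧ (dr (st s') κ < 0 ↔ dr (st s) κ < 0) := by
  induction s', h using Nat.le_induction with
  | base => exact ⟨Iff.rfl, Iff.rfl⟩
  | succ k hk ih =>
    have h1 := (hst k).2.2.2.1 κ (lt_of_lt_of_le hκ (K_mono hst hk)) (hl.trans (n_mono hst hk))
    exact ⟨h1.1.trans ih.1, h1.2.trans ih.2⟩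

theorem sign_pub0 {κ s s' : ℕ} (hκ : κ < sK (st s)) (hl : len κ ≤ sn (st s)) (h : s ≤ s') :
    dr (st s') κ = 0 ↔ dr (st s) κ = 0 := by
  have := sign_pub hst hκ hl h
  constructor <;> intro h1 <;> rw [h1] at this <;> simp at this <;> omega

theorem SatK_persist {t t' s s' e κ : ℕ} (ht : t ≤ t') (hs : s ≤ s') (h1 : 1 ≤ s)
    (h : SatK t (st s) e κ) : SatK t' (st s') e κ := by
  obtain ⟨hκ, hl, h0, hsig, i, hi, hci, hri⟩ := h
  have hκ' : κ < sK (st s') := lt_of_lt_of_le hκ (K_mono hst hs)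
  have hl' : len κ ≤ sn (st s') := hl.trans (n_mono hst hs)
  refine ⟨hκ', hl', (sign_pub0 hst hκ hl hs).2 h0, ?_, ?_⟩
  · intro j _
    by_cases hj : j < sn (st s)
    · exact ⟨fun h => eps_mono ht ((hsig j hj).1 h), fun h => eps_mono ht ((hsig j hj).2 h)⟩
    · rw [cf_eq_zero (by omega)]
      exact ⟨fun h => absurd h (lt_irrefl _), fun h => absurd h (lt_irrefl _)⟩
  · by_contra hc
    push Not at hc
    have hg := good_st hst (show 1 ≤ s' by omega)
    have hi' : i < sn (st s') := lt_of_lt_of_le hi (n_mono hst hs)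
    -- only `i` has a nonzero coefficient
    have honly : ∀ j < sn (st s), j ≠ i → cf κ j = 0 := by
      intro j hj hji
      by_contra hcj
      have e1 := hc i hi' hci
      have e2 := hc j (lt_of_lt_of_le hj (n_mono hst hs)) hcj
      rcases lt_or_gt_of_ne hji with h | h
      · exact hg.2.2.2.1 i hi' j h (by rw [e1, e2])
      · exact hg.2.2.2.1 j (lt_of_lt_of_le hj (n_mono hst hs)) i h (by rw [e1, e2])
    unfold dr at h0
    rw [Finset.sum_eq_single i (fun j hj hji => by
      rw [honly j (Finset.mem_range.1 hj) hji, zero_mul])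
      (fun h => absurd (Finset.mem_range.2 hi) h)] at h0
    rcases mul_eq_zero.1 h0 with h | h
    · exact hci h
    · exact hri h

theorem Sat_persist {t t' s s' e : ℕ} (ht : t ≤ t') (hs : s ≤ s') (h1 : 1 ≤ s)
    (h : Sat t (st s) e) : Sat t' (st s') e := by
  obtain ⟨κ, hκ⟩ := h
  exact ⟨κ, SatK_persist hst ht hs h1 hκ⟩

theorem act_once {t t' p p' : ℕ} (ht : t < t') (h : act t (st (2 * t + 1)) = some p)
    (h' : act t' (st (2 * t' + 1)) = some p') : p.unpair.1 ≠ p'.unpair.1 := by
  intro he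
  have h1 := lfind_some h
  have h2 := (lfind_some h').2.1
  have h3 := (hst (2 * t + 1)).2.2.2.2.2.2 (by omega) p (by
    have := h1.1; omega)
  have e3 : (2 * t + 1) / 2 = t := by omega
  rw [e3] at h3
  have h4 := Sat_persist hst ht.le (show 2 * t + 1 + 1 ≤ 2 * t' + 1 by omega) (by omega) (h3 h)
  rw [he] at h4
  exact h2.1 h4

theorem act_bound (N : ℕ) : ∃ T, ∀ t ≥ T, ∀ p, act t (st (2 * t + 1)) = some p →
    N ≤ p.unpair.1 := by
  induction N with
  | zero => exact ⟨0, fun _ _ _ _ => Nat.zero_le _⟩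
  | succ N ih =>
    obtain ⟨T, hT⟩ := ih
    by_cases h : ∃ t p, act t (st (2 * t + 1)) = some p ∧ p.unpair.1 = N
    · obtain ⟨t0, p0, h1, h2⟩ := h
      refine ⟨max T (t0 + 1), fun t ht p hp => ?_⟩
      have h3 := hT t ((le_max_left _ _).trans ht) p hp
      have h4 := act_once hst (show t0 < t by have := (le_max_right T (t0 + 1)).trans ht; omega)
        h1 hp
      omega
    · push Not at h
      refine ⟨T, fun t ht p hp => ?_⟩
      have h3 := hT t ht p hp
      have h4 := h t p hp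
      omega

omit hst in
/-- elements which remain candidates -/
def Binf (ν : ℕ ≃ H) (h : ℕ) : Prop := ∀ t, Bs ν t h

omit hst in
theorem leave_bound (ν : ℕ ≃ H) (N : ℕ) : ∃ T, ∀ t ≥ T, ∀ j < N, Bs ν t j → Binf ν j := by
  induction N with
  | zero => exact ⟨0, fun _ _ j hj => absurd hj (by omega)⟩
  | succ N ih =>
    obtain ⟨T, hT⟩ := ih
    by_cases h : Binf ν N
    · refine ⟨T, fun t ht j hj hB => ?_⟩
      rcases Nat.lt_succ_iff_lt_or_eq.1 hj with hj | rfl
      · exact hT t ht j hj hB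
      · exact h
    · unfold Binf at h
      push Not at h
      obtain ⟨t0, h0⟩ := h
      refine ⟨max T t0, fun t ht j hj hB => ?_⟩
      rcases Nat.lt_succ_iff_lt_or_eq.1 hj with hj | rfl
      · exact hT t ((le_max_left _ _).trans ht) j hj hB
      · exact absurd (Bs_mono ν ((le_max_right _ _).trans ht) hB) h0

theorem qv_keep {s i : ℕ} (hi : i < sn (st s)) (hs : 1 ≤ s) (hk : keep ν s (st s) i) :
    qv (st (s + 1)) i = qv (st s) i := by
  have h1 := (hst s).2.2.2.2.2.1 i hi hk
  have hM : (sM (st s) : ℚ) ≠ 0 := by have := (good_st hst hs).1; positivity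
  have hM' : (sM (st (s + 1)) : ℚ) ≠ 0 := by
    have := (good_st hst (show 1 ≤ s + 1 by omega)).1; positivity
  ext h
  rw [qv_apply, qv_apply]
  by_cases hh : h < sL (st s) + sL (st (s + 1))
  · have h2 : ((sM (st (s + 1)) : ℤ) * sU (st s) i h : ℚ) = (sM (st s) : ℤ) * sU (st (s + 1)) i h := by
      exact_mod_cast h1 h hh
    push_cast at h2
    field_simp
    linarith
  · rw [sU_ge (by omega), sU_ge (by omega)]
    simp

end Pool.Agent.H670.OA
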