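import Pool.Agent.H670.OA.Lim1

/-! Limits of the vectors. -/

set_option autoImplicit false

namespace Pool.Agent.H670.OA

open Finset (range)
open Nat.Partrec (Code)

variable {H : Type} [AddCommGroup H] (ν : ℕ ≃ H) {E : Type} [AddCommGroup E] [Module ℚ E]
  (ι : H →+ E)

/-- the vectors supported on the remaining candidates are independent -/
theorem Pr_inj (hι : Function.Injective ι) {v : VV} (hv : ∀ h, v h ≠ 0 → Binf ν h)
    (h0 : Pr ν ι v = 0) : v = 0 := by
  classical
  by_contra hne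
  have hsup : v.support.Nonempty := Finsupp.support_nonempty_iff.2 hne
  obtain ⟨b, hb⟩ : ∃ b, b = v.support.max' hsup := ⟨_, rfl⟩
  have hb1 : v b ≠ 0 := by
    rw [hb]; exact Finsupp.mem_support_iff.1 (Finset.max'_mem _ _)
  have hb2 : ∀ h, v h ≠ 0 → h < b + 1 := by
    intro h hh
    have : h ≤ b := by rw [hb]; exact Finset.le_max' _ _ (Finsupp.mem_support_iff.2 hh)
    omega
  obtain ⟨M, hM, z, hz⟩ := common_den' 1 (b + 1) (fun _ h => v h)
  have hM' : (M : ℚ) ≠ 0 := by positivity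
  have h1 : ∑ h ∈ range (b + 1), z 0 h • ν h = 0 := by
    apply hι
    rw [map_sum, map_zero]
    have h2 : (M : ℚ) • Pr ν ι v = 0 := by rw [h0, smul_zero]
    rw [sum_single_of_supp (b + 1) v hb2, map_sum, Finset.smul_sum] at h2
    rw [← h2]
    refine Finset.sum_congr rfl fun h hh => ?_
    rw [map_zsmul, map_smul, Pr_single, one_smul, smul_smul, hz 0 one_pos h (Finset.mem_range.1 hh),
      Int.cast_smul_eq_zsmul]
  have h3 : z 0 b ≠ 0 := by
    intro h4
    have := hz 0 one_pos b (by omega)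
    rw [h4] at this
    simp only [Int.cast_zero] at this
    rcases mul_eq_zero.1 this with h5 | h5
    · exact hM' h5
    · exact hb1 h5
  have hcf : ∀ i < b + 1, cf (Encodable.encode ((List.range (b + 1)).map (z 0))) i = z 0 i := by
    intro i hi
    rw [cf_encode, getD_map_range, if_pos hi]
  have hW : Wit ν (Encodable.encode ((List.range (b + 1)).map (z 0))) b := by
    refine ⟨by rw [len_encode]; simp, by rw [hcf b (by omega)]; exact h3, ?_⟩
    rw [← h1]
    exact Finset.sum_congr rfl fun i hi => by rw [hcf i (Finset.mem_range.1 hi)]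
  exact hv b hb1 _ _ (Nat.lt_succ_self _) hW

/-- every element is represented by a vector supported on the remaining candidates -/
theorem lemmaWinf (h : ℕ) : ∃ w : VV, Pr ν ι w = ι (ν h) ∧
    ∀ h', w h' ≠ 0 → h' ≤ h ∧ Binf ν h' := by
  obtain ⟨T, hT⟩ := leave_bound ν (h + 1)
  obtain ⟨w, h1, h2⟩ := lemmaW ν ι T h
  exact ⟨w, h1, fun h' hh' => ⟨(h2 h' hh').1, hT T le_rfl h' (by have := (h2 h' hh').1; omega)
    (h2 h' hh').2⟩⟩

theorem Binf_infinite (hι : Function.Injective ι) (hrk : Cardinal.aleph0 ≤ Module.rank ℤ H)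
    (N : ℕ) : ∃ h ≥ N, Binf ν h := by
  classical
  by_contra hc
  push Not at hc
  let W : Submodule ℚ E := Submodule.span ℚ (((range N).image fun h => ι (ν h) : Finset E) : Set E)
  have hW : ∀ x : H, ι x ∈ W := by
    intro x
    obtain ⟨w, h1, h2⟩ := lemmaWinf ν ι (ν.symm x)
    rw [Equiv.apply_symm_apply] at h1
    rw [← h1]
    have h3 : ∀ h, w h ≠ 0 → h < N := by
      intro h hh
      by_contra hcc
      exact hc h (by omega) (h2 h hh).2
    rw [sum_single_of_supp N w h3, map_sum]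
    refine Submodule.sum_mem _ fun h hh => ?_
    rw [map_smul, Pr_single, one_smul]
    exact Submodule.smul_mem _ _ (Submodule.subset_span (Finset.mem_coe.2
      (Finset.mem_image_of_mem _ hh)))
  have hfin : Module.finrank ℚ W ≤ N := by
    have h1 := finrank_span_finset_le_card (R := ℚ) ((range N).image fun h => ι (ν h) : Finset E)
    refine h1.trans (Finset.card_image_le.trans ?_)
    simp
  have hmfin : Module.Finite ℚ W := Module.Finite.span_of_finite ℚ (Finset.finite_toSet _)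
  obtain ⟨f, hf⟩ := exists_linearIndependent_of_le_rank (R := ℤ) (M := H) (n := N + 1)
    ((Cardinal.natCast_lt_aleph0 (n := N + 1)).le.trans hrk)
  have h1 : LinearIndependent ℤ (fun i => ι (f i)) := by
    have := hf.map' ι.toIntLinearMap (LinearMap.ker_eq_bot.2 hι)
    exact this
  have h2 : LinearIndependent ℚ (fun i => ι (f i)) := (LinearIndependent.iff_fractionRing ℤ ℚ).1 h1
  have h3 : LinearIndependent ℚ (fun i => (⟨ι (f i), hW _⟩ : W)) :=
    LinearIndependent.of_comp W.subtype h2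
  have h4 := h3.fintype_card_le_finrank
  rw [Fintype.card_fin] at h4
  omega

theorem cnt_bound (hinf : ∀ N, ∃ h ≥ N, Binf ν h) (i : ℕ) : ∃ β, ∀ t, i < cnt ν t β := by
  classical
  have hstep : ∀ b t, Binf ν b → cnt ν t (b + 1) = cnt ν t b + 1 := by
    intro b t hb
    unfold cnt
    rw [Finset.sum_range_succ, if_pos (hb t)]
  induction i with
  | zero =>
    obtain ⟨h, _, hh⟩ := hinf 0
    exact ⟨h + 1, fun t => by rw [hstep h t hh]; omega⟩
  | succ i ih =>
    obtain ⟨β, hβ⟩ := ih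
    obtain ⟨h, h1, hh⟩ := hinf β
    refine ⟨h + 1, fun t => ?_⟩
    have := hβ t
    have := cnt_mono ν t h1
    rw [hstep h t hh]
    omega

variable {ν} {st : ℕ → St} (hst : ∀ s, Step ν s (st s) (st (s + 1)))

include hst

theorem supp_bound (hinf : ∀ N, ∃ h ≥ N, Binf ν h) (i : ℕ) : ∃ β, ∀ s, 1 ≤ s →
    i < sn (st s) → ∀ h, qv (st s) i h ≠ 0 → h < β := by
  obtain ⟨β, hβ⟩ := cnt_bound ν hinf i
  refine ⟨β, fun s hs hi h hh => ?_⟩
  have h1 := (good_st hst hs).supp hi hh
  by_contra hc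
  have h2 := hβ ((s + 1) / 2)
  have h3 := cnt_mono ν ((s + 1) / 2) (show β ≤ h by omega)
  omega

theorem keep_ev (hinf : ∀ N, ∃ h ≥ N, Binf ν h) (i : ℕ) : ∃ S, 1 ≤ S ∧ i < S ∧
    ∀ s ≥ S, keep ν s (st s) i := by
  obtain ⟨β, hβ⟩ := supp_bound hst hinf i
  obtain ⟨T1, hT1⟩ := leave_bound ν β
  obtain ⟨T2, hT2⟩ := act_bound hst i
  refine ⟨2 * T1 + 2 * T2 + i + 2, by omega, by omega, fun s hs => ⟨?_, ?_⟩⟩
  · intro _ h1 h2 h _ hU
    have hM := (good_st hst (show 1 ≤ s by omega)).1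
    by_contra hc
    have h3 : qv (st s) i h ≠ 0 := by
      rw [qv_apply]
      have : (sM (st s) : ℚ) ≠ 0 := by positivity
      exact div_ne_zero (by exact_mod_cast hU) this
    have h4 := hβ s (by omega) (lt_of_lt_of_le (by omega) (n_ge hst s)) h h3
    exact h2 (hT1 (s / 2) (by omega) _ (by omega) h1 _)
  · intro hs1 p _ hact
    have h1 : s = 2 * (s / 2) + 1 := by omega
    rw [h1] at hact
    have e3 : (2 * (s / 2) + 1) / 2 = s / 2 := by omega
    rw [e3] at hact
    have h2 := hT2 (s / 2) (by omega) p hact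
    have h3 := (lfind_some hact).2.1.2.1
    omega

theorem sy_eq (hι : Function.Injective ι) {s s' i : ℕ} (h1 : 1 ≤ s) (h1' : 1 ≤ s')
    (hi : i < sn (st s)) (hi' : i < sn (st s')) (hq : qv (st s) i = qv (st s') i) :
    sy (st s) i = sy (st s') i := by
  have e1 := (good_st hst h1).Pr_qv ι hi
  have e2 := (good_st hst h1').Pr_qv ι hi'
  rw [hq, e2] at e1
  exact (ν.injective (hι e1)).symm

theorem late_one (hι : Function.Injective ι) (hinf : ∀ N, ∃ h ≥ N, Binf ν h) (i : ℕ) :
    ∃ (v : VV) (y S : ℕ), 1 ≤ S ∧ ∀ s ≥ S, i < sn (st s) ∧ qv (st s) i = v ∧ sy (st s) i = y := by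
  obtain ⟨S, hS1, hS2, hS⟩ := keep_ev hst hinf i
  have hn : ∀ s ≥ S, i < sn (st s) := fun s hs =>
    lt_of_lt_of_le (by omega) (n_ge hst s)
  have hq : ∀ s ≥ S, qv (st s) i = qv (st S) i := by
    intro s hs
    induction s, hs using Nat.le_induction with
    | base => rfl
    | succ k hk ih =>
      rw [qv_keep hst (hn k hk) (by omega) (hS k hk), ih]
  exact ⟨qv (st S) i, sy (st S) i, S, hS1, fun s hs => ⟨hn s hs, hq s hs,
    sy_eq ι hst hι (by omega) hS1 (hn s hs) (hn S le_rfl) (hq s hs)⟩⟩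

end Pool.Agent.H670.OA
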