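import Pool.Agent.H670.OA.Lim2

/-! The limit group. -/

set_option autoImplicit false

namespace Pool.Agent.H670.OA

open Finset (range)
open Nat.Partrec (Code)

variable {H : Type} [AddCommGroup H] {ν : ℕ ≃ H} {E : Type} [AddCommGroup E] [Module ℚ E]
  (ι : H →+ E) {st : ℕ → St}

/-- `v` supported in `[0,h]`, in terms of the state -/
theorem rep_keep (hst : ∀ s, Step ν s (st s) (st (s + 1))) (h : ℕ) : ∃ S, 1 ≤ S ∧
    ∀ s ≥ S, ∀ k < sn (st s), sy (st s) k = h → (∀ h', qv (st s) k h' ≠ 0 → h' ≤ h) →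
      keep ν s (st s) k := by
  obtain ⟨T1, hT1⟩ := leave_bound ν (h + 1)
  obtain ⟨T2, hT2⟩ := act_bound hst (h + 1)
  refine ⟨2 * T1 + 2 * T2 + 2, by omega, fun s hs k hk hy hq => ?_⟩
  have hM := (good_st hst (show 1 ≤ s by omega)).1
  have hM' : (sM (st s) : ℚ) ≠ 0 := by positivity
  have hU : ∀ h', sU (st s) k h' ≠ 0 → h' ≤ h := by
    intro h' hne
    refine hq h' ?_
    rw [qv_apply]
    exact div_ne_zero (by exact_mod_cast hne) hM'
  refine ⟨?_, ?_⟩
  · intro _ h1 h2 h' _ hU'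
    by_contra hc
    have h3 := hU h' hU'
    exact h2 (hT1 (s / 2) (by omega) _ (by omega) h1 _)
  · intro hs1 p _ hact
    have h1 : s = 2 * (s / 2) + 1 := by omega
    rw [h1] at hact
    have e3 : (2 * (s / 2) + 1) / 2 = s / 2 := by omega
    rw [e3] at hact
    have h2 := hT2 (s / 2) (by omega) p hact
    have h3 := (lfind_some hact).2.1
    rw [← h1] at h3
    by_contra hc
    rcases h3.2.2.2.1 k hk (by omega) with h4 | ⟨h', _, h5, h6⟩
    · omega
    · have := hU h' h5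
      omega

variable (hst : ∀ s, Step ν s (st s) (st (s + 1))) {qF : ℕ → VV} {F : ℕ → ℕ}
  (hlate : ∀ i, ∃ S, 1 ≤ S ∧ ∀ s ≥ S, i < sn (st s) ∧ qv (st s) i = qF i ∧ sy (st s) i = F i)

include hlate in
theorem late_all (N : ℕ) : ∃ S, 1 ≤ S ∧ ∀ s ≥ S, ∀ i < N,
    i < sn (st s) ∧ qv (st s) i = qF i ∧ sy (st s) i = F i := by
  induction N with
  | zero => exact ⟨1, le_rfl, fun _ _ i hi => absurd hi (by omega)⟩
  | succ N ih =>
    obtain ⟨S, h1, hS⟩ := ih
    obtain ⟨S', h1', hS'⟩ := hlate N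
    refine ⟨max S S', h1.trans (le_max_left _ _), fun s hs i hi => ?_⟩
    rcases Nat.lt_succ_iff_lt_or_eq.1 hi with hi | rfl
    · exact hS s ((le_max_left _ _).trans hs) i hi
    · exact hS' s ((le_max_right _ _).trans hs)

include hst hlate

theorem Pr_qF (i : ℕ) : Pr ν ι (qF i) = ι (ν (F i)) := by
  obtain ⟨S, h1, hS⟩ := hlate i
  have := (good_st hst h1).Pr_qv ι (hS S le_rfl).1
  rwa [(hS S le_rfl).2.1, (hS S le_rfl).2.2] at this

theorem qF_supp (i h : ℕ) (hh : qF i h ≠ 0) : Binf ν h := by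
  intro t
  obtain ⟨S, h1, hS⟩ := hlate i
  have h2 := hS (S + 2 * t) (by omega)
  have h3 := (good_st hst (show 1 ≤ S + 2 * t by omega)).supp h2.1 (h := h) (by rw [h2.2.1]; exact hh)
  exact Bs_mono ν (by omega) h3.1

theorem qF_inj {i j : ℕ} (h : qF i = qF j) : i = j := by
  by_contra hne
  obtain ⟨S, h1, hS⟩ := late_all hlate (i + j + 1)
  have h2 := hS S le_rfl i (by omega)
  have h3 := hS S le_rfl j (by omega)
  refine (good_st hst h1).inj h2.1 h3.1 hne ?_
  rw [h2.2.1, h3.2.1, h]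

variable (hι : Function.Injective ι)

include hι

theorem comb_zero (N : ℕ) (c : ℕ → ℤ) :
    ∑ i ∈ range N, c i • qF i = 0 ↔ ∑ i ∈ range N, c i • ν (F i) = 0 := by
  have h1 : Pr ν ι (∑ i ∈ range N, c i • qF i) = ι (∑ i ∈ range N, c i • ν (F i)) := by
    rw [map_sum, map_sum]
    refine Finset.sum_congr rfl fun i _ => ?_
    rw [map_zsmul, map_zsmul, Pr_qF ι hst hlate i]
  constructor
  · intro h
    rw [h, map_zero] at h1
    exact hι (by rw [← h1, map_zero])
  · intro h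
    rw [h, map_zero] at h1
    refine Pr_inj ν ι hι (fun h' hh' => ?_) h1
    rw [Finsupp.finsetSum_apply] at hh'
    obtain ⟨i, _, hne⟩ := Finset.exists_ne_zero_of_sum_ne_zero hh'
    refine qF_supp hst hlate i h' fun h0 => hne ?_
    show c i • qF i h' = 0
    rw [h0, smul_zero]

theorem qF_of_F {v : VV} {i : ℕ} (hv : ∀ h, v h ≠ 0 → Binf ν h)
    (h : Pr ν ι v = ι (ν (F i))) : v = qF i := by
  rw [← Pr_qF ι hst hlate i] at h
  have h1 : v - qF i = 0 := by
    refine Pr_inj ν ι hι (fun h' hh' => ?_) (by rw [map_sub, h, sub_self])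
    by_cases h2 : v h' = 0
    · refine qF_supp hst hlate i h' fun h3 => hh' ?_
      rw [Finsupp.sub_apply, h2, h3, sub_zero]
    · exact hv h' h2
  exact sub_eq_zero.1 h1

theorem F_inj : Function.Injective F := by
  intro i j h
  refine qF_inj hst hlate (qF_of_F ι hst hlate hι (qF_supp hst hlate i) ?_)
  rw [Pr_qF ι hst hlate i, h]

theorem rep_persist {h : ℕ} : ∃ S, 1 ≤ S ∧ ∀ s ≥ S, ∀ k < sn (st s), sy (st s) k = h →
    (∀ h', qv (st s) k h' ≠ 0 → h' ≤ h) → F k = h := by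
  obtain ⟨S, h1, hS⟩ := rep_keep hst h
  refine ⟨S, h1, fun s hs k hk hy hq => ?_⟩
  have key : ∀ s' ≥ s, k < sn (st s') ∧ sy (st s') k = h ∧
      (∀ h', qv (st s') k h' ≠ 0 → h' ≤ h) := by
    intro s' hs'
    induction s', hs' using Nat.le_induction with
    | base => exact ⟨hk, hy, hq⟩
    | succ m hm ih =>
      obtain ⟨h2, h3, h4⟩ := ih
      have h5 := hS m (by omega) k h2 h3 h4
      have h6 := qv_keep hst h2 (by omega) h5
      have h7 : k < sn (st (m + 1)) := h2.trans (n_lt hst m)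
      refine ⟨h7, ?_, by rw [h6]; exact h4⟩
      rw [sy_eq ι hst hι (by omega) (by omega) h7 h2 h6]
      exact h3
  obtain ⟨S', _, hS'⟩ := hlate k
  have h8 := hS' (max S' s) (le_max_left _ _)
  rw [← h8.2.2]
  exact (key _ (le_max_right _ _)).2.1

theorem F_surj : Function.Surjective F := by
  intro h
  obtain ⟨S, h1, hS⟩ := rep_persist ι hst hlate hι (h := h)
  obtain ⟨k, hk, hy, hs⟩ := (hst (S + h)).2.2.2.2.1 h (by have := n_ge hst (S + h); omega)
  refine ⟨k, hS (S + h + 1) (by omega) k hk hy fun h' hh' => ?_⟩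
  rw [qv_apply] at hh'
  have h2 : sU (st (S + h + 1)) k h' ≠ 0 := by
    intro h0; rw [h0] at hh'; simp at hh'
  have h3 : h' < sL (st (S + h + 1)) := by
    by_contra hc
    exact h2 (sU_ge (by omega))
  have := hs h' h3 h2
  omega

end Pool.Agent.H670.OA
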