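import Pool.Agent.H670.OA.Lim3

/-! Computability of the limit group and its order. -/

set_option autoImplicit false

namespace Pool.Agent.H670.OA

open Finset (range)
open Nat.Partrec (Code)

/-- Kronecker symbol -/
def ind (a i : ℕ) : ℤ := ((1 - ((i - a) + (a - i)) : ℕ) : ℤ)

theorem ind_self (a : ℕ) : ind a a = 1 := by simp [ind]

theorem ind_ne {a i : ℕ} (h : i ≠ a) : ind a i = 0 := by
  unfold ind
  have : 1 - ((i - a) + (a - i)) = 0 := by omega
  rw [this]; rfl

@[fun_prop] theorem c_ind {α : Type} [Primcodable α] {f g : α → ℕ} (hf : Computable f)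
    (hg : Computable g) : Computable (fun a => ind (f a) (g a)) := by
  unfold ind; fun_prop

theorem ind_sum {N a : ℕ} (ha : a < N) {A : Type} [AddCommGroup A] (q : ℕ → A) :
    ∑ i ∈ range N, ind a i • q i = q a := by
  rw [Finset.sum_eq_single a]
  · rw [ind_self, one_smul]
  · intro i _ hi
    rw [ind_ne hi, zero_smul]
  · intro h
    exact absurd (Finset.mem_range.2 ha) h

theorem tri_aux {α : Type} [Primcodable α] {f g h : α → ℕ} (hf : Computable f)
    (hg : Computable g) (hh : Computable h) :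
    ComputablePred (fun x : α × ℕ => len x.2 = f x.1 + g x.1 + h x.1 + 1 ∧
      ∀ i, i < f x.1 + g x.1 + h x.1 + 1 →
        cf x.2 i = ind (f x.1) i + ind (g x.1) i - ind (h x.1) i) := by
  refine cp_and (by fun_prop) ?_
  exact cp_ball (p := fun (y : α × ℕ) i =>
        cf y.2 i = ind (f y.1) i + ind (g y.1) i - ind (h y.1) i) (by fun_prop) (by fun_prop)

theorem uni_aux {α : Type} [Primcodable α] {f : α → ℕ} (hf : Computable f) :
    ComputablePred (fun x : α × ℕ => len x.2 = f x.1 + 1 ∧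
      ∀ i, i < f x.1 + 1 → cf x.2 i = ind (f x.1) i) := by
  refine cp_and (by fun_prop) ?_
  exact cp_ball (p := fun (y : α × ℕ) i => cf y.2 i = ind (f y.1) i) (by fun_prop) (by fun_prop)

theorem exists_tri : ∃ tri : ℕ × ℕ × ℕ → ℕ, Computable tri ∧ ∀ a b k,
    len (tri (a, b, k)) = a + b + k + 1 ∧
    ∀ i < a + b + k + 1, cf (tri (a, b, k)) i = ind a i + ind b i - ind k i := by
  have h1 := tri_aux (α := ℕ × ℕ × ℕ) (f := fun x => x.1) (g := fun x => x.2.1)
    (h := fun x => x.2.2) Computable.fst (Computable.fst.comp Computable.snd)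
    (Computable.snd.comp Computable.snd)
  have h2 : ∀ x : ℕ × ℕ × ℕ, ∃ κ, len κ = x.1 + x.2.1 + x.2.2 + 1 ∧
      ∀ i, i < x.1 + x.2.1 + x.2.2 + 1 → cf κ i = ind x.1 i + ind x.2.1 i - ind x.2.2 i := by
    rintro ⟨a, b, k⟩
    refine ⟨Encodable.encode ((List.range (a + b + k + 1)).map
        (fun i => ind a i + ind b i - ind k i)), by rw [len_encode]; simp, fun i hi => ?_⟩
    rw [cf_encode, getD_map_range, if_pos hi]
  obtain ⟨F, hF, hF2⟩ := exists_find (α := ℕ × ℕ × ℕ)
    (p := fun x κ => len κ = x.1 + x.2.1 + x.2.2 + 1 ∧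
      ∀ i, i < x.1 + x.2.1 + x.2.2 + 1 → cf κ i = ind x.1 i + ind x.2.1 i - ind x.2.2 i) h1 h2
  exact ⟨F, hF, fun a b k => hF2 (a, b, k)⟩

theorem exists_uni : ∃ uni : ℕ → ℕ, Computable uni ∧ ∀ a, len (uni a) = a + 1 ∧
    ∀ i < a + 1, cf (uni a) i = ind a i := by
  have h2 : ∀ a : ℕ, ∃ κ, len κ = a + 1 ∧ ∀ i, i < a + 1 → cf κ i = ind a i := by
    intro a
    refine ⟨Encodable.encode ((List.range (a + 1)).map (fun i => ind a i)),
      by rw [len_encode]; simp, fun i hi => ?_⟩
    rw [cf_encode, getD_map_range, if_pos hi]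
  obtain ⟨F, hF, hF2⟩ := exists_find (α := ℕ)
    (p := fun x κ => len κ = x + 1 ∧ ∀ i, i < x + 1 → cf κ i = ind x i)
    (uni_aux (α := ℕ) (f := fun x => x) Computable.id) h2
  exact ⟨F, hF, hF2⟩

/-- the sign of an integer combination -/
def DR (st : ℕ → St) (κ : ℕ) : ℤ := dr (st (κ + len κ + 1)) κ

theorem c_DR {st : ℕ → St} (hst : Computable st) : Computable (DR st) := by
  show Computable (fun κ => dr (st (κ + len κ + 1)) κ)
  have h1 : Computable (fun κ : ℕ => κ + len κ + 1) := by fun_prop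
  exact c_dr (hst.comp h1) Computable.id

/-- order cones -/
def Cone {H : Type} [AddCommGroup H] (P : Set H) : Prop :=
  (∀ a ∈ P, ∀ b ∈ P, a + b ∈ P) ∧ (∀ a : H, a ∈ P → -a ∈ P → a = 0) ∧ (∀ a : H, a ∈ P ∨ -a ∈ P)

variable {H : Type} [AddCommGroup H] {ν : ℕ ≃ H} {E : Type} [AddCommGroup E] [Module ℚ E]
  (ι : H →+ E) {st : ℕ → St}

section

variable (hst : ∀ s, Step ν s (st s) (st (s + 1))) {qF : ℕ → VV} {F : ℕ → ℕ}
  (hlate : ∀ i, ∃ S, 1 ≤ S ∧ ∀ s ≥ S, i < sn (st s) ∧ qv (st s) i = qF i ∧ sy (st s) i = F i)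

include hst

theorem DR_sign {κ s : ℕ} (hs : κ + len κ + 1 ≤ s) :
    (0 < dr (st s) κ ↔ 0 < DR st κ) ∧ (dr (st s) κ < 0 ↔ DR st κ < 0) :=
  sign_pub hst (lt_of_lt_of_le (by omega) (K_ge hst _)) (le_trans (by omega) (n_ge hst _)) hs

omit hst in
theorem dv_late {κ s : ℕ} (hl : len κ ≤ sn (st s))
    (h : ∀ i < len κ, qv (st s) i = qF i) : dv (st s) κ = ∑ i ∈ range (len κ), cf κ i • qF i := by
  unfold dv
  rw [← Finset.sum_subset (Finset.range_subset_range.2 hl)]
  · exact Finset.sum_congr rfl fun i hi => by rw [h i (Finset.mem_range.1 hi)]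
  · intro i _ hi2
    have : len κ ≤ i := by simpa using hi2
    rw [cf_eq_zero this, zero_smul]

include hlate

theorem DR_late (N : ℕ) : ∃ S, 1 ≤ S ∧ ∀ s ≥ S, ∀ κ < N,
    ((0 < rv (st s) (∑ i ∈ range (len κ), cf κ i • qF i) ↔ 0 < DR st κ) ∧
    (rv (st s) (∑ i ∈ range (len κ), cf κ i • qF i) < 0 ↔ DR st κ < 0)) ∧
    (DR st κ = 0 ↔ ∑ i ∈ range (len κ), cf κ i • qF i = 0) := by
  obtain ⟨S, h1, hS⟩ := late_all hlate (∑ κ ∈ range N, len κ)
  refine ⟨S + N + ∑ κ ∈ range N, len κ, by omega, fun s hs κ hκ => ?_⟩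
  have hlen : len κ ≤ ∑ κ ∈ range N, len κ :=
    Finset.single_le_sum (f := len) (fun _ _ => Nat.zero_le _) (Finset.mem_range.2 hκ)
  have hn : len κ ≤ sn (st s) := le_trans (by omega) (n_ge hst s)
  have h2 := dv_late (κ := κ) (s := s) hn
    (fun i hi => (hS s (by omega) i (by omega)).2.1)
  have hg := good_st hst (show 1 ≤ s by omega)
  have hM : (0 : ℚ) < sM (st s) := by have := hg.1; positivity
  have h3 := rv_dv hg.1 κ
  have h4 := DR_sign hst (κ := κ) (s := s) (by omega)
  rw [h2] at h3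
  have e1 : 0 < rv (st s) (∑ i ∈ range (len κ), cf κ i • qF i) ↔ 0 < dr (st s) κ := by
    constructor
    · intro h
      have : (0 : ℚ) < dr (st s) κ := by rw [← h3]; positivity
      exact_mod_cast this
    · intro h
      have : (0 : ℚ) < dr (st s) κ := by exact_mod_cast h
      rw [← h3] at this
      exact (pos_iff_pos_of_mul_pos this).1 hM
  have e2 : rv (st s) (∑ i ∈ range (len κ), cf κ i • qF i) < 0 ↔ dr (st s) κ < 0 := by
    constructor
    · intro h
      have : (dr (st s) κ : ℚ) < 0 := by rw [← h3]; exact mul_neg_of_pos_of_neg hM h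
      exact_mod_cast this
    · intro h
      have : (dr (st s) κ : ℚ) < 0 := by exact_mod_cast h
      rw [← h3] at this
      by_contra hc
      push Not at hc
      have := mul_nonneg hM.le hc
      linarith
  refine ⟨⟨e1.trans h4.1, e2.trans h4.2⟩, ?_, ?_⟩
  · intro h
    rw [← h2]
    refine hg.dv_eq_zero (lt_of_lt_of_le (by omega) (K_ge hst s)) hn ?_
    have h5 := h4.1.not.2 (by omega)
    have h6 := h4.2.not.2 (by omega)
    omega
  · intro h
    rw [h, map_zero] at e1 e2
    have h5 := (e1.trans h4.1).not.1 (lt_irrefl _)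
    have h6 := (e2.trans h4.2).not.1 (lt_irrefl _)
    omega

end

theorem main_limit (hι : Function.Injective ι)
    (hst : ∀ s, Step ν s (st s) (st (s + 1))) (hcst : Computable st) {qF : ℕ → VV} {F : ℕ → ℕ}
    (hlate : ∀ i, ∃ S, 1 ≤ S ∧ ∀ s ≥ S, i < sn (st s) ∧ qv (st s) i = qF i ∧ sy (st s) i = F i) :
    ∃ μ : ℕ ≃ H, (∀ i, μ i = ν (F i)) ∧ Computable₂ (fun a b : ℕ => μ.symm (μ a + μ b)) ∧
      ∃ P : Set H, Cone P ∧ Computable (Set.indicator (μ ⁻¹' P) (fun _ => (1 : ℕ)) : ℕ → ℕ) ∧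
        ∀ i, ∃ S, ∀ s ≥ S, ((μ i ∈ P ∧ μ i ≠ 0) ↔ 0 < rv (st s) (qF i)) ∧
          ((-μ i ∈ P ∧ μ i ≠ 0) ↔ rv (st s) (qF i) < 0) := by
  classical
  let μ : ℕ ≃ H := (Equiv.ofBijective F ⟨F_inj ι hst hlate hι, F_surj ι hst hlate hι⟩).trans ν
  have hμ : ∀ i, μ i = ν (F i) := fun i => rfl
  have hcomb : ∀ (N : ℕ) (c : ℕ → ℤ),
      ∑ i ∈ range N, c i • qF i = 0 ↔ ∑ i ∈ range N, c i • μ i = 0 :=
    fun N c => comb_zero ι hst hlate hι N c
  obtain ⟨tri, htri, htri2⟩ := exists_tri
  obtain ⟨uni, huni, huni2⟩ := exists_uni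
  have htriq : ∀ a b k, ∑ i ∈ range (len (tri (a, b, k))), cf (tri (a, b, k)) i • qF i =
      qF a + qF b - qF k := by
    intro a b k
    obtain ⟨h1, h2⟩ := htri2 a b k
    rw [h1]
    have : ∑ i ∈ range (a + b + k + 1), cf (tri (a, b, k)) i • qF i =
        ∑ i ∈ range (a + b + k + 1), (ind a i • qF i + ind b i • qF i - ind k i • qF i) := by
      refine Finset.sum_congr rfl fun i hi => ?_
      rw [h2 i (Finset.mem_range.1 hi), sub_smul, add_smul]
    rw [this, Finset.sum_sub_distrib, Finset.sum_add_distrib, ind_sum (by omega),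
      ind_sum (by omega), ind_sum (by omega)]
  have huniq : ∀ a, ∑ i ∈ range (len (uni a)), cf (uni a) i • qF i = qF a := by
    intro a
    obtain ⟨h1, h2⟩ := huni2 a
    rw [h1, ← ind_sum (N := a + 1) (a := a) (by omega) qF]
    exact Finset.sum_congr rfl fun i hi => by rw [h2 i (Finset.mem_range.1 hi)]
  have hadd : ∀ a b k, qF a + qF b - qF k = 0 ↔ μ a + μ b = μ k := by
    intro a b k
    have h1 := hcomb (a + b + k + 1) (fun i => ind a i + ind b i - ind k i)
    have h2 : ∀ {A : Type} [AddCommGroup A] (q : ℕ → A),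
        ∑ i ∈ range (a + b + k + 1), (ind a i + ind b i - ind k i) • q i = q a + q b - q k := by
      intro A _ q
      have : ∑ i ∈ range (a + b + k + 1), (ind a i + ind b i - ind k i) • q i =
          ∑ i ∈ range (a + b + k + 1), (ind a i • q i + ind b i • q i - ind k i • q i) := by
        refine Finset.sum_congr rfl fun i hi => ?_
        rw [sub_smul, add_smul]
      rw [this, Finset.sum_sub_distrib, Finset.sum_add_distrib, ind_sum (by omega),
        ind_sum (by omega), ind_sum (by omega)]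
    rw [h2, h2] at h1
    rw [h1, sub_eq_zero]
  have hzero : ∀ a, qF a = 0 ↔ μ a = 0 := by
    intro a
    have h1 := hcomb (a + 1) (fun i => ind a i)
    rw [ind_sum (by omega), ind_sum (by omega)] at h1
    exact h1
  refine ⟨μ, hμ, ?_, ?_⟩
  · -- addition
    obtain ⟨G, hG, hG2⟩ := exists_find (α := ℕ × ℕ)
      (p := fun x k => DR st (tri (x.1, x.2, k)) = 0)
      (by
        have h1 : Computable (fun x : (ℕ × ℕ) × ℕ => DR st (tri (x.1.1, x.1.2, x.2))) :=
          (c_DR hcst).comp (htri.comp (by fun_prop))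
        exact cp_eq h1 (Computable.const 0))
      (by
        rintro ⟨a, b⟩
        refine ⟨μ.symm (μ a + μ b), ?_⟩
        obtain ⟨S, _, hS⟩ := DR_late hst hlate (tri (a, b, μ.symm (μ a + μ b)) + 1)
        rw [(hS S le_rfl _ (Nat.lt_succ_self _)).2, htriq, hadd, Equiv.apply_symm_apply])
    have h2 : Computable (fun x : ℕ × ℕ => μ.symm (μ x.1 + μ x.2)) := by
      refine hG.of_eq fun x => ?_
      have h3 := hG2 x
      obtain ⟨S, _, hS⟩ := DR_late hst hlate (tri (x.1, x.2, G x) + 1)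
      rw [(hS S le_rfl _ (Nat.lt_succ_self _)).2, htriq, hadd] at h3
      rw [h3, Equiv.symm_apply_apply]
    exact h2
  · -- order
    have hlt : ∀ a, ∃ S, ∀ s ≥ S, (0 < rv (st s) (qF a) ↔ 0 < DR st (uni a)) ∧
        (rv (st s) (qF a) < 0 ↔ DR st (uni a) < 0) ∧ (DR st (uni a) = 0 ↔ qF a = 0) := by
      intro a
      obtain ⟨S, _, hS⟩ := DR_late hst hlate (uni a + 1)
      refine ⟨S, fun s hs => ?_⟩
      have := hS s hs _ (Nat.lt_succ_self _)
      rw [huniq] at this
      exact ⟨this.1.1, this.1.2, this.2⟩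
    have hmem : ∀ i, μ i ∈ {x : H | 0 ≤ DR st (uni (μ.symm x))} ↔ 0 ≤ DR st (uni i) := by
      intro i
      rw [Set.mem_ofPred_eq, Equiv.symm_apply_apply]
    refine ⟨{x : H | 0 ≤ DR st (uni (μ.symm x))}, ⟨?_, ?_, ?_⟩, ?_, ?_⟩
    · intro x hx y hy
      obtain ⟨a, rfl⟩ := μ.surjective x
      obtain ⟨b, rfl⟩ := μ.surjective y
      obtain ⟨k, hk⟩ := μ.surjective (μ a + μ b)
      rw [hmem] at hx hy
      rw [← hk, hmem]
      have h1 := (hadd a b k).2 hk.symm
      obtain ⟨Sa, hSa⟩ := hlt a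
      obtain ⟨Sb, hSb⟩ := hlt b
      obtain ⟨Sk, hSk⟩ := hlt k
      have ha := (hSa (Sa + Sb + Sk) (by omega)).2.1
      have hb := (hSb (Sa + Sb + Sk) (by omega)).2.1
      have hk' := (hSk (Sa + Sb + Sk) (by omega)).2.1
      by_contra hc
      have h2 := hk'.2 (by omega)
      have h3 := ha.not.2 (by omega)
      have h4 := hb.not.2 (by omega)
      have h5 : qF k = qF a + qF b := (sub_eq_zero.1 h1).symm
      rw [h5, map_add] at h2
      push Not at h3 h4
      linarith
    · intro x hx hx'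
      obtain ⟨a, rfl⟩ := μ.surjective x
      obtain ⟨b, hb⟩ := μ.surjective (-μ a)
      rw [← hb, hmem] at hx'
      rw [hmem] at hx
      obtain ⟨o, ho⟩ := μ.surjective 0
      have h1 := (hadd a b o).2 (by rw [hb, ho]; simp)
      have h0 := (hzero o).2 ho
      rw [h0, sub_zero] at h1
      obtain ⟨Sa, hSa⟩ := hlt a
      obtain ⟨Sb, hSb⟩ := hlt b
      have ha := hSa (Sa + Sb) (by omega)
      have hb' := hSb (Sa + Sb) (by omega)
      have h5 : qF b = - qF a := (neg_eq_of_add_eq_zero_right h1).symm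
      rw [h5, map_neg] at hb'
      have h3 := ha.2.1.not.2 (by omega)
      have h4 := hb'.2.1.not.2 (by omega)
      rw [← hzero, ← ha.2.2]
      have h6 := ha.1.not.1 (by linarith)
      omega
    · intro x
      obtain ⟨a, rfl⟩ := μ.surjective x
      obtain ⟨b, hb⟩ := μ.surjective (-μ a)
      rw [← hb, hmem, hmem]
      obtain ⟨o, ho⟩ := μ.surjective 0
      have h1 := (hadd a b o).2 (by rw [hb, ho]; simp)
      have h0 := (hzero o).2 ho
      rw [h0, sub_zero] at h1
      obtain ⟨Sa, hSa⟩ := hlt a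
      obtain ⟨Sb, hSb⟩ := hlt b
      have ha := hSa (Sa + Sb) (by omega)
      have hb' := hSb (Sa + Sb) (by omega)
      have h5 : qF b = - qF a := (neg_eq_of_add_eq_zero_right h1).symm
      rw [h5, map_neg] at hb'
      by_contra hc
      push Not at hc
      have h3 := ha.2.1.2 hc.1
      have h4 := hb'.2.1.2 hc.2
      linarith
    · have h1 : Computable (fun i : ℕ => if 0 ≤ DR st (uni i) then 1 else 0) := by
        have h2 : Computable (fun i : ℕ => DR st (uni i)) := (c_DR hcst).comp huni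
        have h3 := c_ite (β := ℕ) (p := fun i : ℕ => ¬ DR st (uni i) < 0) (f := fun _ => 1)
          (g := fun _ => 0) (cp_not (cp_ilt h2 (Computable.const 0))) (Computable.const 1)
          (Computable.const 0)
        refine h3.of_eq fun i => ?_
        simp only [not_lt]
      refine h1.of_eq fun i => ?_
      by_cases h : 0 ≤ DR st (uni i)
      · rw [if_pos h, Set.indicator_of_mem]
        exact (hmem i).2 h
      · rw [if_neg h, Set.indicator_of_notMem]
        exact fun hc => h ((hmem i).1 hc)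
    · intro i
      obtain ⟨b, hb⟩ := μ.surjective (-μ i)
      obtain ⟨o, ho⟩ := μ.surjective 0
      have h1 := (hadd i b o).2 (by rw [hb, ho]; simp)
      have h0 := (hzero o).2 ho
      rw [h0, sub_zero] at h1
      obtain ⟨Sa, hSa⟩ := hlt i
      obtain ⟨Sb, hSb⟩ := hlt b
      refine ⟨Sa + Sb, fun s hs => ?_⟩
      have ha := hSa s (by omega)
      have hb' := hSb s (by omega)
      have h5 : qF b = - qF i := (neg_eq_of_add_eq_zero_right h1).symm
      rw [h5, map_neg] at hb'
      rw [← hb, hmem, hmem]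
      constructor
      · constructor
        · rintro ⟨h2, h3⟩
          have h4 := ha.2.2.not.2 (by rw [hzero]; exact h3)
          exact ha.1.2 (by omega)
        · intro h2
          have h3 := ha.1.1 h2
          refine ⟨by omega, fun h4 => ?_⟩
          rw [(hzero i).2 h4, map_zero] at h2
          exact lt_irrefl _ h2
      · constructor
        · rintro ⟨h2, h3⟩
          have h4 := hb'.2.2.not.2 (by rw [neg_eq_zero, hzero]; exact h3)
          have h6 := hb'.1.2 (by omega)
          linarith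
        · intro h2
          have h3 := hb'.1.1 (by linarith)
          refine ⟨by omega, fun h4 => ?_⟩
          rw [(hzero i).2 h4, map_zero] at h2
          exact lt_irrefl _ h2

end Pool.Agent.H670.OA
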