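import Mathlib

/-! Linear algebra over the rationals. -/

set_option autoImplicit false

namespace Pool.Agent.H670.OA

/-- small perturbations keep the signs of finitely many numbers -/
theorem small_eps {V : Type*} (G : Finset V) (f g : V → ℚ) :
    ∃ ε : ℚ, 0 < ε ∧ ∀ δ : ℚ, |δ| ≤ ε → ∀ v ∈ G,
      (0 < f v → 0 < f v + δ * g v) ∧ (f v < 0 → f v + δ * g v < 0) := by
  classical
  induction G using Finset.induction_on with
  | empty => exact ⟨1, one_pos, fun δ _ v hv => by simp at hv⟩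
  | insert v0 G _ ih =>
    obtain ⟨ε, hε, H⟩ := ih
    obtain ⟨ε0, hε0, H0⟩ : ∃ ε0 : ℚ, 0 < ε0 ∧ ∀ δ : ℚ, |δ| ≤ ε0 →
        (0 < f v0 → 0 < f v0 + δ * g v0) ∧ (f v0 < 0 → f v0 + δ * g v0 < 0) := by
      by_cases h0 : f v0 = 0
      · exact ⟨1, one_pos, fun δ _ => ⟨fun h => by rw [h0] at h; exact absurd h (lt_irrefl _),
          fun h => by rw [h0] at h; exact absurd h (lt_irrefl _)⟩⟩
      · have hf : 0 < |f v0| := abs_pos.2 h0
        have hg : 0 < |g v0| + 1 := by positivity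
        refine ⟨|f v0| / (2 * (|g v0| + 1)), by positivity, fun δ hδ => ?_⟩
        have h1 : |δ * g v0| ≤ |f v0| / 2 := by
          rw [abs_mul]
          calc |δ| * |g v0| ≤ |f v0| / (2 * (|g v0| + 1)) * (|g v0| + 1) := by
                gcongr
                linarith
            _ = |f v0| / 2 := by field_simp
        have h2 := abs_le.1 h1
        constructor
        · intro h; rw [abs_of_pos h] at h2; linarith [h2.1]
        · intro h; rw [abs_of_neg h] at h2; linarith [h2.2]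
    refine ⟨min ε ε0, lt_min hε hε0, fun δ hδ v hv => ?_⟩
    rcases Finset.mem_insert.1 hv with rfl | hv
    · exact H0 δ (hδ.trans (min_le_right _ _))
    · exact H δ (hδ.trans (min_le_left _ _)) v hv

variable {V : Type} [AddCommGroup V] [Module ℚ V]

theorem exists_dual_one {v : V} (hv : v ≠ 0) : ∃ l : V →ₗ[ℚ] ℚ, l v = 1 :=
  Module.Projective.exists_dual_eq_one ℚ hv

/-- perturbation of a functional -/
theorem perturb (G : Finset V) (ρ : V →ₗ[ℚ] ℚ) :
    ∃ ρ' : V →ₗ[ℚ] ℚ, ∀ v ∈ G, (v ≠ 0 → ρ' v ≠ 0) ∧ (0 < ρ v → 0 < ρ' v) ∧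
      (ρ v < 0 → ρ' v < 0) := by
  classical
  suffices H : ∀ F : Finset V, F ⊆ G → ∃ ρ' : V →ₗ[ℚ] ℚ, (∀ v ∈ F, v ≠ 0 → ρ' v ≠ 0) ∧
      ∀ v ∈ G, (0 < ρ v → 0 < ρ' v) ∧ (ρ v < 0 → ρ' v < 0) by
    obtain ⟨ρ', h1, h2⟩ := H G subset_rfl
    exact ⟨ρ', fun v hv => ⟨h1 v hv, h2 v hv⟩⟩
  intro F
  induction F using Finset.induction_on with
  | empty => exact fun _ => ⟨ρ, fun v hv => by simp at hv, fun v _ => ⟨id, id⟩⟩
  | insert v0 F _ ih =>
    intro hFG
    obtain ⟨ρ', h1, h2⟩ := ih (fun v hv => hFG (Finset.mem_insert_of_mem hv))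
    by_cases h0 : v0 = 0 ∨ ρ' v0 ≠ 0
    · refine ⟨ρ', fun v hv hv0 => ?_, h2⟩
      rcases Finset.mem_insert.1 hv with rfl | hv
      · rcases h0 with h0 | h0
        · exact absurd h0 hv0
        · exact h0
      · exact h1 v hv hv0
    · push Not at h0
      obtain ⟨l, hl⟩ := exists_dual_one h0.1
      obtain ⟨ε, hε, He⟩ := small_eps G (fun v => ρ' v) (fun v => l v)
      refine ⟨ρ' + ε • l, fun v hv hv0 => ?_, fun v hv => ?_⟩
      · rcases Finset.mem_insert.1 hv with rfl | hv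
        · simp only [LinearMap.add_apply, LinearMap.smul_apply, smul_eq_mul, h0.2, hl]
          simp [hε.ne']
        · have h3 := He ε (by rw [abs_of_pos hε]) v (hFG (Finset.mem_insert_of_mem hv))
          have h4 := h1 v hv hv0
          simp only [LinearMap.add_apply, LinearMap.smul_apply, smul_eq_mul]
          rcases lt_or_gt_of_ne h4 with h5 | h5
          · exact (h3.2 h5).ne
          · exact (h3.1 h5).ne'
      · have h3 := He ε (by rw [abs_of_pos hε]) v hv
        have h4 := h2 v hv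
        simp only [LinearMap.add_apply, LinearMap.smul_apply, smul_eq_mul]
        exact ⟨fun h => h3.1 (h4.1 h), fun h => h3.2 (h4.2 h)⟩


/-- a nonzero element of a lattice is a multiple of an element on which an integral functional
takes the value one -/
theorem lattice_lemma {U : Type} [AddCommGroup U] [Module ℚ U] (A : Submodule ℤ U)
    (hfin : A.FG) (x : U) (hx : x ∈ A) (hx0 : x ≠ 0) :
    ∃ (g : ℤ) (y : U) (l : U →ₗ[ℚ] ℚ), 0 < g ∧ y ∈ A ∧ x = g • y ∧ l y = 1 ∧
      ∀ a ∈ A, ∃ z : ℤ, l a = z := by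
  classical
  have : Module.Finite ℤ A := Module.Finite.iff_fg.2 hfin
  have : Module.IsTorsionFree ℤ U := .trans_faithfulSMul ℤ ℚ U
  have : Module.Free ℤ A := Module.free_of_finite_type_torsion_free'
  let b := Module.Free.chooseBasis ℤ A
  let c : Module.Free.ChooseBasisIndex ℤ A → ℤ := fun i => b.repr ⟨x, hx⟩ i
  let I : Ideal ℤ := Ideal.span (Set.range c)
  let g0 : ℤ := Submodule.IsPrincipal.generator I
  have hI : I = Ideal.span {g0} := (Ideal.span_singleton_generator I).symm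
  have hdiv : ∀ i, g0 ∣ c i := by
    intro i
    have : c i ∈ I := Ideal.subset_span ⟨i, rfl⟩
    rw [hI, Ideal.mem_span_singleton] at this
    exact this
  have hg0 : g0 ∈ I := Submodule.IsPrincipal.generator_mem I
  obtain ⟨u, hu⟩ := (Submodule.mem_span_range_iff_exists_fun ℤ).1 hg0
  choose d hd using hdiv
  let y0 : A := ∑ i, d i • b i
  have hy0 : g0 • y0 = ⟨x, hx⟩ := by
    have h1 := b.sum_repr ⟨x, hx⟩
    rw [← h1, Finset.smul_sum]
    refine Finset.sum_congr rfl fun i _ => ?_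
    rw [smul_smul, ← hd i]
  have hg00 : g0 ≠ 0 := by
    intro h
    rw [h, zero_smul] at hy0
    exact hx0 (congrArg Subtype.val hy0).symm
  let f0 : A →ₗ[ℤ] ℤ := ∑ i, u i • b.coord i
  have hf0 : f0 ⟨x, hx⟩ = g0 := by
    simp only [f0, LinearMap.sum_apply, LinearMap.smul_apply, Module.Basis.coord_apply]
    exact hu
  have hf1 : f0 y0 = 1 := by
    have h1 : g0 * f0 y0 = g0 * 1 := by
      rw [← smul_eq_mul, ← map_smul, hy0, hf0, mul_one]
    exact mul_left_cancel₀ hg00 h1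
  obtain ⟨F, hF⟩ := (Module.Baer.of_divisible ℚ).extension_property_addMonoidHom
    (A.subtype.toAddMonoidHom) (Subtype.val_injective)
    ((Int.castAddHom ℚ).comp f0.toAddMonoidHom)
  have hF' : ∀ a : A, F a = f0 a := fun a => DFunLike.congr_fun hF a
  let l : U →ₗ[ℚ] ℚ := F.toRatLinearMap
  have hl : ∀ a : A, l a = f0 a := fun a => hF' a
  have hxy : x = g0 • (y0 : U) := by
    have := congrArg Subtype.val hy0
    simpa using this.symm
  rcases lt_or_gt_of_ne hg00 with hneg | hpos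
  · refine ⟨-g0, -(y0 : U), -l, by omega, A.neg_mem y0.2, ?_, ?_, ?_⟩
    · simpa using hxy
    · rw [LinearMap.neg_apply, map_neg, neg_neg, hl, hf1]; simp
    · intro a ha
      refine ⟨- f0 ⟨a, ha⟩, ?_⟩
      rw [LinearMap.neg_apply, hl ⟨a, ha⟩]; simp
  · refine ⟨g0, y0, l, hpos, y0.2, hxy, ?_, ?_⟩
    · rw [hl, hf1]; simp
    · intro a ha
      exact ⟨f0 ⟨a, ha⟩, hl ⟨a, ha⟩⟩

theorem lat_lemma (W : Submodule ℚ V) (n x : ℕ) (q : ℕ → V) (hx : x < n) (hq : q x ∉ W) :
    ∃ (g : ℤ) (y : V) (l : V →ₗ[ℚ] ℚ), 0 < g ∧ y ∈ Submodule.span ℤ (q '' Set.Iio n) ∧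
      q x - g • y ∈ W ∧ l y = 1 ∧ (∀ w ∈ W, l w = 0) ∧ ∀ i < n, ∃ z : ℤ, l (q i) = z := by
  let π : V →ₗ[ℤ] (V ⧸ W) := (W.mkQ).restrictScalars ℤ
  let A0 : Submodule ℤ V := Submodule.span ℤ (q '' Set.Iio n)
  let A : Submodule ℤ (V ⧸ W) := A0.map π
  have hfg : A0.FG := Submodule.fg_span ((Set.finite_Iio n).image q)
  obtain ⟨g, y, l, hg, hy, hxy, hly, hla⟩ := lattice_lemma A (hfg.map π) (π (q x))
    (Submodule.mem_map_of_mem (Submodule.subset_span ⟨x, hx, rfl⟩))
    (by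
      intro h
      exact hq ((Submodule.Quotient.mk_eq_zero W).1 h))
  obtain ⟨y1, hy1, rfl⟩ := (Submodule.mem_map).1 hy
  refine ⟨g, y1, l.comp W.mkQ, hg, hy1, ?_, hly, ?_, ?_⟩
  · rw [← Submodule.Quotient.mk_eq_zero W]
    have : π (q x - g • y1) = 0 := by rw [map_sub, map_smul, ← hxy, sub_self]
    exact this
  · intro w hw
    rw [LinearMap.comp_apply]
    have : W.mkQ w = 0 := (Submodule.Quotient.mk_eq_zero W).2 hw
    rw [this, map_zero]
  · intro i hi
    exact hla _ (Submodule.mem_map_of_mem (Submodule.subset_span ⟨i, hi, rfl⟩))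

end Pool.Agent.H670.OA
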