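import Pool.Agent.H670.OA.Step
import Pool.Agent.H670.OA.Lin1

/-! From vectors to states. -/

set_option autoImplicit false

namespace Pool.Agent.H670.OA

open Finset (range)

/-- coordinate vectors -/
abbrev VV : Type := ℕ →₀ ℚ

section enc

theorem getD_map_range {β : Type} (n : ℕ) (f : ℕ → β) (d : β) (i : ℕ) :
    ((List.range n).map f).getD i d = if i < n then f i else d := by
  by_cases h : i < n
  · rw [if_pos h, List.getD_eq_getElem _ _ (by simpa using h)]
    simp
  · rw [if_neg h, List.getD_eq_default _ _ (by simpa using h)]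

theorem encode_state (n L K M : ℕ) (U : ℕ → ℕ → ℤ) (ρ : ℕ → ℤ) (y : ℕ → ℕ) :
    ∃ σ : St, sn σ = n ∧ sL σ = L ∧ sK σ = K ∧ sM σ = M ∧
      (∀ i < n, ∀ h < L, sU σ i h = U i h) ∧ (∀ i h, L ≤ h → sU σ i h = 0) ∧
      (∀ h < L, sρ σ h = ρ h) ∧ ∀ i < n, sy σ i = y i := by
  refine ⟨(n, L, K, M, (List.range n).map (fun i => (List.range L).map (U i)),
    (List.range L).map ρ, (List.range n).map y), rfl, rfl, rfl, rfl, ?_, ?_, ?_, ?_⟩
  · intro i hi h hh
    show (if h < L then (((List.range n).map (fun i => (List.range L).map (U i))).getD i []).getD h 0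
      else 0) = _
    rw [if_pos hh, getD_map_range, if_pos hi, getD_map_range, if_pos hh]
  · intro i h hh
    show (if h < L then (((List.range n).map (fun i => (List.range L).map (U i))).getD i []).getD h 0
      else 0) = _
    rw [if_neg (by omega)]
  · intro h hh
    show ((List.range L).map ρ).getD h 0 = _
    rw [getD_map_range, if_pos hh]
  · intro i hi
    show ((List.range n).map y).getD i 0 = _
    rw [getD_map_range, if_pos hi]

theorem common_den (S : Finset ℚ) : ∃ M : ℕ, 0 < M ∧ ∀ x ∈ S, ∃ z : ℤ, (M : ℚ) * x = z := by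
  classical
  induction S using Finset.induction_on with
  | empty => exact ⟨1, one_pos, fun x hx => by simp at hx⟩
  | insert a S _ ih =>
    obtain ⟨M, hM, H⟩ := ih
    refine ⟨M * a.den, Nat.mul_pos hM a.den_pos, fun x hx => ?_⟩
    rcases Finset.mem_insert.1 hx with rfl | hx
    · refine ⟨M * x.num, ?_⟩
      push_cast
      rw [mul_assoc, mul_comm (x.den : ℚ) x, Rat.mul_den_eq_num]
    · obtain ⟨z, hz⟩ := H x hx
      refine ⟨z * a.den, ?_⟩
      push_cast
      rw [← hz]; ring

theorem common_den' (n L : ℕ) (f : ℕ → ℕ → ℚ) : ∃ M : ℕ, 0 < M ∧ ∃ z : ℕ → ℕ → ℤ,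
    ∀ i < n, ∀ h < L, (M : ℚ) * f i h = z i h := by
  classical
  obtain ⟨M, hM, H⟩ := common_den ((range n ×ˢ range L).image fun p => f p.1 p.2)
  have H' : ∀ i h, ∃ z : ℤ, i < n → h < L → (M : ℚ) * f i h = z := by
    intro i h
    by_cases hi : i < n
    · by_cases hh : h < L
      · obtain ⟨z, hz⟩ := H (f i h) (Finset.mem_image.2 ⟨(i, h), by simp [hi, hh], rfl⟩)
        exact ⟨z, fun _ _ => hz⟩
      · exact ⟨0, fun _ h => absurd h hh⟩
    · exact ⟨0, fun h => absurd h hi⟩
  choose z hz using H'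
  exact ⟨M, hM, z, fun i hi h hh => hz i h hi hh⟩

end enc

variable {H : Type} [AddCommGroup H] (ν : ℕ ≃ H) {E : Type} [AddCommGroup E] [Module ℚ E]
  (ι : H →+ E)

/-- realisation of the coordinates -/
noncomputable def Pr : VV →ₗ[ℚ] E := Finsupp.linearCombination ℚ (fun h => ι (ν h))

theorem Pr_single (h : ℕ) (a : ℚ) : Pr ν ι (Finsupp.single h a) = a • ι (ν h) := by
  simp [Pr]

theorem sum_single_of_supp (L : ℕ) (v : VV) (hv : ∀ h, v h ≠ 0 → h < L) :
    v = ∑ h ∈ range L, v h • Finsupp.single h (1 : ℚ) := by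
  classical
  ext h
  rw [Finsupp.finsetSum_apply]
  simp only [Finsupp.smul_apply, Finsupp.single_apply, smul_eq_mul, mul_ite, mul_one, mul_zero]
  rw [Finset.sum_ite_eq' (range L) h (fun h => v h)]
  split_ifs with hh
  · rfl
  · by_contra hne
    exact hh (Finset.mem_range.2 (hv h hne))

/-- vectors of a state -/
noncomputable def qv (σ : St) (i : ℕ) : VV :=
  ∑ h ∈ range (sL σ), Finsupp.single h ((sU σ i h : ℚ) / sM σ)

theorem sU_ge {σ : St} {i h : ℕ} (hh : sL σ ≤ h) : sU σ i h = 0 := by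
  unfold sU; rw [if_neg (by omega)]

theorem qv_apply (σ : St) (i h : ℕ) : qv σ i h = (sU σ i h : ℚ) / sM σ := by
  classical
  unfold qv
  rw [Finsupp.finsetSum_apply]
  simp only [Finsupp.single_apply]
  rw [Finset.sum_ite_eq' (range (sL σ)) h (fun h => (sU σ i h : ℚ) / sM σ)]
  split_ifs with hh
  · rfl
  · rw [sU_ge (by simpa using hh)]; simp

/-- functional of a state -/
noncomputable def rv (σ : St) : VV →ₗ[ℚ] ℚ := Finsupp.linearCombination ℚ (fun h => (sρ σ h : ℚ))

theorem rv_qv {σ : St} (hM : 0 < sM σ) (i : ℕ) : (sM σ : ℚ) * rv σ (qv σ i) = sr σ i := by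
  have hM' : (sM σ : ℚ) ≠ 0 := by positivity
  unfold qv rv sr
  rw [map_sum, Finset.mul_sum]
  push_cast
  refine Finset.sum_congr rfl fun h _ => ?_
  rw [Finsupp.linearCombination_single, smul_eq_mul]
  field_simp

/-- integer combinations of the vectors of a state -/
noncomputable def dv (σ : St) (κ : ℕ) : VV := ∑ i ∈ range (sn σ), cf κ i • qv σ i

theorem rv_dv {σ : St} (hM : 0 < sM σ) (κ : ℕ) : (sM σ : ℚ) * rv σ (dv σ κ) = dr σ κ := by
  unfold dv dr
  rw [map_sum, Finset.mul_sum]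
  push_cast
  refine Finset.sum_congr rfl fun i _ => ?_
  rw [map_zsmul, ← rv_qv hM, zsmul_eq_mul]
  ring

theorem dv_apply {σ : St} (hM : 0 < sM σ) (κ h : ℕ) : (sM σ : ℚ) * dv σ κ h = dU σ κ h := by
  have hM' : (sM σ : ℚ) ≠ 0 := by positivity
  unfold dv dU
  rw [Finsupp.finsetSum_apply, Finset.mul_sum]
  push_cast
  refine Finset.sum_congr rfl fun i _ => ?_
  show (sM σ : ℚ) * (cf κ i • qv σ i h) = _
  rw [qv_apply, zsmul_eq_mul]
  field_simp

/-- every element is represented by a vector supported on candidates -/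
theorem lemmaW (t h : ℕ) : ∃ w : VV, Pr ν ι w = ι (ν h) ∧
    ∀ h', w h' ≠ 0 → h' ≤ h ∧ Bs ν t h' := by
  classical
  induction h using Nat.strong_induction_on with
  | _ h ih =>
    by_cases hB : Bs ν t h
    · refine ⟨Finsupp.single h 1, by rw [Pr_single, one_smul], fun h' hh' => ?_⟩
      have : h' = h := by
        by_contra hne
        exact hh' (Finsupp.single_eq_of_ne hne)
      subst this
      exact ⟨le_refl _, hB⟩
    · unfold Bs at hB
      push Not at hB
      obtain ⟨κ, _, _, hc, hz⟩ := hB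
      have ih' : ∀ i, ∃ w : VV, i < h → (Pr ν ι w = ι (ν i) ∧
          ∀ h', w h' ≠ 0 → h' ≤ i ∧ Bs ν t h') := by
        intro i
        by_cases hi : i < h
        · obtain ⟨w, hw⟩ := ih i hi
          exact ⟨w, fun _ => hw⟩
        · exact ⟨0, fun h => absurd h hi⟩
      choose w hw using ih'
      refine ⟨∑ i ∈ range h, (-(cf κ i : ℚ) / cf κ h) • w i, ?_, ?_⟩
      · have hc' : (cf κ h : ℚ) ≠ 0 := by exact_mod_cast hc
        have h1 : ∑ i ∈ range (h + 1), (cf κ i : ℚ) • ι (ν i) = 0 := by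
          have := congrArg ι hz
          rw [map_sum, map_zero] at this
          rw [← this]
          refine Finset.sum_congr rfl fun i _ => ?_
          rw [map_zsmul, Int.cast_smul_eq_zsmul]
        rw [Finset.sum_range_succ] at h1
        rw [map_sum]
        have h2 : ∑ i ∈ range h, Pr ν ι ((-(cf κ i : ℚ) / cf κ h) • w i) =
            (-(1 : ℚ) / cf κ h) • ∑ i ∈ range h, (cf κ i : ℚ) • ι (ν i) := by
          rw [Finset.smul_sum]
          refine Finset.sum_congr rfl fun i hi => ?_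
          rw [map_smul, (hw i (Finset.mem_range.1 hi)).1, smul_smul]
          congr 1
          ring
        rw [h2, eq_neg_of_add_eq_zero_left h1, smul_neg, smul_smul, ← neg_smul]
        have h3 : -(-(1 : ℚ) / cf κ h * cf κ h) = 1 := by field_simp
        rw [h3, one_smul]
      · intro h' hh'
        rw [Finsupp.finsetSum_apply] at hh'
        obtain ⟨i, hi, hne⟩ := Finset.exists_ne_zero_of_sum_ne_zero hh'
        rw [Finsupp.smul_apply] at hne
        have h4 : w i h' ≠ 0 := fun h => hne (by rw [h, smul_zero])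
        have h5 := (hw i (Finset.mem_range.1 hi)).2 h' h4
        exact ⟨h5.1.trans (Finset.mem_range.1 hi).le, h5.2⟩

theorem cnt_le (t h : ℕ) : cnt ν t h ≤ h := by
  classical
  unfold cnt
  calc _ ≤ ∑ j ∈ range h, 1 := Finset.sum_le_sum fun j _ => by split_ifs <;> omega
    _ = h := by simp

theorem cnt_mono (t : ℕ) {h h' : ℕ} (hh : h ≤ h') : cnt ν t h ≤ cnt ν t h' := by
  classical
  unfold cnt
  exact Finset.sum_le_sum_of_subset (by simpa using hh)

/-- adding the missing elements -/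
theorem append_lemma (t n : ℕ) (Q : ℕ → VV)
    (A1 : ∀ i < n, ∃ h : ℕ, Pr ν ι (Q i) = ι (ν h))
    (A2 : ∀ i < n, ∀ h, Q i h ≠ 0 → Bs ν t h ∧ cnt ν t h ≤ i)
    (A3 : ∀ i < n, ∀ j < n, i ≠ j → Q i ≠ Q j) (m : ℕ) (hm : m ≤ n + 1) :
    ∃ n' ≥ n, ∃ Q' : ℕ → VV, (∀ i < n, Q' i = Q i) ∧
      (∀ i < n', ∃ h : ℕ, Pr ν ι (Q' i) = ι (ν h)) ∧
      (∀ i < n', ∀ h, Q' i h ≠ 0 → Bs ν t h ∧ cnt ν t h ≤ i) ∧
      (∀ i < n', ∀ j < n', i ≠ j → Q' i ≠ Q' j) ∧
      ∀ h < m, ∃ k < n', Pr ν ι (Q' k) = ι (ν h) ∧ ∀ h', Q' k h' ≠ 0 → h' ≤ h := by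
  classical
  induction m with
  | zero => exact ⟨n, le_refl _, Q, fun _ _ => rfl, A1, A2, A3, fun h hh => absurd hh (by omega)⟩
  | succ m ih =>
    obtain ⟨n', hn', Q', h0, h1, h2, h3, h4⟩ := ih (by omega)
    obtain ⟨w, hw1, hw2⟩ := lemmaW ν ι t m
    by_cases hex : ∃ k < n', Q' k = w
    · obtain ⟨k, hk, hkw⟩ := hex
      refine ⟨n', hn', Q', h0, h1, h2, h3, fun h hh => ?_⟩
      rcases Nat.lt_succ_iff_lt_or_eq.1 hh with hh | rfl
      · exact h4 h hh
      · exact ⟨k, hk, by rw [hkw]; exact hw1, fun h' hh' => (hw2 h' (by rw [← hkw]; exact hh')).1⟩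
    · push Not at hex
      have hne : ∀ i < n', Function.update Q' n' w i = Q' i := fun i hi =>
        Function.update_of_ne (by omega) _ _
      have heq : Function.update Q' n' w n' = w := Function.update_self _ _ _
      refine ⟨n' + 1, by omega, Function.update Q' n' w, ?_, ?_, ?_, ?_, ?_⟩
      · intro i hi
        rw [hne i (by omega), h0 i hi]
      · intro i hi
        rcases Nat.lt_succ_iff_lt_or_eq.1 hi with hi | rfl
        · rw [hne i hi]; exact h1 i hi
        · rw [heq]; exact ⟨m, hw1⟩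
      · intro i hi h hh
        rcases Nat.lt_succ_iff_lt_or_eq.1 hi with hi | rfl
        · rw [hne i hi] at hh; exact h2 i hi h hh
        · rw [heq] at hh
          have := hw2 h hh
          refine ⟨this.2, ?_⟩
          have := cnt_le ν t h
          omega
      · intro i hi j hj hij
        rcases Nat.lt_succ_iff_lt_or_eq.1 hi with hi | rfl
        · rcases Nat.lt_succ_iff_lt_or_eq.1 hj with hj | rfl
          · rw [hne i hi, hne j hj]; exact h3 i hi j hj hij
          · rw [hne i hi, heq]; exact hex i hi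
        · rcases Nat.lt_succ_iff_lt_or_eq.1 hj with hj | rfl
          · rw [hne j hj, heq]; exact (hex j hj).symm
          · exact absurd rfl hij
      · intro h hh
        rcases Nat.lt_succ_iff_lt_or_eq.1 hh with hh | rfl
        · obtain ⟨k, hk, h5⟩ := h4 h hh
          exact ⟨k, by omega, by rw [hne k hk]; exact h5⟩
        · exact ⟨n', by omega, by rw [heq]; exact ⟨hw1, fun h' hh' => (hw2 h' hh').1⟩⟩

end Pool.Agent.H670.OA
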