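import Pool.Agent.H670.OA.Lin2

/-! The end of each step. -/

set_option autoImplicit false

namespace Pool.Agent.H670.OA

open Finset (range)

variable {H : Type} [AddCommGroup H] (ν : ℕ ≃ H) {E : Type} [AddCommGroup E] [Module ℚ E]
  (ι : H →+ E)

theorem finish (hι : Function.Injective ι) (s : ℕ) (σ : St) (hM0 : 0 < sM σ) (Q : ℕ → VV)
    (A1 : ∀ i < sn σ, ∃ h : ℕ, Pr ν ι (Q i) = ι (ν h))
    (A2 : ∀ i < sn σ, ∀ h, Q i h ≠ 0 → Bs ν ((s + 2) / 2) h ∧ cnt ν ((s + 2) / 2) h ≤ i)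
    (A3 : ∀ i < sn σ, ∀ j < sn σ, i ≠ j → Q i ≠ Q j)
    (ρ1 : VV →ₗ[ℚ] ℚ)
    (A4 : ∀ κ < sK σ, len κ ≤ sn σ →
      ((dr σ κ = 0 → ∑ i ∈ range (sn σ), cf κ i • Q i = 0) ∧
      (0 < dr σ κ → 0 < ρ1 (∑ i ∈ range (sn σ), cf κ i • Q i)) ∧
      (dr σ κ < 0 → ρ1 (∑ i ∈ range (sn σ), cf κ i • Q i) < 0)))
    (A5 : ∀ i < sn σ, keep ν s σ i → Q i = qv σ i)
    (A6 : s % 2 = 1 → ∀ p < s / 2, act (s / 2) σ = some p → ∃ c : ℕ → ℤ,
      (∑ i ∈ range (sn σ), c i • Q i = 0) ∧
      (∀ i < sn σ, (0 < c i → eps (s / 2) p.unpair.1 i = some 1) ∧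
        (c i < 0 → eps (s / 2) p.unpair.1 i = some 0)) ∧ ∃ i < sn σ, c i ≠ 0 ∧ Q i ≠ 0) :
    ∃ σ', Step ν s σ σ' := by
  classical
  -- append
  obtain ⟨n', hn', Q', B0, B1, B2, B3, B4⟩ := append_lemma ν ι ((s + 2) / 2) (sn σ) Q A1 A2 A3
    (sn σ + 1) le_rfl
  -- codes of the elements
  have B1' : ∀ i, ∃ h : ℕ, i < n' → Pr ν ι (Q' i) = ι (ν h) := by
    intro i
    by_cases hi : i < n'
    · obtain ⟨h, hh⟩ := B1 i hi; exact ⟨h, fun _ => hh⟩
    · exact ⟨0, fun h => absurd h hi⟩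
  choose Y hY using B1'
  -- bound for the supports
  obtain ⟨L, hL⟩ : ∃ L : ℕ, ∀ i < n', ∀ h, Q' i h ≠ 0 → h < L := by
    refine ⟨((range n').biUnion fun i => (Q' i).support).sup id + 1, fun i hi h hh => ?_⟩
    have h1 : h ∈ (range n').biUnion fun i => (Q' i).support :=
      Finset.mem_biUnion.2 ⟨i, Finset.mem_range.2 hi, Finsupp.mem_support_iff.2 hh⟩
    have := Finset.le_sup (f := id) h1
    simp only [id] at this
    omega
  -- the bound on published vectors
  obtain ⟨K, hK1, hK2⟩ : ∃ K : ℕ, sK σ < K ∧ (s % 2 = 1 → ∀ p < s / 2, act (s / 2) σ = some p →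
      ∃ κ < K, len κ ≤ sn σ ∧ (∑ i ∈ range (sn σ), cf κ i • Q i = 0) ∧
      (∀ i < sn σ, (0 < cf κ i → eps (s / 2) p.unpair.1 i = some 1) ∧
        (cf κ i < 0 → eps (s / 2) p.unpair.1 i = some 0)) ∧
        ∃ i < sn σ, cf κ i ≠ 0 ∧ Q i ≠ 0) := by
    by_cases hs : s % 2 = 1 ∧ ∃ p < s / 2, act (s / 2) σ = some p
    · obtain ⟨hs1, p, hp, hact⟩ := hs
      obtain ⟨c, hc1, hc2, hc3⟩ := A6 hs1 p hp hact
      have hcf : ∀ i < sn σ, cf (Encodable.encode ((List.range (sn σ)).map c)) i = c i := by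
        intro i hi
        rw [cf_encode, getD_map_range, if_pos hi]
      refine ⟨max (sK σ) (Encodable.encode ((List.range (sn σ)).map c)) + 1,
        by have := le_max_left (sK σ) (Encodable.encode ((List.range (sn σ)).map c)); omega,
        fun _ p' _ hact' => ?_⟩
      rw [hact] at hact'
      obtain rfl := Option.some.inj hact'
      refine ⟨Encodable.encode ((List.range (sn σ)).map c),
        by have := le_max_right (sK σ) (Encodable.encode ((List.range (sn σ)).map c)); omega,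
        by rw [len_encode]; simp, ?_, ?_, ?_⟩
      · rw [← hc1]
        exact Finset.sum_congr rfl fun i hi => by rw [hcf i (Finset.mem_range.1 hi)]
      · intro i hi
        rw [hcf i hi]
        exact hc2 i hi
      · obtain ⟨i, hi, h1⟩ := hc3
        exact ⟨i, hi, by rw [hcf i hi]; exact h1⟩
    · exact ⟨sK σ + 1, by omega, fun h1 p hp hact => absurd ⟨h1, p, hp, hact⟩ hs⟩
  -- the functional
  obtain ⟨ρ2, hρ2⟩ := perturb ((range n').image Q' ∪
    ((range n' ×ˢ range n').image fun p => Q' p.1 - Q' p.2) ∪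
    (range K).image (fun κ => ∑ i ∈ range n', cf κ i • Q' i)) ρ1
  have F1 : ∀ i < n', Q' i ≠ 0 → ρ2 (Q' i) ≠ 0 := fun i hi =>
    (hρ2 _ (Finset.mem_union_left _ (Finset.mem_union_left _ (Finset.mem_image_of_mem _
      (Finset.mem_range.2 hi))))).1
  have F2 : ∀ i < n', ∀ j < n', i ≠ j → ρ2 (Q' i) ≠ ρ2 (Q' j) := fun i hi j hj hij h => by
    have h1 := (hρ2 (Q' i - Q' j) (Finset.mem_union_left _ (Finset.mem_union_right _
      (Finset.mem_image.2 ⟨(i, j), by simp [hi, hj], rfl⟩)))).1 (sub_ne_zero.2 (B3 i hi j hj hij))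
    rw [map_sub, h, sub_self] at h1
    exact h1 rfl
  have F3 := fun κ (hκ : κ < K) => hρ2 (∑ i ∈ range n', cf κ i • Q' i)
    (Finset.mem_union_right _ (Finset.mem_image.2 ⟨κ, Finset.mem_range.2 hκ, rfl⟩))
  -- denominators
  obtain ⟨M, hM, U, hU⟩ := common_den' n' L fun i h => Q' i h
  obtain ⟨D, hD, R, hR⟩ := common_den' 1 L fun _ h => ρ2 (Finsupp.single h 1)
  obtain ⟨σ', e1, e2, e3, e4, e5, e6, e7, e8⟩ := encode_state n' L K M U (R 0) Y
  have hMQ : (M : ℚ) ≠ 0 := by positivity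
  have hDQ : (D : ℚ) ≠ 0 := by positivity
  have hUQ : ∀ i < n', ∀ h, (sU σ' i h : ℚ) = M * Q' i h := by
    intro i hi h
    by_cases hh : h < L
    · rw [e5 i hi h hh, ← hU i hi h hh]
    · rw [e6 i h (by omega)]
      have : Q' i h = 0 := by
        by_contra hne; exact hh (hL i hi h hne)
      rw [this]; simp
  have hsr : ∀ i < n', (sr σ' i : ℚ) = M * D * ρ2 (Q' i) := by
    intro i hi
    unfold sr
    rw [e2]
    push_cast
    rw [sum_single_of_supp L (Q' i) (hL i hi), map_sum, Finset.mul_sum]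
    refine Finset.sum_congr rfl fun h hh => ?_
    have hh' := Finset.mem_range.1 hh
    rw [map_smul, smul_eq_mul, hUQ i hi h, e7 h hh', ← hR 0 one_pos h hh']
    ring
  have hdr : ∀ κ, (dr σ' κ : ℚ) = M * D * ρ2 (∑ i ∈ range n', cf κ i • Q' i) := by
    intro κ
    unfold dr
    rw [e1, map_sum, Finset.mul_sum]
    push_cast
    refine Finset.sum_congr rfl fun i hi => ?_
    rw [hsr i (Finset.mem_range.1 hi), map_zsmul, zsmul_eq_mul]
    ring
  have hdU : ∀ κ h, (dU σ' κ h : ℚ) = M * (∑ i ∈ range n', cf κ i • Q' i) h := by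
    intro κ h
    unfold dU
    rw [e1, Finsupp.finsetSum_apply, Finset.mul_sum]
    push_cast
    refine Finset.sum_congr rfl fun i hi => ?_
    rw [hUQ i (Finset.mem_range.1 hi)]
    show _ = (M : ℚ) * (cf κ i • Q' i h)
    rw [zsmul_eq_mul]; ring
  have hsumQ : ∀ κ, len κ ≤ sn σ →
      ∑ i ∈ range n', cf κ i • Q' i = ∑ i ∈ range (sn σ), cf κ i • Q i := by
    intro κ hκ
    rw [← Finset.sum_subset (Finset.range_subset_range.2 hn')]
    · exact Finset.sum_congr rfl fun i hi => by rw [B0 i (Finset.mem_range.1 hi)]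
    · intro i _ hi2
      have : sn σ ≤ i := by simpa using hi2
      rw [cf_eq_zero (by omega), zero_smul]
  have hMD : (0 : ℚ) < M * D := by positivity
  refine ⟨σ', ⟨?_, ?_, ?_, ?_, ?_⟩, ?_, ?_, ?_, ?_, ?_, ?_⟩
  · rw [e4]; exact hM
  · -- representation
    intro i hi
    rw [e1] at hi
    apply hι
    rw [e4, e2, map_zsmul, map_sum, e8 i hi, ← hY i hi, ← Int.cast_smul_eq_zsmul ℚ]
    rw [sum_single_of_supp L (Q' i) (hL i hi), map_sum, Finset.smul_sum]
    refine Finset.sum_congr rfl fun h hh => ?_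
    rw [map_smul, Pr_single, one_smul, smul_smul, map_zsmul, ← Int.cast_smul_eq_zsmul ℚ,
      hUQ i hi h]
    push_cast
    rfl
  · -- supports
    intro i hi h _ hne
    rw [e1] at hi
    refine B2 i hi h fun h0 => hne ?_
    have := hUQ i hi h
    rw [h0, mul_zero] at this
    exact_mod_cast this
  · -- injectivity
    intro i hi j hj h
    rw [e1] at hi
    have h1 := hsr i hi
    have h2 := hsr j (by omega)
    rw [h, h2] at h1
    exact F2 i hi j (by omega) (by omega) (mul_left_cancel₀ hMD.ne' h1).symm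
  · -- independence
    intro κ hκ _ h0 h _
    rw [e3] at hκ
    have h1 := hdr κ
    rw [h0] at h1
    have h2 : ρ2 (∑ i ∈ range n', cf κ i • Q' i) = 0 := by
      have h3 : (M * D : ℚ) * ρ2 (∑ i ∈ range n', cf κ i • Q' i) = 0 := by
        rw [← h1]; norm_num
      exact (mul_eq_zero.1 h3).resolve_left hMD.ne'
    have h3 : ∑ i ∈ range n', cf κ i • Q' i = 0 := by
      by_contra hne; exact (F3 κ hκ).1 hne h2
    have h4 := hdU κ h
    rw [h3] at h4
    simp only [Finsupp.coe_zero, Pi.zero_apply, mul_zero] at h4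
    exact_mod_cast h4
  · rw [e1]; exact hn'
  · rw [e3]; exact hK1
  · -- published signs
    intro κ hκ hlen
    have h1 := A4 κ hκ hlen
    have h2 := hdr κ
    have h3 := F3 κ (by omega)
    rw [hsumQ κ hlen] at h2 h3
    have hpos : 0 < dr σ κ → 0 < dr σ' κ := by
      intro h
      have h4 := h3.2.1 (h1.2.1 h)
      have h5 : (0 : ℚ) < dr σ' κ := by rw [h2]; positivity
      exact_mod_cast h5
    have hneg : dr σ κ < 0 → dr σ' κ < 0 := by
      intro h
      have h4 := h3.2.2 (h1.2.2 h)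
      have h5 : (dr σ' κ : ℚ) < 0 := by rw [h2]; exact mul_neg_of_pos_of_neg hMD h4
      exact_mod_cast h5
    have hzero : dr σ κ = 0 → dr σ' κ = 0 := by
      intro h
      rw [h1.1 h, map_zero, mul_zero] at h2
      exact_mod_cast h2
    rcases lt_trichotomy (dr σ κ) 0 with h | h | h
    · have := hneg h; constructor <;> constructor <;> intro h' <;> omega
    · have := hzero h; constructor <;> constructor <;> intro h' <;> omega
    · have := hpos h; constructor <;> constructor <;> intro h' <;> omega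
  · -- coverage
    intro h hh
    obtain ⟨k, hk, h1, h2⟩ := B4 h hh
    refine ⟨k, by rw [e1]; exact hk, ?_, ?_⟩
    · rw [e8 k hk]
      rw [hY k hk] at h1
      exact ν.injective (hι h1)
    · intro h' _ hne
      have : Q' k h' ≠ 0 := by
        intro h0
        have := hUQ k hk h'
        rw [h0, mul_zero] at this
        exact hne (by exact_mod_cast this)
      exact Nat.lt_succ_of_le (h2 h' this)
  · -- keep
    intro i hi hkeep h _
    have h1 := A5 i hi hkeep
    have h2 := hUQ i (by omega) h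
    rw [B0 i hi, h1, qv_apply] at h2
    rw [e4]
    have hMσ : (sM σ : ℚ) ≠ 0 := by positivity
    have h3 : ((M : ℤ) * sU σ i h : ℚ) = (sM σ : ℤ) * sU σ' i h := by
      rw [h2]; push_cast; field_simp
    exact_mod_cast h3
  · -- requirement
    intro hs p hp hact
    obtain ⟨κ, hκ, hlen, h1, h2, i, hi, h3, h4⟩ := hK2 hs p hp hact
    refine ⟨κ, by rw [e3]; exact hκ, by rw [e1]; omega, ?_, ?_, ?_⟩
    · have h5 := hdr κ
      rw [hsumQ κ hlen, h1, map_zero, mul_zero] at h5
      exact_mod_cast h5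
    · intro j _
      by_cases hj : j < sn σ
      · exact h2 j hj
      · rw [cf_eq_zero (by omega)]
        exact ⟨fun h => absurd h (lt_irrefl _), fun h => absurd h (lt_irrefl _)⟩
    · refine ⟨i, by rw [e1]; omega, h3, ?_⟩
      intro h0
      have h5 := hsr i (by omega)
      rw [h0] at h5
      have h6 : (M * D : ℚ) * ρ2 (Q' i) = 0 := by rw [← h5]; norm_num
      exact F1 i (by omega) (by rw [B0 i hi]; exact h4) ((mul_eq_zero.1 h6).resolve_left hMD.ne')

end Pool.Agent.H670.OA
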