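import Pool.Agent.H670.OA.Lin3

/-! Moves given by linear maps; even stages. -/

set_option autoImplicit false

namespace Pool.Agent.H670.OA

open Finset (range)

variable {H : Type} [AddCommGroup H] (ν : ℕ ≃ H) {E : Type} [AddCommGroup E] [Module ℚ E]
  (ι : H →+ E)

section facts

variable {ν} {t : ℕ} {σ : St} (hσ : Good ν t σ)

include hσ

theorem Good.posM : 0 < sM σ := hσ.1

theorem Good.Pr_qv {i : ℕ} (hi : i < sn σ) : Pr ν ι (qv σ i) = ι (ν (sy σ i)) := by
  have hM : (sM σ : ℚ) ≠ 0 := by have := hσ.1; positivity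
  have h1 := congrArg ι (hσ.2.1 i hi)
  rw [map_zsmul, map_sum, ← Int.cast_smul_eq_zsmul ℚ] at h1
  unfold qv
  rw [map_sum]
  have h2 : ι (ν (sy σ i)) = ((sM σ : ℚ)⁻¹) • ∑ x ∈ range (sL σ), ι (sU σ i x • ν x) := by
    rw [← h1, smul_smul]
    push_cast
    rw [inv_mul_cancel₀ hM, one_smul]
  rw [h2, Finset.smul_sum]
  refine Finset.sum_congr rfl fun h _ => ?_
  rw [Pr_single, map_zsmul, ← Int.cast_smul_eq_zsmul ℚ, smul_smul]
  congr 1
  ring

theorem Good.supp {i : ℕ} (hi : i < sn σ) {h : ℕ} (hh : qv σ i h ≠ 0) :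
    Bs ν t h ∧ cnt ν t h ≤ i := by
  rw [qv_apply] at hh
  have h1 : sU σ i h ≠ 0 := by
    intro h0; rw [h0] at hh; simp at hh
  have h2 : h < sL σ := by
    by_contra hc
    exact h1 (sU_ge (by omega))
  exact hσ.2.2.1 i hi h h2 h1

theorem Good.inj {i j : ℕ} (hi : i < sn σ) (hj : j < sn σ) (hij : i ≠ j) :
    rv σ (qv σ i) ≠ rv σ (qv σ j) := by
  intro h
  have h1 := rv_qv hσ.1 i
  have h2 := rv_qv hσ.1 j
  rw [h, h2] at h1
  have h3 : sr σ i = sr σ j := by exact_mod_cast h1.symm
  rcases lt_or_gt_of_ne hij with h4 | h4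
  · exact hσ.2.2.2.1 j hj i h4 h3.symm
  · exact hσ.2.2.2.1 i hi j h4 h3

theorem Good.dv_eq_zero {κ : ℕ} (hκ : κ < sK σ) (hl : len κ ≤ sn σ) (h0 : dr σ κ = 0) :
    dv σ κ = 0 := by
  have hM : (sM σ : ℚ) ≠ 0 := by have := hσ.1; positivity
  ext h
  have h1 := dv_apply hσ.1 κ h
  have h2 : dU σ κ h = 0 := by
    by_cases hh : h < sL σ
    · exact hσ.2.2.2.2 κ hκ hl h0 h hh
    · unfold dU
      refine Finset.sum_eq_zero fun i _ => ?_
      rw [sU_ge (by omega), mul_zero]
  rw [h2] at h1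
  simp only [Int.cast_zero] at h1
  exact (mul_eq_zero.1 h1).resolve_left hM

end facts

/-- the finite set of vectors whose signs are protected -/
noncomputable def F0 (σ : St) : Finset VV := by
  classical
  exact (range (sK σ)).image (dv σ) ∪
    ((range (sn σ) ×ˢ range (sn σ)).image fun p => qv σ p.1 - qv σ p.2)

theorem dv_mem_F0 {σ : St} {κ : ℕ} (hκ : κ < sK σ) : dv σ κ ∈ F0 σ := by
  classical
  exact Finset.mem_union_left _ (Finset.mem_image_of_mem _ (Finset.mem_range.2 hκ))

theorem sub_mem_F0 {σ : St} {i j : ℕ} (hi : i < sn σ) (hj : j < sn σ) :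
    qv σ i - qv σ j ∈ F0 σ := by
  classical
  exact Finset.mem_union_right _ (Finset.mem_image.2 ⟨(i, j), by simp [hi, hj], rfl⟩)

theorem finish2 (hι : Function.Injective ι) (s : ℕ) (σ : St) (hσ : Good ν ((s + 1) / 2) σ)
    (θ : VV →ₗ[ℚ] VV)
    (T1 : ∀ i < sn σ, ∃ h : H, Pr ν ι (θ (qv σ i)) = ι h)
    (T2 : ∀ i < sn σ, ∀ h, θ (qv σ i) h ≠ 0 →
      Bs ν ((s + 2) / 2) h ∧ cnt ν ((s + 2) / 2) h ≤ i)
    (ρ1 : VV →ₗ[ℚ] ℚ)
    (T3 : ∀ v ∈ F0 σ, (0 < rv σ v → 0 < ρ1 (θ v)) ∧ (rv σ v < 0 → ρ1 (θ v) < 0))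
    (T4 : ∀ i < sn σ, keep ν s σ i → θ (qv σ i) = qv σ i)
    (T5 : s % 2 = 1 → ∀ p < s / 2, act (s / 2) σ = some p → ∃ c : ℕ → ℤ,
      (∑ i ∈ range (sn σ), c i • θ (qv σ i) = 0) ∧
      (∀ i < sn σ, (0 < c i → eps (s / 2) p.unpair.1 i = some 1) ∧
        (c i < 0 → eps (s / 2) p.unpair.1 i = some 0)) ∧
        ∃ i < sn σ, c i ≠ 0 ∧ θ (qv σ i) ≠ 0) :
    ∃ σ', Step ν s σ σ' := by
  have hM : (0 : ℚ) < sM σ := by have := hσ.1; positivity
  have hdv : ∀ κ, ∑ i ∈ range (sn σ), cf κ i • θ (qv σ i) = θ (dv σ κ) := by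
    intro κ
    unfold dv
    rw [map_sum]
    exact Finset.sum_congr rfl fun i _ => by rw [map_zsmul]
  refine finish ν ι hι s σ hσ.1 (fun i => θ (qv σ i)) ?_ T2 ?_ ρ1 ?_ T4 T5
  · intro i hi
    obtain ⟨h, hh⟩ := T1 i hi
    exact ⟨ν.symm h, by rw [hh, Equiv.apply_symm_apply]⟩
  · intro i hi j hj hij h
    have h1 := hσ.inj hi hj hij
    have h2 := T3 _ (sub_mem_F0 hi hj)
    have h3 : θ (qv σ i - qv σ j) = 0 := by rw [map_sub]; exact sub_eq_zero.2 h
    rw [h3, map_zero, map_sub] at h2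
    rcases lt_or_gt_of_ne h1 with h4 | h4
    · exact lt_irrefl _ (h2.2 (by linarith))
    · exact lt_irrefl _ (h2.1 (by linarith))
  · intro κ hκ hl
    simp only [hdv]
    have h1 := rv_dv hσ.1 κ
    have h2 := T3 _ (dv_mem_F0 hκ)
    refine ⟨fun h0 => by rw [hσ.dv_eq_zero hκ hl h0, map_zero], fun h => h2.1 ?_, fun h => h2.2 ?_⟩
    · by_contra hc
      push Not at hc
      have h3 : (0 : ℚ) < dr σ κ := by exact_mod_cast h
      have h4 : (sM σ : ℚ) * rv σ (dv σ κ) ≤ 0 := mul_nonpos_of_nonneg_of_nonpos hM.le hc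
      linarith
    · by_contra hc
      push Not at hc
      have h3 : (dr σ κ : ℚ) < 0 := by exact_mod_cast h
      have h4 : 0 ≤ (sM σ : ℚ) * rv σ (dv σ κ) := mul_nonneg hM.le hc
      linarith

/-! ### candidates -/

theorem Bs_mono {t t' h : ℕ} (ht : t ≤ t') (hB : Bs ν t' h) : Bs ν t h :=
  fun κ hκ => hB κ (by omega)

theorem exists_gt_Bs (t b : ℕ) : ∃ h, b < h ∧ Bs ν t h := by
  refine ⟨b + 1 + ∑ κ ∈ range t, len κ, by omega, fun κ hκ hW => ?_⟩
  have h1 := hW.1
  have h2 : len κ ≤ ∑ κ ∈ range t, len κ :=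
    Finset.single_le_sum (f := len) (fun _ _ => Nat.zero_le _) (Finset.mem_range.2 hκ)
  omega

theorem exists_next (t b : ℕ) : ∃ h, b < h ∧ Bs ν t h ∧ ∀ h', b < h' → h' < h → ¬ Bs ν t h' := by
  classical
  refine ⟨Nat.find (exists_gt_Bs ν t b), (Nat.find_spec (exists_gt_Bs ν t b)).1,
    (Nat.find_spec (exists_gt_Bs ν t b)).2, fun h' h1 h2 h3 => ?_⟩
  exact Nat.find_min (exists_gt_Bs ν t b) h2 ⟨h1, h3⟩

open Classical in
theorem cnt_next {t b h : ℕ} (h1 : b < h) (h2 : ∀ h', b < h' → h' < h → ¬ Bs ν t h') :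
    cnt ν t h = cnt ν t b + if Bs ν t b then 1 else 0 := by
  have h3 : cnt ν t (b + 1) = cnt ν t b + if Bs ν t b then 1 else 0 := by
    unfold cnt
    rw [Finset.sum_range_succ]
  rw [← h3]
  unfold cnt
  rw [← Finset.sum_subset (Finset.range_subset_range.2 (show b + 1 ≤ h by omega))]
  intro x hx hx2
  rw [if_neg]
  exact h2 x (by simpa using hx2) (by simpa using hx)

theorem Bs_succ_iff {t j : ℕ} (h1 : Bs ν t j) (h2 : ¬ Bs ν (t + 1) j) (h : ℕ) :
    Bs ν (t + 1) h ↔ Bs ν t h ∧ h ≠ j := by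
  have hW : Wit ν t j := by
    unfold Bs at h2
    push Not at h2
    obtain ⟨κ, hκ, hW⟩ := h2
    have : κ = t := by
      by_contra hne
      exact h1 κ (by omega) hW
    rwa [this] at hW
  constructor
  · intro h3
    refine ⟨Bs_mono ν (by omega) h3, ?_⟩
    rintro rfl
    exact h2 h3
  · rintro ⟨h3, h4⟩ κ hκ hW2
    rcases Nat.lt_succ_iff_lt_or_eq.1 hκ with h5 | rfl
    · exact h3 κ h5 hW2
    · have := hW.1
      have := hW2.1
      omega

open Classical in
theorem cnt_succ {t j : ℕ} (h1 : Bs ν t j) (h2 : ¬ Bs ν (t + 1) j) (h : ℕ) :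
    cnt ν t h = cnt ν (t + 1) h + if j < h then 1 else 0 := by
  have h3 : (if j < h then 1 else 0) = ∑ i ∈ range h, if j = i then 1 else 0 := by
    rw [Finset.sum_ite_eq (range h) j (fun _ => 1)]
    simp
  rw [h3]
  unfold cnt
  rw [← Finset.sum_add_distrib]
  refine Finset.sum_congr rfl fun i _ => ?_
  have h4 := Bs_succ_iff ν h1 h2 i
  by_cases h5 : j = i
  · subst h5
    simp [h1, h2]
  · by_cases h6 : Bs ν t i
    · have : Bs ν (t + 1) i := h4.2 ⟨h6, fun h => h5 h.symm⟩
      simp [h6, this, h5]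
    · have : ¬ Bs ν (t + 1) i := fun h => h6 (h4.1 h).1
      simp [h6, this, h5]

theorem lc_ne {g : ℕ → VV} {v : VV} {h' : ℕ} (h : Finsupp.linearCombination ℚ g v h' ≠ 0) :
    ∃ h, v h ≠ 0 ∧ g h h' ≠ 0 := by
  rw [Finsupp.linearCombination_apply, Finsupp.sum, Finsupp.finsetSum_apply] at h
  obtain ⟨i, hi, hne⟩ := Finset.exists_ne_zero_of_sum_ne_zero h
  refine ⟨i, Finsupp.mem_support_iff.1 hi, fun h0 => hne ?_⟩
  rw [Finsupp.smul_apply, h0, smul_zero]

theorem lc_id {g : ℕ → VV} {v : VV} (h : ∀ i, v i ≠ 0 → g i = Finsupp.single i 1) :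
    Finsupp.linearCombination ℚ g v = v := by
  rw [Finsupp.linearCombination_apply]
  have : v.sum (fun i a => a • g i) = v.sum (fun i a => Finsupp.single i a) := by
    refine Finset.sum_congr rfl fun i hi => ?_
    show v i • g i = Finsupp.single i (v i)
    rw [h i (Finsupp.mem_support_iff.1 hi)]
    simp
  rw [this, Finsupp.sum_single]

/-- even stages -/
theorem step_even (hι : Function.Injective ι) (s : ℕ) (hs : s % 2 = 0) (σ : St)
    (hσ : Good ν ((s + 1) / 2) σ) : ∃ σ', Step ν s σ σ' := by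
  classical
  obtain ⟨t, rfl⟩ : ∃ t, s = 2 * t := ⟨s / 2, by omega⟩
  have e1 : (2 * t + 1) / 2 = t := by omega
  have e2 : (2 * t + 2) / 2 = t + 1 := by omega
  have e3 : 2 * t / 2 = t := by omega
  rw [e1] at hσ
  have hσ' : Good ν ((2 * t + 1) / 2) σ := by rw [e1]; exact hσ
  have hM : (sM σ : ℚ) ≠ 0 := by have := hσ.1; positivity
  by_cases hl : Bs ν t (len t - 1) ∧ ¬ Bs ν (t + 1) (len t - 1)
  · -- a candidate leaves
    obtain ⟨hj1, hj2⟩ := hl
    obtain ⟨j, hj⟩ : ∃ j, j = len t - 1 := ⟨_, rfl⟩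
    rw [← hj] at hj1 hj2
    obtain ⟨w, hw1, hw2⟩ := lemmaW ν ι (t + 1) j
    have hw3 : ∀ h', w h' ≠ 0 → h' < j ∧ Bs ν (t + 1) h' := by
      intro h' hh'
      have := hw2 h' hh'
      refine ⟨lt_of_le_of_ne this.1 ?_, this.2⟩
      rintro rfl
      exact hj2 this.2
    choose nx hx1 hx2 hx3 using exists_next ν t
    let g : ℕ → VV := fun h => (if h = j then w else Finsupp.single h 1) +
      (if Bs ν t h ∧ j ≤ h then (sM σ : ℚ) • Finsupp.single (nx h) (1 : ℚ) else 0)
    let θ : VV →ₗ[ℚ] VV := Finsupp.linearCombination ℚ g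
    have hg1 : ∀ h, h < j → g h = Finsupp.single h 1 := by
      intro h hh
      simp only [g]
      rw [if_neg (by omega), if_neg (by omega), add_zero]
    have hg2 : ∀ h h', g h h' ≠ 0 → (h = j ∧ w h' ≠ 0) ∨ (h ≠ j ∧ h' = h) ∨
        (Bs ν t h ∧ j ≤ h ∧ h' = nx h) := by
      intro h h' hne
      by_cases hc : (if h = j then w else Finsupp.single h 1) h' = 0
      · right; right
        have h1 : (if Bs ν t h ∧ j ≤ h then (sM σ : ℚ) • Finsupp.single (nx h) (1 : ℚ)
            else 0) h' ≠ 0 := by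
          intro h0
          apply hne
          show ((if h = j then w else Finsupp.single h 1) + _) h' = 0
          rw [Finsupp.add_apply, hc, h0, add_zero]
        split_ifs at h1 with h2
        · refine ⟨h2.1, h2.2, ?_⟩
          by_contra h3
          apply h1
          rw [Finsupp.smul_apply, Finsupp.single_eq_of_ne h3, smul_zero]
        · simp at h1
      · split_ifs at hc with h1
        · exact Or.inl ⟨h1, hc⟩
        · refine Or.inr (Or.inl ⟨h1, ?_⟩)
          by_contra h3
          exact hc (Finsupp.single_eq_of_ne h3)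
    have hPg : ∀ h, Pr ν ι (g h) = ι (ν h) +
        (if Bs ν t h ∧ j ≤ h then (sM σ : ℚ) • ι (ν (nx h)) else 0) := by
      intro h
      simp only [g]
      rw [map_add]
      congr 1
      · split_ifs with h1
        · rw [hw1, h1]
        · rw [Pr_single, one_smul]
      · split_ifs with h1
        · rw [map_smul, Pr_single, one_smul]
        · rw [map_zero]
    -- injectivity on the span of the candidates
    have hinj : ∀ v : VV, (∀ h, v h ≠ 0 → Bs ν t h) → θ v = 0 → v = 0 := by
      intro v hv h0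
      by_contra hne
      have hsup : v.support.Nonempty := Finsupp.support_nonempty_iff.2 hne
      obtain ⟨b, hb⟩ : ∃ b, b = v.support.max' hsup := ⟨_, rfl⟩
      have hb1 : v b ≠ 0 := by
        rw [hb]; exact Finsupp.mem_support_iff.1 (Finset.max'_mem _ _)
      have hb2 : ∀ h, v h ≠ 0 → h ≤ b := by
        intro h hh
        rw [hb]; exact Finset.le_max' _ _ (Finsupp.mem_support_iff.2 hh)
      by_cases hbj : b < j
      · have : θ v = v := lc_id fun i hi => hg1 i (by have := hb2 i hi; omega)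
        rw [this] at h0
        exact hne h0
      · have h1 : θ v (nx b) = v b * sM σ := by
          show Finsupp.linearCombination ℚ g v (nx b) = _
          rw [Finsupp.linearCombination_apply, Finsupp.sum, Finsupp.finsetSum_apply]
          rw [Finset.sum_eq_single b]
          · rw [Finsupp.smul_apply, smul_eq_mul]
            congr 1
            have h6 : (if Bs ν t b ∧ j ≤ b then (sM σ : ℚ) • Finsupp.single (nx b) (1 : ℚ)
                else 0) = (sM σ : ℚ) • Finsupp.single (nx b) (1 : ℚ) :=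
              if_pos ⟨hv b hb1, by omega⟩
            show ((if b = j then w else Finsupp.single b 1) + _) (nx b) = _
            rw [h6, Finsupp.add_apply, Finsupp.smul_apply,
              Finsupp.single_eq_same, smul_eq_mul, mul_one]
            have h2 : (if b = j then w else Finsupp.single b 1) (nx b) = 0 := by
              have := hx1 b
              split_ifs with h3
              · by_contra h4
                have := (hw3 _ h4).1
                omega
              · exact Finsupp.single_eq_of_ne (by omega)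
            rw [h2, zero_add]
          · intro h hh hhb
            have h2 := hb2 h (Finsupp.mem_support_iff.1 hh)
            rw [Finsupp.smul_apply]
            have h3 : g h (nx b) = 0 := by
              by_contra h4
              have := hx1 b
              rcases hg2 _ _ h4 with ⟨_, h5⟩ | ⟨_, h5⟩ | ⟨_, _, h5⟩
              · have := (hw3 _ h5).1
                omega
              · omega
              · exact hx3 h b (by omega) (by omega) (hv b hb1)
            rw [h3, smul_zero]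
          · intro h2
            exact absurd (Finsupp.mem_support_iff.2 hb1) h2
        rw [h0] at h1
        simp only [Finsupp.coe_zero, Pi.zero_apply] at h1
        exact mul_ne_zero hb1 hM h1.symm
    -- the functional
    let VB : Submodule ℚ VV := Finsupp.supported ℚ ℚ {h | Bs ν t h}
    have hVB : ∀ v : VV, v ∈ VB ↔ ∀ h, v h ≠ 0 → Bs ν t h := by
      intro v
      rw [Finsupp.mem_supported]
      constructor
      · intro h1 h hh; exact h1 (Finsupp.mem_support_iff.2 hh)
      · intro h1 h hh; exact h1 h (Finsupp.mem_support_iff.1 hh)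
    obtain ⟨θ', hθ'⟩ := LinearMap.exists_leftInverse_of_injective (θ.domRestrict VB) (by
      rw [LinearMap.ker_eq_bot']
      intro v hv
      exact Subtype.ext (hinj v ((hVB v).1 v.2) hv))
    have hρ1 : ∀ v : VV, (∀ h, v h ≠ 0 → Bs ν t h) →
        ((rv σ).comp (VB.subtype.comp θ')) (θ v) = rv σ v := by
      intro v hv
      have := LinearMap.congr_fun hθ' ⟨v, (hVB v).2 hv⟩
      show rv σ (θ' (θ v) : VV) = rv σ v
      have h2 : θ' (θ v) = ⟨v, (hVB v).2 hv⟩ := this
      rw [h2]
    have hB0 : ∀ v ∈ F0 σ, ∀ h, v h ≠ 0 → Bs ν t h := by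
      intro v hv h hh
      unfold F0 at hv
      rcases Finset.mem_union.1 hv with hv | hv
      · obtain ⟨κ, _, rfl⟩ := Finset.mem_image.1 hv
        unfold dv at hh
        rw [Finsupp.finsetSum_apply] at hh
        obtain ⟨i, hi, hne⟩ := Finset.exists_ne_zero_of_sum_ne_zero hh
        refine (hσ.supp (Finset.mem_range.1 hi) (h := h) fun h0 => hne ?_).1
        show cf κ i • (qv σ i h) = 0
        rw [h0, smul_zero]
      · obtain ⟨p, hp, rfl⟩ := Finset.mem_image.1 hv
        rw [Finset.mem_product, Finset.mem_range, Finset.mem_range] at hp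
        by_cases h1 : qv σ p.1 h = 0
        · refine (hσ.supp hp.2 (h := h) fun h2 => hh ?_).1
          rw [Finsupp.sub_apply, h1, h2, sub_zero]
        · exact (hσ.supp hp.1 h1).1
    refine finish2 ν ι hι (2 * t) σ hσ' θ ?_ ?_ ((rv σ).comp (VB.subtype.comp θ')) ?_ ?_ ?_
    · -- values
      intro i hi
      refine ⟨ν (sy σ i) + ∑ h ∈ range (sL σ),
        (if Bs ν t h ∧ j ≤ h then sU σ i h • ν (nx h) else 0), ?_⟩
      rw [map_add, ← hσ.Pr_qv ι hi, map_sum]
      show Pr ν ι (Finsupp.linearCombination ℚ g (qv σ i)) = _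
      unfold qv
      rw [map_sum, map_sum, map_sum, ← Finset.sum_add_distrib]
      refine Finset.sum_congr rfl fun h _ => ?_
      rw [Finsupp.linearCombination_single, map_smul, hPg, smul_add, Pr_single]
      congr 1
      split_ifs with h1
      · rw [map_zsmul, smul_smul, ← Int.cast_smul_eq_zsmul ℚ]
        congr 1
        field_simp
      · rw [smul_zero, map_zero]
    · -- supports
      intro i hi h' hne
      rw [e2]
      obtain ⟨h, hh1, hh2⟩ := lc_ne hne
      obtain ⟨h1, h2⟩ := hσ.supp hi hh1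
      have hcj := cnt_succ ν hj1 hj2
      rcases hg2 _ _ hh2 with ⟨h3, h4⟩ | ⟨h3, h4⟩ | ⟨h3, h4, h5⟩
      · subst h3
        have h5 := hw3 _ h4
        refine ⟨h5.2, ?_⟩
        have h6 := cnt_mono ν (t + 1) h5.1.le
        have h7 := hcj h
        omega
      · subst h4
        refine ⟨(Bs_succ_iff ν hj1 hj2 _).2 ⟨h1, h3⟩, ?_⟩
        have h7 := hcj h'
        omega
      · subst h5
        have h8 := hx1 h
        refine ⟨(Bs_succ_iff ν hj1 hj2 _).2 ⟨hx2 h, by omega⟩, ?_⟩
        have h7 := hcj (nx h)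
        have h9 := cnt_next ν (hx1 h) (hx3 h)
        rw [if_pos h1] at h9
        rw [if_pos (by omega)] at h7
        omega
    · intro v hv
      rw [hρ1 v (hB0 v hv)]
      exact ⟨id, id⟩
    · -- keep
      intro i hi hk
      refine lc_id fun h hh => hg1 h ?_
      rw [qv_apply] at hh
      have h1 : sU σ i h ≠ 0 := by
        intro h0; rw [h0] at hh; simp at hh
      have h2 : h < sL σ := by
        by_contra hc
        exact h1 (sU_ge (by omega))
      have h3 := hk.1 (by omega)
      rw [e3, ← hj] at h3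
      exact h3 hj1 hj2 h h2 h1
    · intro h; omega
  · -- nothing leaves
    have hBt : ∀ h, Bs ν t h → Bs ν (t + 1) h := by
      intro h hB
      by_contra hc
      have hc' := hc
      unfold Bs at hc'
      push Not at hc'
      obtain ⟨κ, hκ, hW⟩ := hc'
      have : κ = t := by
        by_contra hne
        exact hB κ (by omega) hW
      subst this
      have h1 := hW.1
      apply hl
      have : len κ - 1 = h := by omega
      rw [this]
      exact ⟨hB, hc⟩
    have hcnt : ∀ h, cnt ν (t + 1) h ≤ cnt ν t h := by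
      intro h
      unfold cnt
      refine Finset.sum_le_sum fun i _ => ?_
      by_cases h1 : Bs ν (t + 1) i
      · rw [if_pos h1, if_pos (Bs_mono ν (by omega) h1)]
      · rw [if_neg h1]; exact Nat.zero_le _
    refine finish2 ν ι hι (2 * t) σ hσ' LinearMap.id ?_ ?_ (rv σ) ?_ ?_ ?_
    · intro i hi
      exact ⟨_, hσ.Pr_qv ι hi⟩
    · intro i hi h hh
      rw [e2]
      have h1 := hσ.supp hi hh
      exact ⟨hBt h h1.1, (hcnt h).trans h1.2⟩
    · intro v _
      exact ⟨id, id⟩
    · intro i _ _; rfl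
    · intro h; omega

end Pool.Agent.H670.OA
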