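import Pool.Agent.H670.OA.Lin4

/-! Odd stages. -/

set_option autoImplicit false

namespace Pool.Agent.H670.OA

open Finset (range)

/-- admissible coefficient vectors -/
def Cn (t e n : ℕ) (c : ℕ → ℤ) : Prop :=
  ∀ i < n, (0 < c i → eps t e i = some 1) ∧ (c i < 0 → eps t e i = some 0)

theorem Cn.add {t e n : ℕ} {c c' : ℕ → ℤ} (h : Cn t e n c) (h' : Cn t e n c') :
    Cn t e n (c + c') := by
  intro i hi
  have h1 := h i hi
  have h2 := h' i hi
  have e1 : (c + c') i = c i + c' i := rfl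
  rw [e1]
  constructor
  · intro h3
    by_cases h4 : 0 < c i
    · exact h1.1 h4
    · exact h2.1 (by omega)
  · intro h3
    by_cases h4 : c i < 0
    · exact h1.2 h4
    · exact h2.2 (by omega)

theorem Cn.zero {t e n : ℕ} : Cn t e n 0 := fun i _ =>
  ⟨fun h => absurd h (lt_irrefl _), fun h => absurd h (lt_irrefl _)⟩

theorem Cn.single_pos {t e n k : ℕ} {a : ℤ} (ha : 0 ≤ a) (hk : eps t e k = some 1) :
    Cn t e n (Pi.single k a) := by
  intro i _
  by_cases h : i = k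
  · subst h
    rw [Pi.single_eq_same]
    exact ⟨fun _ => hk, fun h => by omega⟩
  · rw [Pi.single_eq_of_ne h]
    exact ⟨fun h => absurd h (lt_irrefl _), fun h => absurd h (lt_irrefl _)⟩

theorem Cn.single_neg {t e n k : ℕ} {a : ℤ} (ha : a ≤ 0) (hk : eps t e k = some 0) :
    Cn t e n (Pi.single k a) := by
  intro i _
  by_cases h : i = k
  · subst h
    rw [Pi.single_eq_same]
    exact ⟨fun h => by omega, fun _ => hk⟩
  · rw [Pi.single_eq_of_ne h]
    exact ⟨fun h => absurd h (lt_irrefl _), fun h => absurd h (lt_irrefl _)⟩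

theorem Cn.sum {t e n : ℕ} (S : Finset ℕ) (c : ℕ → ℕ → ℤ) (h : ∀ i ∈ S, Cn t e n (c i)) :
    Cn t e n (∑ i ∈ S, c i) := by
  classical
  induction S using Finset.induction_on with
  | empty => exact Cn.zero
  | insert a S ha ih =>
    rw [Finset.sum_insert ha]
    exact (h a (Finset.mem_insert_self _ _)).add
      (ih fun i hi => h i (Finset.mem_insert_of_mem hi))

theorem val_single {n k : ℕ} (hk : k < n) (a : ℤ) (Q : ℕ → VV) :
    ∑ i ∈ range n, (Pi.single k a : ℕ → ℤ) i • Q i = a • Q k := by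
  rw [Finset.sum_eq_single k]
  · rw [Pi.single_eq_same]
  · intro i _ hi
    rw [Pi.single_eq_of_ne hi, zero_smul]
  · intro h
    exact absurd (Finset.mem_range.2 hk) h

theorem val_add {n : ℕ} (c c' : ℕ → ℤ) (Q : ℕ → VV) :
    ∑ i ∈ range n, (c + c') i • Q i = ∑ i ∈ range n, c i • Q i + ∑ i ∈ range n, c' i • Q i := by
  rw [← Finset.sum_add_distrib]
  exact Finset.sum_congr rfl fun i _ => by rw [Pi.add_apply, add_smul]

theorem val_sum {n : ℕ} (S : Finset ℕ) (c : ℕ → ℕ → ℤ) (Q : ℕ → VV) :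
    ∑ i ∈ range n, (∑ j ∈ S, c j) i • Q i = ∑ j ∈ S, ∑ i ∈ range n, c j i • Q i := by
  rw [Finset.sum_comm]
  refine Finset.sum_congr rfl fun i _ => ?_
  rw [Finset.sum_apply, Finset.sum_smul]

theorem int_comb {x : ℕ} (q : ℕ → VV) {v : VV}
    (hv : v ∈ Submodule.span ℚ (q '' Set.Iio x)) :
    ∃ m : ℤ, 0 < m ∧ ∃ u : ℕ → ℤ, m • v = ∑ i ∈ range x, u i • q i := by
  induction hv using Submodule.span_induction with
  | mem v hv =>
    obtain ⟨k, hk, rfl⟩ := hv
    exact ⟨1, one_pos, Pi.single k 1, by rw [val_single hk]⟩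
  | zero => exact ⟨1, one_pos, 0, by simp⟩
  | add v w _ _ h1 h2 =>
    obtain ⟨m, hm, u, h1⟩ := h1
    obtain ⟨m', hm', u', h2⟩ := h2
    refine ⟨m * m', by positivity, fun i => m' * u i + m * u' i, ?_⟩
    have h3 : ∑ i ∈ range x, (m' * u i + m * u' i) • q i =
        m' • ∑ i ∈ range x, u i • q i + m • ∑ i ∈ range x, u' i • q i := by
      rw [Finset.smul_sum, Finset.smul_sum, ← Finset.sum_add_distrib]
      exact Finset.sum_congr rfl fun i _ => by rw [add_smul, mul_smul, mul_smul]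
    rw [h3, ← h1, ← h2, smul_add, smul_smul, smul_smul, mul_comm m m']
  | smul a v _ h1 =>
    obtain ⟨m, hm, u, h1⟩ := h1
    refine ⟨m * a.den, by have := a.den_pos; positivity, fun i => a.num * u i, ?_⟩
    have h3 : ∑ i ∈ range x, (a.num * u i) • q i = a.num • ∑ i ∈ range x, u i • q i := by
      rw [Finset.smul_sum]
      exact Finset.sum_congr rfl fun i _ => by rw [mul_smul]
    rw [h3, ← h1, ← Int.cast_smul_eq_zsmul ℚ, ← Int.cast_smul_eq_zsmul ℚ,
      ← Int.cast_smul_eq_zsmul ℚ, smul_smul, smul_smul]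
    congr 1
    push_cast
    rw [mul_assoc, mul_comm (a.den : ℚ) a, Rat.mul_den_eq_num]
    ring

variable {H : Type} [AddCommGroup H] (ν : ℕ ≃ H) {E : Type} [AddCommGroup E] [Module ℚ E]
  (ι : H →+ E)

/-- vectors which represent elements of the group -/
noncomputable def AH : Submodule ℤ VV :=
  (LinearMap.range ι.toIntLinearMap).comap ((Pr ν ι).restrictScalars ℤ)

theorem mem_AH {v : VV} : v ∈ AH ν ι ↔ ∃ h : H, Pr ν ι v = ι h := by
  unfold AH
  rw [Submodule.mem_comap, LinearMap.mem_range]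
  constructor
  · rintro ⟨h, hh⟩; exact ⟨h, hh.symm⟩
  · rintro ⟨h, hh⟩; exact ⟨h, hh.symm⟩

theorem step_odd (hι : Function.Injective ι) (s : ℕ) (hs : s % 2 = 1) (σ : St)
    (hσ : Good ν ((s + 1) / 2) σ) : ∃ σ', Step ν s σ σ' := by
  classical
  obtain ⟨t, rfl⟩ : ∃ t, s = 2 * t + 1 := ⟨s / 2, by omega⟩
  have e1 : (2 * t + 1 + 1) / 2 = t + 1 := by omega
  have e2 : (2 * t + 1 + 2) / 2 = t + 1 := by omega
  have e3 : (2 * t + 1) / 2 = t := by omega
  have hσ1 : Good ν (t + 1) σ := by rw [← e1]; exact hσ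
  have hM : (0 : ℚ) < sM σ := by have := hσ.1; positivity
  have hM' : (sM σ : ℚ) ≠ 0 := hM.ne'
  -- the identity move
  have hid : (∀ p < t, act t σ = some p → ∃ c : ℕ → ℤ,
      (∑ i ∈ range (sn σ), c i • (qv σ i) = 0) ∧
      (∀ i < sn σ, (0 < c i → eps t p.unpair.1 i = some 1) ∧
        (c i < 0 → eps t p.unpair.1 i = some 0)) ∧
        ∃ i < sn σ, c i ≠ 0 ∧ (qv σ i) ≠ 0) → ∃ σ', Step ν (2 * t + 1) σ σ' := by
    intro hc
    refine finish2 ν ι hι (2 * t + 1) σ hσ LinearMap.id ?_ ?_ (rv σ) ?_ ?_ ?_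
    · intro i hi
      exact ⟨_, hσ1.Pr_qv ι hi⟩
    · intro i hi h hh
      rw [e2]
      exact hσ1.supp hi hh
    · intro v _
      exact ⟨id, id⟩
    · intro i _ _; rfl
    · intro _
      rw [e3]
      exact hc
  by_cases hact : ∃ p < t, act t σ = some p
  swap
  · exact hid fun p hp h => absurd ⟨p, hp, h⟩ hact
  obtain ⟨p, hp, hact⟩ := hact
  have hatt := (lfind_some hact).2.1
  obtain ⟨e, he⟩ : ∃ e, e = p.unpair.1 := ⟨_, rfl⟩
  obtain ⟨x, hx⟩ : ∃ x, x = p.unpair.2 := ⟨_, rfl⟩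
  rw [← he, ← hx] at hatt
  obtain ⟨_, _, hxn, _, ⟨a, ha, har, hae⟩, ⟨a', ha', har', hae'⟩, hxe, ⟨h0, hh0, hh1, hh2⟩,
    τ, hτ, ⟨i0, hi0, hτi⟩, hτr, hτe, hτk⟩ := hatt
  -- translate
  have hqeq : ∀ {k : ℕ} {v : VV}, (∀ h, v h * sM σ = (sU σ k h : ℚ)) → qv σ k = v := by
    intro k v hv
    ext h
    rw [qv_apply, ← hv h, mul_div_assoc, div_self hM', mul_one]
  have hqU : ∀ k h, qv σ k h * sM σ = (sU σ k h : ℚ) := by
    intro k h
    rw [qv_apply, div_mul_cancel₀ _ hM']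
  have hqτ : qv σ τ = qv σ i0 ∨ qv σ τ = - qv σ i0 := by
    rcases hτi with hτi | hτi
    · left
      refine hqeq fun h => ?_
      rw [hqU]
      by_cases hh : h < sL σ
      · rw [hτi h hh]
      · rw [sU_ge (by omega), sU_ge (by omega)]
    · right
      refine hqeq fun h => ?_
      rw [Finsupp.neg_apply, neg_mul, hqU]
      by_cases hh : h < sL σ
      · rw [hτi h hh]; push_cast; rfl
      · rw [sU_ge (by omega), sU_ge (by omega)]; simp
  have hk1 : ∀ i < x, ∃ k < sn σ, qv σ k = qv σ τ - qv σ i ∧ eps t e k = some 1 := by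
    intro i hi
    obtain ⟨⟨k, hk, hkU, hke⟩, _⟩ := hτk i hi
    refine ⟨k, hk, hqeq fun h => ?_, hke⟩
    rw [Finsupp.sub_apply, sub_mul, hqU, hqU]
    by_cases hh : h < sL σ
    · rw [hkU h hh]; push_cast; rfl
    · rw [sU_ge (by omega), sU_ge (by omega), sU_ge (by omega)]; simp
  have hk2 : ∀ i < x, ∃ k < sn σ, qv σ k = qv σ τ + qv σ i ∧ eps t e k = some 1 := by
    intro i hi
    obtain ⟨_, ⟨k, hk, hkU, hke⟩⟩ := hτk i hi
    refine ⟨k, hk, hqeq fun h => ?_, hke⟩
    rw [Finsupp.add_apply, add_mul, hqU, hqU]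
    by_cases hh : h < sL σ
    · rw [hkU h hh]; push_cast; rfl
    · rw [sU_ge (by omega), sU_ge (by omega), sU_ge (by omega)]; simp
  have hrv : ∀ i, (sM σ : ℚ) * rv σ (qv σ i) = sr σ i := rv_qv hσ.1
  -- the subspace
  obtain ⟨W, hW⟩ : ∃ W, W = Submodule.span ℚ (qv σ '' Set.Iio x) := ⟨_, rfl⟩
  have hWm : ∀ i < x, qv σ i ∈ W := fun i hi => by
    rw [hW]; exact Submodule.subset_span ⟨i, hi, rfl⟩
  have hTW : qv σ τ ∈ W := by
    rcases hqτ with h | h
    · rw [h]; exact hWm i0 hi0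
    · rw [h]; exact W.neg_mem (hWm i0 hi0)
  have hxW : qv σ x ∉ W := by
    intro hc
    have h1 : W ≤ LinearMap.ker (Finsupp.lapply h0 : VV →ₗ[ℚ] ℚ) := by
      rw [hW, Submodule.span_le]
      rintro _ ⟨i, hi, rfl⟩
      show qv σ i h0 = 0
      rw [qv_apply, hh2 i hi]; simp
    have h2 : qv σ x h0 = 0 := h1 hc
    rw [qv_apply] at h2
    rcases div_eq_zero_iff.1 h2 with h3 | h3
    · exact hh1 (by exact_mod_cast h3)
    · exact hM' h3
  obtain ⟨g, y1, l, hg, hy1, hω, hly, hlW, hlz⟩ := lat_lemma W (sn σ) x (qv σ) hxn hxW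
  obtain ⟨m, hm, u, hmu⟩ := int_comb (qv σ) (show qv σ x - g • y1 ∈ _ by rw [← hW]; exact hω)
  -- the vector of value zero
  obtain ⟨b, hb, sb, α, β, hα, hβ, hbe, hZρ⟩ : ∃ b < x, ∃ sb α β : ℤ, 0 < α ∧ 0 < β ∧
      (∀ c : ℤ, 0 ≤ c → Cn t e (sn σ) (Pi.single b (c * sb))) ∧
      rv σ (α • qv σ τ + (β * sb) • qv σ b) = 0 := by
    have key : ∀ α β : ℤ, ∀ b, α * sr σ τ + β * sr σ b = 0 →
        rv σ (α • qv σ τ + β • qv σ b) = 0 := by
      intro α β b h
      have h1 : (sM σ : ℚ) * rv σ (α • qv σ τ + β • qv σ b) = 0 := by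
        rw [map_add, map_zsmul, map_zsmul, zsmul_eq_mul, zsmul_eq_mul]
        have h2 : (α * sr σ τ + β * sr σ b : ℚ) = 0 := by exact_mod_cast h
        rw [← h2, ← hrv, ← hrv]; ring
      exact (mul_eq_zero.1 h1).resolve_left hM'
    rcases lt_or_gt_of_ne hτr with h | h
    · refine ⟨a, ha, 1, sr σ a, - sr σ τ, har, by omega, ?_, ?_⟩
      · intro c hc
        exact Cn.single_pos (by omega) hae
      · exact key _ _ _ (by ring)
    · refine ⟨a', ha', -1, sr σ a', sr σ τ, har', h, ?_, ?_⟩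
      · intro c hc
        exact Cn.single_neg (by omega) hae'
      · exact key _ _ _ (by ring)
  obtain ⟨Z, hZ⟩ : ∃ Z, Z = α • qv σ τ + (β * sb) • qv σ b := ⟨_, rfl⟩
  rw [← hZ] at hZρ
  have hT0 : qv σ τ ≠ 0 := by
    intro h
    have := hrv τ
    rw [h, map_zero, mul_zero] at this
    exact hτr (by exact_mod_cast this.symm)
  have hpos : ∀ c : ℕ → ℤ, Cn t e (sn σ) c → 0 ≤ c τ := by
    intro c hc
    by_contra h
    have := (hc τ hτ).2 (by omega)
    rw [hτe] at this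
    simp at this
  by_cases hZ0 : Z = 0
  · refine hid fun p' hp' hact' => ?_
    rw [hact] at hact'
    obtain rfl := Option.some.inj hact'
    rw [← he]
    refine ⟨Pi.single τ α + Pi.single b (β * sb), ?_, ?_, τ, hτ, ?_, hT0⟩
    · rw [val_add, val_single hτ, val_single (by omega), ← hZ, hZ0]
    · exact (Cn.single_pos hα.le hτe).add (hbe β hβ.le)
    · have h1 := hpos _ (hbe β hβ.le)
      rw [Pi.add_apply, Pi.single_eq_same]
      omega
  -- the sign
  obtain ⟨sg, hsg, hsgx⟩ : ∃ sg : ℤ, sg * sg = 1 ∧ Cn t e (sn σ) (Pi.single x (sg * m)) := by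
    rcases hxe with h | h
    · exact ⟨-1, by norm_num, Cn.single_neg (by omega) h⟩
    · exact ⟨1, by norm_num, Cn.single_pos (by omega) h⟩
  have hZW : Z ∈ W := by
    rw [hZ, ← Int.cast_smul_eq_zsmul ℚ, ← Int.cast_smul_eq_zsmul ℚ]
    exact W.add_mem (W.smul_mem _ hTW) (W.smul_mem _ (hWm b hb))
  obtain ⟨l', hl'⟩ := exists_dual_one hZ0
  obtain ⟨ε, hε, Hε⟩ := small_eps (F0 σ) (fun v => rv σ v) (fun v => l' v - l v * l' y1)
  -- large number
  obtain ⟨N, hN1, hN2, hN3⟩ : ∃ N : ℤ, 0 < N ∧ |rv σ y1| / N ≤ ε ∧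
      ∑ i ∈ range x, |u i| < N := by
    have hnn : 0 ≤ ∑ i ∈ range x, |u i| := Finset.sum_nonneg fun i _ => abs_nonneg _
    obtain ⟨N0, hN0⟩ := exists_nat_gt (|rv σ y1| / ε)
    refine ⟨N0 + ∑ i ∈ range x, |u i| + 1, by positivity, ?_, by omega⟩
    rw [div_le_iff₀ (by positivity)]
    have h1 := (div_lt_iff₀ hε).1 hN0
    have h2 : (0 : ℚ) ≤ ((∑ i ∈ range x, |u i| : ℤ) : ℚ) := by exact_mod_cast hnn
    push_cast at h2 ⊢
    nlinarith
  have hNQ : (0 : ℚ) < N := by exact_mod_cast hN1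
  obtain ⟨η, hη⟩ : ∃ η : VV, η = (-(sg * N)) • Z := ⟨_, rfl⟩
  let θ : VV →ₗ[ℚ] VV := LinearMap.id + l.smulRight (η - y1)
  have hθ : ∀ v, θ v = v + l v • (η - y1) := fun v => rfl
  have hθW : ∀ v ∈ W, θ v = v := fun v hv => by rw [hθ, hlW v hv, zero_smul, add_zero]
  have hηW : η ∈ W := by
    rw [hη, ← Int.cast_smul_eq_zsmul ℚ]
    exact W.smul_mem _ hZW
  obtain ⟨δ, hδ⟩ : ∃ δ : ℚ, δ = -(sg * rv σ y1) / N := ⟨_, rfl⟩
  have hsgQ : (sg : ℚ) * sg = 1 := by exact_mod_cast hsg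
  have hsgabs : |(sg : ℚ)| = 1 := by
    have h1 : |(sg : ℚ)| * |(sg : ℚ)| = 1 := by rw [← abs_mul, hsgQ, abs_one]
    nlinarith [abs_nonneg (sg : ℚ)]
  have hδε : |δ| ≤ ε := by
    rw [hδ, abs_div, abs_neg, abs_mul, hsgabs, one_mul, abs_of_pos hNQ]
    exact hN2
  have hAHq : ∀ i < sn σ, qv σ i ∈ AH ν ι := fun i hi =>
    (mem_AH ν ι).2 ⟨_, hσ1.Pr_qv ι hi⟩
  have hAHy : y1 ∈ AH ν ι := by
    have h1 : Submodule.span ℤ (qv σ '' Set.Iio (sn σ)) ≤ AH ν ι := by
      rw [Submodule.span_le]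
      rintro _ ⟨i, hi, rfl⟩
      exact hAHq i hi
    exact h1 hy1
  have hAHη : η ∈ AH ν ι := by
    rw [hη, hZ]
    exact Submodule.smul_mem _ _ (Submodule.add_mem _ (Submodule.smul_mem _ _ (hAHq τ hτ))
      (Submodule.smul_mem _ _ (hAHq b (by omega))))
  refine finish2 ν ι hι (2 * t + 1) σ hσ θ ?_ ?_ (rv σ + δ • l') ?_ ?_ ?_
  · -- values
    intro i hi
    rw [← mem_AH, hθ]
    obtain ⟨z, hz⟩ := hlz i hi
    rw [hz, Int.cast_smul_eq_zsmul]
    exact Submodule.add_mem _ (hAHq i hi) (Submodule.smul_mem _ _ (Submodule.sub_mem _ hAHη hAHy))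
  · -- supports
    intro i hi
    have hS : ∀ (k : ℕ) (v : VV),
        v ∈ Finsupp.supported ℚ ℚ {h | Bs ν (t + 1) h ∧ cnt ν (t + 1) h ≤ k} ↔
        ∀ h, v h ≠ 0 → Bs ν (t + 1) h ∧ cnt ν (t + 1) h ≤ k := by
      intro k v
      rw [Finsupp.mem_supported]
      constructor
      · intro h1 h hh; exact h1 (Finsupp.mem_support_iff.2 hh)
      · intro h1 h hh; exact h1 h (Finsupp.mem_support_iff.1 hh)
    rw [e2, ← hS i (θ (qv σ i))]
    have hqi : qv σ i ∈ Finsupp.supported ℚ ℚ {h | Bs ν (t + 1) h ∧ cnt ν (t + 1) h ≤ i} :=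
      (hS i _).2 fun h hh => hσ1.supp hi hh
    by_cases hix : i < x
    · rw [hθW _ (hWm i hix)]
      exact hqi
    · have hWS : W ≤ Finsupp.supported ℚ ℚ {h | Bs ν (t + 1) h ∧ cnt ν (t + 1) h ≤ i} := by
        rw [hW, Submodule.span_le]
        rintro _ ⟨k, hk, rfl⟩
        have hk' : k < x := hk
        refine (hS i _).2 fun h hh => ?_
        have := hσ1.supp (by omega) hh
        exact ⟨this.1, by omega⟩
      have hxS : qv σ x ∈ Finsupp.supported ℚ ℚ {h | Bs ν (t + 1) h ∧ cnt ν (t + 1) h ≤ i} := by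
        refine (hS i _).2 fun h hh => ?_
        have := hσ1.supp hxn hh
        exact ⟨this.1, by omega⟩
      have hgQ : (g : ℚ) ≠ 0 := by exact_mod_cast hg.ne'
      have hyS : y1 ∈ Finsupp.supported ℚ ℚ {h | Bs ν (t + 1) h ∧ cnt ν (t + 1) h ≤ i} := by
        have h1 : y1 = (g : ℚ)⁻¹ • (qv σ x - (qv σ x - g • y1)) := by
          rw [sub_sub_cancel, ← Int.cast_smul_eq_zsmul ℚ, smul_smul, inv_mul_cancel₀ hgQ, one_smul]
        rw [h1]
        exact Submodule.smul_mem _ _ (Submodule.sub_mem _ hxS (hWS hω))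
      rw [hθ]
      exact Submodule.add_mem _ hqi (Submodule.smul_mem _ _ (Submodule.sub_mem _ (hWS hηW) hyS))
  · -- signs
    intro v hv
    have h1 : (rv σ + δ • l') (θ v) = rv σ v + δ * (l' v - l v * l' y1) := by
      have h2 : rv σ η = 0 := by rw [hη, map_zsmul, hZρ, smul_zero]
      have h3 : l' η = -(sg * N) := by
        rw [hη, map_zsmul, hl', zsmul_eq_mul]; push_cast; ring
      rw [LinearMap.add_apply, LinearMap.smul_apply, hθ, map_add, map_add, map_smul, map_smul,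
        map_sub, map_sub, h2, h3]
      simp only [smul_eq_mul]
      have h4 : δ * (sg * N) = - rv σ y1 := by
        rw [hδ]
        field_simp
        linear_combination (- rv σ y1) * hsgQ
      linear_combination (- l v) * h4
    rw [h1]
    exact Hε δ hδε v hv
  · -- keep
    intro i hi hk
    refine hθW _ (hWm i ?_)
    have := hk.2 (by omega) p (by omega)
    rw [e3] at this
    rw [hx]
    exact this hact
  · -- certificate
    intro _ p' hp' hact'
    rw [e3] at hp' hact'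
    rw [e3]
    rw [hact] at hact'
    obtain rfl := Option.some.inj hact'
    rw [← he]
    have hk : ∀ i, ∃ k, i < x → (k < sn σ ∧ eps t e k = some 1 ∧
        |u i| • qv σ k = |u i| • qv σ τ - (sg * u i) • qv σ i ∧ qv σ k ∈ W) := by
      intro i
      by_cases hi : i < x
      swap
      · exact ⟨0, fun h => absurd h hi⟩
      have hsgu : |u i| = sg * u i ∨ |u i| = - (sg * u i) := by
        have h1 : sg = 1 ∨ sg = -1 := by
          have : (sg - 1) * (sg + 1) = 0 := by linear_combination hsg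
          rcases mul_eq_zero.1 this with h | h
          · left; omega
          · right; omega
        rcases h1 with rfl | rfl <;> rcases abs_choice (u i) with h2 | h2 <;> rw [h2]
        · left; ring
        · right; ring
        · right; ring
        · left; ring
      rcases hsgu with h1 | h1
      · obtain ⟨k, hk, h2, h3⟩ := hk1 i hi
        refine ⟨k, fun _ => ⟨hk, h3, ?_, ?_⟩⟩
        · rw [h2, smul_sub, h1]
        · rw [h2]; exact W.sub_mem hTW (hWm i hi)
      · obtain ⟨k, hk, h2, h3⟩ := hk2 i hi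
        refine ⟨k, fun _ => ⟨hk, h3, ?_, ?_⟩⟩
        · rw [h2, smul_add, h1, neg_smul, neg_smul, ← sub_eq_add_neg]
        · rw [h2]; exact W.add_mem hTW (hWm i hi)
    choose k hk using hk
    have hU0 : 0 ≤ ∑ i ∈ range x, |u i| := Finset.sum_nonneg fun i _ => abs_nonneg _
    have hmg : 1 ≤ m * g * α := by
      have h1 : 0 < m * g := mul_pos hm hg
      have h2 : 0 < m * g * α := mul_pos h1 hα
      omega
    have hcτ : 0 < m * g * N * α - ∑ i ∈ range x, |u i| := by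
      have : N ≤ m * g * N * α := by
        have : m * g * N * α = (m * g * α) * N := by ring
        rw [this]
        exact le_mul_of_one_le_left hN1.le hmg
      omega
    have hc1 : Cn t e (sn σ) (Pi.single τ (m * g * N * α - ∑ i ∈ range x, |u i|)) :=
      Cn.single_pos hcτ.le hτe
    have hc2 : Cn t e (sn σ) (Pi.single b (m * g * N * β * sb)) :=
      hbe _ (by positivity)
    have hc3 : Cn t e (sn σ) (∑ i ∈ range x, Pi.single (k i) |u i|) :=
      Cn.sum _ _ fun i hi => Cn.single_pos (abs_nonneg _) (hk i (Finset.mem_range.1 hi)).2.1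
    have hc4 := hc1.add (hsgx.add (hc2.add hc3))
    refine ⟨_, ?_, hc4, τ, hτ, ?_, by rw [hθW _ hTW]; exact hT0⟩
    · rw [val_add, val_add, val_add, val_single hτ, val_single hxn, val_single (by omega),
        val_sum, hθW _ hTW, hθW _ (hWm b hb)]
      have h1 : ∑ j ∈ range x, ∑ i ∈ range (sn σ), (Pi.single (k j) |u j| : ℕ → ℤ) i • θ (qv σ i)
          = ∑ j ∈ range x, (|u j| • qv σ τ - (sg * u j) • qv σ j) := by
        refine Finset.sum_congr rfl fun j hj => ?_
        obtain ⟨h2, _, h3, h4⟩ := hk j (Finset.mem_range.1 hj)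
        rw [val_single h2, hθW _ h4, h3]
      rw [h1, Finset.sum_sub_distrib, ← Finset.sum_smul]
      have h5 : ∑ j ∈ range x, (sg * u j) • qv σ j = sg • m • (qv σ x - g • y1) := by
        rw [hmu, Finset.smul_sum]
        exact Finset.sum_congr rfl fun j _ => by rw [mul_smul]
      have h6 : θ (qv σ x) = (qv σ x - g • y1) + g • η := by
        have h7 : qv σ x = (qv σ x - g • y1) + g • y1 := by rw [sub_add_cancel]
        conv_lhs => rw [h7]
        rw [map_add, hθW _ hω, map_zsmul, hθ, hly, one_smul, add_sub_cancel]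
      rw [h5, h6, hη, hZ]
      obtain ⟨ω, hω'⟩ : ∃ ω, ω = qv σ x - g • y1 := ⟨_, rfl⟩
      rw [← hω']
      obtain ⟨S, hS⟩ : ∃ S, S = ∑ i ∈ range x, |u i| := ⟨_, rfl⟩
      rw [← hS]
      simp only [smul_add, sub_smul, smul_smul]
      have h8 : sg * m * (g * (-(sg * N) * α)) = -(m * g * N * α) := by
        linear_combination (-(m * g * N * α)) * hsg
      have h9 : sg * m * (g * (-(sg * N) * (β * sb))) = -(m * g * N * β * sb) := by
        linear_combination (-(m * g * N * β * sb)) * hsg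
      rw [h8, h9, neg_smul, neg_smul]
      abel
    · have h1 := hpos _ (hsgx.add (hc2.add hc3))
      rw [Pi.add_apply, Pi.single_eq_same]
      omega

theorem step_exists (hι : Function.Injective ι) (s : ℕ) (σ : St)
    (hσ : Good ν ((s + 1) / 2) σ) : ∃ σ', Step ν s σ σ' := by
  rcases Nat.mod_two_eq_zero_or_one s with h | h
  · exact step_even ν ι hι s h σ hσ
  · exact step_odd ν ι hι s h σ hσ

end Pool.Agent.H670.OA
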