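import Pool.Agent.H670.OA.Lim4

/-! Every computable order is the constructed one or its reverse. -/

set_option autoImplicit false

namespace Pool.Agent.H670.OA

open Finset (range)
open Nat.Partrec (Code)

section cone

variable {H : Type} [AddCommGroup H] {Q : Set H} (hQ : Cone Q)

include hQ

theorem Cone.zero_mem : (0 : H) ∈ Q := by
  rcases hQ.2.2 0 with h | h
  · exact h
  · rwa [neg_zero] at h

theorem Cone.neg_mem_of_notMem {x : H} (h : x ∉ Q) : -x ∈ Q := (hQ.2.2 x).resolve_left h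

theorem Cone.nsmul_mem {x : H} (h : x ∈ Q) (n : ℕ) : n • x ∈ Q := by
  induction n with
  | zero => rw [zero_smul]; exact hQ.zero_mem
  | succ n ih => rw [succ_nsmul]; exact hQ.1 _ ih _ h

theorem Cone.sum_mem {S : Finset ℕ} {f : ℕ → H} (h : ∀ i ∈ S, f i ∈ Q) : ∑ i ∈ S, f i ∈ Q := by
  classical
  induction S using Finset.induction_on with
  | empty => rw [Finset.sum_empty]; exact hQ.zero_mem
  | insert a S ha ih =>
    rw [Finset.sum_insert ha]
    exact hQ.1 _ (h a (Finset.mem_insert_self _ _)) _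
      (ih fun i hi => h i (Finset.mem_insert_of_mem hi))

theorem Cone.sum_zero {S : Finset ℕ} {f : ℕ → H} (h : ∀ i ∈ S, f i ∈ Q)
    (h0 : ∑ i ∈ S, f i = 0) (i : ℕ) (hi : i ∈ S) : f i = 0 := by
  classical
  rw [← Finset.add_sum_erase S f hi] at h0
  refine hQ.2.1 _ (h i hi) ?_
  rw [neg_eq_of_add_eq_zero_right h0]
  exact hQ.sum_mem fun j hj => h j (Finset.mem_of_mem_erase hj)

theorem Cone.zsmul_mem {x : H} {c : ℤ} (h1 : 0 < c → x ∈ Q) (h2 : c < 0 → -x ∈ Q) : c • x ∈ Q := by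
  rcases lt_trichotomy c 0 with h | h | h
  · obtain ⟨n, hn⟩ : ∃ n : ℕ, c = -(n : ℤ) := ⟨c.natAbs, by omega⟩
    rw [hn, neg_smul, ← smul_neg, natCast_zsmul]
    exact hQ.nsmul_mem (h2 h) n
  · rw [h, zero_smul]; exact hQ.zero_mem
  · obtain ⟨n, hn⟩ : ∃ n : ℕ, c = (n : ℤ) := ⟨c.natAbs, by omega⟩
    rw [hn, natCast_zsmul]
    exact hQ.nsmul_mem (h1 h) n

/-- an element of largest absolute value -/
theorem Cone.exists_max (f : ℕ → H) (x : ℕ) (hx : 0 < x) : ∃ y ∈ Q,
    (∃ i < x, y = f i ∨ y = - f i) ∧ ∀ i < x, y - f i ∈ Q ∧ y + f i ∈ Q := by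
  have key : ∀ a : H, ∃ z ∈ Q, (z = a ∨ z = -a) ∧ ∀ w, (w - a ∈ Q ∧ w + a ∈ Q) ↔
      (w - z ∈ Q ∧ w + z ∈ Q) := by
    intro a
    rcases hQ.2.2 a with h | h
    · exact ⟨a, h, Or.inl rfl, fun w => Iff.rfl⟩
    · refine ⟨-a, h, Or.inr rfl, fun w => ?_⟩
      rw [sub_neg_eq_add, ← sub_eq_add_neg]
      exact And.comm
  induction x, hx using Nat.le_induction with
  | base =>
    obtain ⟨z, hz, hza, hz2⟩ := key (f 0)
    refine ⟨z, hz, ⟨0, by omega, hza⟩, fun i hi => ?_⟩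
    obtain rfl : i = 0 := by omega
    rw [hz2, sub_self]
    exact ⟨hQ.zero_mem, hQ.1 _ hz _ hz⟩
  | succ x hx ih =>
    obtain ⟨y, hy, ⟨i0, hi0, hyi⟩, hy2⟩ := ih
    obtain ⟨z, hz, hza, hz2⟩ := key (f x)
    by_cases h : y - z ∈ Q
    · refine ⟨y, hy, ⟨i0, by omega, hyi⟩, fun i hi => ?_⟩
      rcases Nat.lt_succ_iff_lt_or_eq.1 hi with hi | rfl
      · exact hy2 i hi
      · rw [hz2]; exact ⟨h, hQ.1 _ hy _ hz⟩
    · have h' : z - y ∈ Q := by
        have := hQ.neg_mem_of_notMem h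
        rwa [neg_sub] at this
      refine ⟨z, hz, ⟨x, by omega, hza⟩, fun i hi => ?_⟩
      rcases Nat.lt_succ_iff_lt_or_eq.1 hi with hi | rfl
      · have h1 := hy2 i hi
        constructor
        · have := hQ.1 _ h' _ h1.1
          rwa [sub_add_sub_cancel] at this
        · have := hQ.1 _ h' _ h1.2
          have e : z - y + (y + f i) = z + f i := by abel
          rwa [e] at this
      · rw [hz2, sub_self]
        exact ⟨hQ.zero_mem, hQ.1 _ hz _ hz⟩

end cone

variable {H : Type} [AddCommGroup H] {ν : ℕ ≃ H} {E : Type} [AddCommGroup E] [Module ℚ E]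
  (ι : H →+ E) {st : ℕ → St}

theorem only_orders (hι : Function.Injective ι) (hinf : ∀ N, ∃ h ≥ N, Binf ν h)
    (hst : ∀ s, Step ν s (st s) (st (s + 1))) {qF : ℕ → VV} {F : ℕ → ℕ}
    (hlate : ∀ i, ∃ S, 1 ≤ S ∧ ∀ s ≥ S, i < sn (st s) ∧ qv (st s) i = qF i ∧ sy (st s) i = F i)
    (μ : ℕ ≃ H) (hμ : ∀ i, μ i = ν (F i)) (P : Set H) (hP : Cone P)
    (hPr : ∀ i, ∃ S, ∀ s ≥ S, ((μ i ∈ P ∧ μ i ≠ 0) ↔ 0 < rv (st s) (qF i)) ∧
          ((-μ i ∈ P ∧ μ i ≠ 0) ↔ rv (st s) (qF i) < 0))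
    (Q : Set H) (hQ : Cone Q)
    (hQc : Computable (Set.indicator (μ ⁻¹' Q) (fun _ => (1 : ℕ)) : ℕ → ℕ)) :
    (∀ x, x ∈ Q ↔ x ∈ P) ∨ (∀ x, x ∈ Q ↔ -x ∈ P) := by
  classical
  by_contra hcon
  push Not at hcon
  -- the code
  obtain ⟨c, hc⟩ := Code.exists_code.1 (show Nat.Partrec
    (fun n => Part.some (Set.indicator (μ ⁻¹' Q) (fun _ => (1 : ℕ)) n)) from by
      exact Partrec.nat_iff.1 hQc)
  obtain ⟨e, he⟩ : ∃ e, e = Encodable.encode c := ⟨_, rfl⟩
  have hoc : Denumerable.ofNat Code e = c := by rw [he]; exact Denumerable.ofNat_encode c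
  have hind1 : ∀ i, μ i ∈ Q → Set.indicator (μ ⁻¹' Q) (fun _ => (1 : ℕ)) i = 1 := fun i hi =>
    Set.indicator_of_mem (show i ∈ μ ⁻¹' Q from hi) _
  have hind0 : ∀ i, μ i ∉ Q → Set.indicator (μ ⁻¹' Q) (fun _ => (1 : ℕ)) i = 0 := fun i hi =>
    Set.indicator_of_notMem (show i ∉ μ ⁻¹' Q from hi) _
  have heps : ∀ i v, Set.indicator (μ ⁻¹' Q) (fun _ => (1 : ℕ)) i = v →
      ∃ T, ∀ t ≥ T, eps t e i = some v := by
    intro i v hv
    have h1 : v ∈ Code.eval c i := by
      rw [hc]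
      show v ∈ Part.some _
      rw [hv]
      exact Part.mem_some v
    obtain ⟨T, hT⟩ := Code.evaln_complete.1 h1
    refine ⟨T, fun t ht => ?_⟩
    unfold eps
    rw [hoc]
    exact Code.evaln_mono ht hT
  have heps' : ∀ t i v, eps t e i = some v → Set.indicator (μ ⁻¹' Q) (fun _ => (1 : ℕ)) i = v := by
    intro t i v h
    unfold eps at h
    rw [hoc] at h
    have h1 : v ∈ Code.eval c i := Code.evaln_sound h
    rw [hc] at h1
    exact (Part.mem_some_iff.1 h1).symm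
  have hE1 : ∀ t i, eps t e i = some 1 → μ i ∈ Q := by
    intro t i h
    by_contra hn
    have := heps' t i 1 h
    rw [hind0 i hn] at this
    omega
  have hE0 : ∀ t i, eps t e i = some 0 → μ i ∉ Q := by
    intro t i h hn
    have := heps' t i 0 h
    rw [hind1 i hn] at this
    omega
  have hPrq : ∀ i, Pr ν ι (qF i) = ι (μ i) := fun i => by rw [hμ]; exact Pr_qF ι hst hlate i
  have hqB : ∀ i h, qF i h ≠ 0 → Binf ν h := fun i h => qF_supp hst hlate i h
  have hq_of : ∀ {v : VV} {i : ℕ}, (∀ h, v h ≠ 0 → Binf ν h) → Pr ν ι v = ι (μ i) → v = qF i := by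
    intro v i hv h
    rw [hμ] at h
    exact qF_of_F ι hst hlate hι hv h
  have hqz : ∀ i, μ i = 0 → qF i = 0 := by
    intro i hi
    refine (hq_of (v := 0) (fun h hh => absurd rfl hh) ?_).symm
    rw [map_zero, hi, map_zero]
  -- never seen to be wrong
  have hnoSat : ∀ t s, 1 ≤ s → ¬ Sat t (st s) e := by
    rintro t s hs ⟨κ, hκ⟩
    have hκ0 : SatK t (st s) e κ := hκ
    obtain ⟨S, h1, hS⟩ := late_all hlate (len κ)
    have hκ1 := SatK_persist hst le_rfl (show s ≤ s + S by omega) hs hκ0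
    have hg := good_st hst (show 1 ≤ s + S by omega)
    have h2 := dv_late (qF := qF) (κ := κ) (s := s + S) hκ1.2.1
      (fun i hi => (hS (s + S) (by omega) i hi).2.1)
    have h3 : ∑ i ∈ range (len κ), cf κ i • qF i = 0 := by
      rw [← h2]; exact hg.dv_eq_zero hκ1.1 hκ1.2.1 hκ1.2.2.1
    have h4 : ∑ i ∈ range (len κ), cf κ i • μ i = 0 := by
      have := (comb_zero ι hst hlate hι (len κ) (cf κ)).1 h3
      simpa only [hμ] using this
    have h5 := hQ.sum_zero (S := range (len κ)) (f := fun i => cf κ i • μ i) (fun i hi => by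
      have hi' : i < sn (st (s + S)) := lt_of_lt_of_le (Finset.mem_range.1 hi) hκ1.2.1
      have h6 := hκ1.2.2.2.1 i hi'
      exact hQ.zsmul_mem (fun h => hE1 t i (h6.1 h))
        (fun h => hQ.neg_mem_of_notMem (hE0 t i (h6.2 h)))) h4
    obtain ⟨i, hi, hci, hri⟩ := hκ1.2.2.2.2
    have hil : i < len κ := by
      by_contra hcc
      exact hci (cf_eq_zero (by omega))
    have h6 := h5 i (Finset.mem_range.2 hil)
    have h7 : μ i = 0 := by
      apply hι
      have h8 := congrArg ι h6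
      rw [map_zsmul, map_zero, ← Int.cast_smul_eq_zsmul ℚ] at h8
      rw [map_zero]
      exact (smul_eq_zero.1 h8).resolve_left (by exact_mod_cast hci)
    have h8 := rv_qv hg.1 i
    rw [(hS (s + S) (by omega) i hil).2.1, hqz i h7, map_zero, mul_zero] at h8
    exact hri (by exact_mod_cast h8.symm)
  -- two elements
  obtain ⟨a, haP, ha0, haQ⟩ : ∃ a, μ a ∈ P ∧ μ a ≠ 0 ∧ μ a ∈ Q := by
    by_contra hno
    push Not at hno
    obtain ⟨x, hx⟩ := hcon.2
    obtain ⟨i, rfl⟩ := μ.surjective x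
    obtain ⟨j, hj⟩ := μ.surjective (-μ i)
    have hz0 : μ i ≠ 0 := by
      intro h
      rcases hx with ⟨h1, h2⟩ | ⟨h1, h2⟩
      · exact h2 (by rw [h, neg_zero]; exact hP.zero_mem)
      · exact h1 (by rw [h]; exact hQ.zero_mem)
    rcases hx with ⟨h1, h2⟩ | ⟨h1, h2⟩
    · exact hno i ((hP.2.2 (μ i)).resolve_right h2) hz0 h1
    · refine hno j (by rw [hj]; exact h2) (by rw [hj]; exact neg_ne_zero.2 hz0) ?_
      rw [hj]; exact hQ.neg_mem_of_notMem h1
  obtain ⟨a', haP', ha0', haQ'⟩ : ∃ a, μ a ∈ P ∧ μ a ≠ 0 ∧ μ a ∉ Q := by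
    by_contra hno
    push Not at hno
    obtain ⟨x, hx⟩ := hcon.1
    obtain ⟨i, rfl⟩ := μ.surjective x
    obtain ⟨j, hj⟩ := μ.surjective (-μ i)
    have hz0 : μ i ≠ 0 := by
      intro h
      rcases hx with ⟨h1, h2⟩ | ⟨h1, h2⟩
      · exact h2 (by rw [h]; exact hP.zero_mem)
      · exact h1 (by rw [h]; exact hQ.zero_mem)
    rcases hx with ⟨h1, h2⟩ | ⟨h1, h2⟩
    · have h3 : μ j ∈ P := by rw [hj]; exact hP.neg_mem_of_notMem h2
      have h4 := hno j h3 (by rw [hj]; exact neg_ne_zero.2 hz0)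
      rw [hj] at h4
      exact hz0 (hQ.2.1 _ h1 h4)
    · exact h1 (hno i h2 hz0)
  -- bound
  obtain ⟨B, hB⟩ : ∃ B, ∀ i, F i ≤ e → i < B := by
    have hfin : (F ⁻¹' Set.Iic e).Finite :=
      (Set.finite_Iic e).preimage (F_inj ι hst hlate hι).injOn
    obtain ⟨B, hB⟩ := hfin.bddAbove
    exact ⟨B + 1, fun i hi => Nat.lt_succ_of_le (hB hi)⟩
  obtain ⟨B', hB'⟩ : ∃ B', B' = B + e + a + a' + 1 := ⟨_, rfl⟩
  -- bound on the supports
  obtain ⟨L0, hL0⟩ : ∃ L0 : ℕ, ∀ i < B', ∀ h, qF i h ≠ 0 → h < L0 := by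
    refine ⟨((range B').biUnion fun i => (qF i).support).sup id + 1, fun i hi h hh => ?_⟩
    have h1 : h ∈ (range B').biUnion fun i => (qF i).support :=
      Finset.mem_biUnion.2 ⟨i, Finset.mem_range.2 hi, Finsupp.mem_support_iff.2 hh⟩
    have := Finset.le_sup (f := id) h1
    simp only [id] at this
    omega
  obtain ⟨h0, hh0, hBh0⟩ := hinf L0
  obtain ⟨i1, hi1⟩ := μ.surjective (ν h0)
  have hi1q : Finsupp.single h0 1 = qF i1 := by
    refine hq_of (fun h hh => ?_) (by rw [Pr_single, one_smul, hi1])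
    have : h = h0 := by
      by_contra hne
      exact hh (Finsupp.single_eq_of_ne hne)
    rw [this]; exact hBh0
  have hexx : ∃ x, qF x h0 ≠ 0 := ⟨i1, by rw [← hi1q, Finsupp.single_eq_same]; exact one_ne_zero⟩
  obtain ⟨x, hx, hxmin⟩ : ∃ x, qF x h0 ≠ 0 ∧ ∀ i < x, qF i h0 = 0 :=
    ⟨Nat.find hexx, Nat.find_spec hexx, fun i hi => by
      have := Nat.find_min hexx hi
      push Not at this
      exact this⟩
  have hxB : B' ≤ x := by
    by_contra hcc
    have := hL0 x (by omega) h0 hx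
    omega
  -- the largest element
  obtain ⟨y, hyQ, ⟨i0, hi0, hyi0⟩, hymax⟩ := hQ.exists_max (fun i => μ i) x (by omega)
  obtain ⟨τ, rfl⟩ := μ.surjective y
  have hτ0 : μ τ ≠ 0 := by
    intro h
    have := (hymax a (by omega)).1
    rw [h, zero_sub] at this
    exact ha0 (hQ.2.1 _ haQ this)
  have hk1 : ∀ i, ∃ k, μ k = μ τ - μ i := fun i => μ.surjective _
  have hk2 : ∀ i, ∃ k, μ k = μ τ + μ i := fun i => μ.surjective _
  choose k1 hk1 using hk1
  choose k2 hk2 using hk2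
  have hqk1 : ∀ i, qF (k1 i) = qF τ - qF i := by
    intro i
    refine (hq_of (fun h hh => ?_) (by rw [map_sub, hPrq, hPrq, hk1, map_sub])).symm
    by_cases h2 : qF τ h = 0
    · refine hqB i h fun h3 => hh ?_
      rw [Finsupp.sub_apply, h2, h3, sub_zero]
    · exact hqB τ h h2
  have hqk2 : ∀ i, qF (k2 i) = qF τ + qF i := by
    intro i
    refine (hq_of (fun h hh => ?_) (by rw [map_add, hPrq, hPrq, hk2, map_add])).symm
    by_cases h2 : qF τ h = 0
    · refine hqB i h fun h3 => hh ?_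
      rw [Finsupp.add_apply, h2, h3, add_zero]
    · exact hqB τ h h2
  have hqτ : qF τ = qF i0 ∨ qF τ = - qF i0 := by
    rcases hyi0 with h | h
    · left
      exact (hq_of (hqB i0) (by rw [hPrq, h])).symm
    · right
      refine (hq_of (fun h' hh' => hqB i0 h' fun h3 => hh' ?_) (by rw [map_neg, hPrq, h, map_neg])).symm
      rw [Finsupp.neg_apply, h3, neg_zero]
  -- late stages
  obtain ⟨N, hN⟩ : ∃ N, N = x + τ + (∑ i ∈ range x, (k1 i + k2 i)) + 1 := ⟨_, rfl⟩
  have hkN : ∀ i < x, k1 i < N ∧ k2 i < N := by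
    intro i hi
    have : k1 i + k2 i ≤ ∑ i ∈ range x, (k1 i + k2 i) :=
      Finset.single_le_sum (f := fun i => k1 i + k2 i) (fun _ _ => Nat.zero_le _)
        (Finset.mem_range.2 hi)
    omega
  obtain ⟨S, hS1, hS⟩ := late_all hlate N
  obtain ⟨T, hT⟩ : ∃ T, ∀ t ≥ T, ∀ i < N, (μ i ∈ Q → eps t e i = some 1) ∧
      (μ i ∉ Q → eps t e i = some 0) := by
    have h1 : ∀ i, ∃ T, ∀ t ≥ T, (μ i ∈ Q → eps t e i = some 1) ∧
      (μ i ∉ Q → eps t e i = some 0) := by
      intro i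
      by_cases h : μ i ∈ Q
      · obtain ⟨T, hT⟩ := heps i 1 (hind1 i h)
        exact ⟨T, fun t ht => ⟨fun _ => hT t ht, fun h' => absurd h h'⟩⟩
      · obtain ⟨T, hT⟩ := heps i 0 (hind0 i h)
        exact ⟨T, fun t ht => ⟨fun h' => absurd h' h, fun _ => hT t ht⟩⟩
    choose T hT using h1
    refine ⟨∑ i ∈ range N, T i, fun t ht i hi => hT i t ?_⟩
    exact le_trans (Finset.single_le_sum (f := T) (fun _ _ => Nat.zero_le _)
      (Finset.mem_range.2 hi)) ht
  obtain ⟨S2, hS2⟩ : ∃ S2, ∀ s ≥ S2, ∀ h ≤ e, ∀ k < sn (st s), sy (st s) k = h →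
      (∀ h', qv (st s) k h' ≠ 0 → h' ≤ h) → F k = h := by
    have h1 : ∀ h, ∃ S, ∀ s ≥ S, ∀ k < sn (st s), sy (st s) k = h →
        (∀ h', qv (st s) k h' ≠ 0 → h' ≤ h) → F k = h := fun h => by
      obtain ⟨S, _, hS⟩ := rep_persist ι hst hlate hι (h := h)
      exact ⟨S, hS⟩
    choose S3 hS3 using h1
    refine ⟨∑ i ∈ range (e + 1), S3 i, fun s hs h hh => hS3 h s ?_⟩
    exact le_trans (Finset.single_le_sum (f := S3) (fun _ _ => Nat.zero_le _)
      (Finset.mem_range.2 (Nat.lt_succ_of_le hh))) hs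
  obtain ⟨Sa, hSa⟩ := hPr a
  obtain ⟨Sa', hSa'⟩ := hPr a'
  obtain ⟨Sτ, hSτ⟩ := hPr τ
  obtain ⟨T3, hT3⟩ := act_bound hst (Nat.pair e x + 1)
  obtain ⟨t, ht⟩ : ∃ t, t = S + T + S2 + Sa + Sa' + Sτ + T3 + Nat.pair e x + 1 := ⟨_, rfl⟩
  have hg := good_st hst (show 1 ≤ 2 * t + 1 by omega)
  have hM : (0 : ℚ) < sM (st (2 * t + 1)) := by have := hg.1; positivity
  have hlt : ∀ i < N, i < sn (st (2 * t + 1)) ∧ qv (st (2 * t + 1)) i = qF i ∧
      sy (st (2 * t + 1)) i = F i := hS (2 * t + 1) (by omega)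
  have hsr : ∀ i < N, (sM (st (2 * t + 1)) : ℚ) * rv (st (2 * t + 1)) (qF i) =
      sr (st (2 * t + 1)) i := by
    intro i hi
    rw [← (hlt i hi).2.1]
    exact rv_qv hg.1 i
  have hsrpos : ∀ i < N, 0 < rv (st (2 * t + 1)) (qF i) → 0 < sr (st (2 * t + 1)) i := by
    intro i hi h
    have : (0 : ℚ) < sr (st (2 * t + 1)) i := by rw [← hsr i hi]; positivity
    exact_mod_cast this
  have hU : ∀ i < N, ∀ h, (sU (st (2 * t + 1)) i h : ℚ) = sM (st (2 * t + 1)) * qF i h := by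
    intro i hi h
    rw [← (hlt i hi).2.1, qv_apply]
    field_simp
  have hatt : att t (st (2 * t + 1)) e x := by
    refine ⟨hnoSat t _ (by omega), by omega, (hlt x (by omega)).1, ?_, ?_, ?_, ?_, ?_, ?_⟩
    · intro i hi hxi
      by_contra hcc
      push Not at hcc
      have h1 := hS2 (2 * t + 1) (by omega) _ hcc.1 i hi rfl (fun h' hh' => by
        rw [qv_apply] at hh'
        have h2 : sU (st (2 * t + 1)) i h' ≠ 0 := by
          intro h0; rw [h0] at hh'; simp at hh'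
        have h3 : h' < sL (st (2 * t + 1)) := by
          by_contra hc
          exact h2 (sU_ge (by omega))
        exact hcc.2 h' h3 h2)
      have := hB i (by rw [h1]; exact hcc.1)
      omega
    · exact ⟨a, by omega, hsrpos a (by omega) ((hSa _ (by omega)).1.1 ⟨haP, ha0⟩),
        (hT t (by omega) a (by omega)).1 haQ⟩
    · exact ⟨a', by omega, hsrpos a' (by omega) ((hSa' _ (by omega)).1.1 ⟨haP', ha0'⟩),
        (hT t (by omega) a' (by omega)).2 haQ'⟩
    · by_cases h : μ x ∈ Q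
      · exact Or.inr ((hT t (by omega) x (by omega)).1 h)
      · exact Or.inl ((hT t (by omega) x (by omega)).2 h)
    · have h1 : sU (st (2 * t + 1)) x h0 ≠ 0 := by
        intro h
        have h2 := hU x (by omega) h0
        rw [h] at h2
        simp only [Int.cast_zero] at h2
        rcases mul_eq_zero.1 h2.symm with h3 | h3
        · exact hM.ne' h3
        · exact hx h3
      refine ⟨h0, ?_, h1, ?_⟩
      · by_contra hc
        exact h1 (sU_ge (by omega))
      · intro i hi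
        have h2 := hU i (by omega) h0
        rw [hxmin i hi, mul_zero] at h2
        exact_mod_cast h2
    · refine ⟨τ, (hlt τ (by omega)).1, ⟨i0, hi0, ?_⟩, ?_, (hT t (by omega) τ (by omega)).1 hyQ, ?_⟩
      · rcases hqτ with h | h
        · left
          intro h' _
          have h2 := hU τ (by omega) h'
          rw [h, ← hU i0 (by omega) h'] at h2
          exact_mod_cast h2
        · right
          intro h' _
          have h2 := hU τ (by omega) h'
          rw [h, Finsupp.neg_apply, mul_neg, ← hU i0 (by omega) h'] at h2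
          exact_mod_cast h2
      · intro h
        have h2 := hsr τ (by omega)
        rw [h] at h2
        simp only [Int.cast_zero] at h2
        have h3 := (mul_eq_zero.1 h2).resolve_left hM.ne'
        have h4 := hSτ (2 * t + 1) (by omega)
        rw [h3] at h4
        rcases hP.2.2 (μ τ) with h5 | h5
        · exact lt_irrefl _ (h4.1.1 ⟨h5, hτ0⟩)
        · exact lt_irrefl _ (h4.2.1 ⟨h5, hτ0⟩)
      · intro i hi
        have hmi := hymax i hi
        refine ⟨⟨k1 i, (hlt _ (hkN i hi).1).1, ?_, ?_⟩, ⟨k2 i, (hlt _ (hkN i hi).2).1, ?_, ?_⟩⟩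
        · intro h' _
          have h2 := hU (k1 i) (hkN i hi).1 h'
          rw [hqk1, Finsupp.sub_apply, mul_sub, ← hU τ (by omega) h', ← hU i (by omega) h'] at h2
          exact_mod_cast h2
        · refine (hT t (by omega) (k1 i) (hkN i hi).1).1 ?_
          rw [hk1]; exact hmi.1
        · intro h' _
          have h2 := hU (k2 i) (hkN i hi).2 h'
          rw [hqk2, Finsupp.add_apply, mul_add, ← hU τ (by omega) h', ← hU i (by omega) h'] at h2
          exact_mod_cast h2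
        · refine (hT t (by omega) (k2 i) (hkN i hi).2).1 ?_
          rw [hk2]; exact hmi.2
  -- conclusion
  have hatt' : att t (st (2 * t + 1)) (Nat.pair e x).unpair.1 (Nat.pair e x).unpair.2 := by
    rw [Nat.unpair_pair]; exact hatt
  cases hact : act t (st (2 * t + 1)) with
  | none => exact lfind_none hact (Nat.pair e x) (by omega) hatt'
  | some p =>
    have h1 := lfind_some hact
    have h2 : p ≤ Nat.pair e x := by
      by_contra hcc
      exact h1.2.2 (Nat.pair e x) (by omega) hatt'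
    have h3 := hT3 t (by omega) p hact
    have h4 := Nat.unpair_left_le p
    omega

end Pool.Agent.H670.OA
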