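import Pool.Agent.H670.OA.Comp

/-! States of the construction, and computability of the step relation. -/

set_option autoImplicit false

namespace Pool.Agent.H670.OA

open Nat.Partrec (Code)
open Finset (range)

/-! ### group operations on codes -/

section grp

variable {H : Type} [AddCommGroup H] (ν : ℕ ≃ H)
  (hν : Computable₂ (fun a b : ℕ => ν.symm (ν a + ν b)))
variable {α : Type} [Primcodable α]

include hν

theorem c_hadd {f g : α → ℕ} (hf : Computable f) (hg : Computable g) :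
    Computable (fun a => ν.symm (ν (f a) + ν (g a))) := hν.comp hf hg

theorem c_hneg : Computable (fun a : ℕ => ν.symm (- ν a)) := by
  have H1 : ∀ a : ℕ, ∃ b, ν.symm (ν a + ν b) = ν.symm 0 :=
    fun a => ⟨ν.symm (- ν a), by simp⟩
  obtain ⟨F, h, hF⟩ := exists_find (p := fun (a b : ℕ) => ν.symm (ν a + ν b) = ν.symm 0)
    (cp_eq (c_hadd ν hν Computable.fst Computable.snd) (Computable.const _)) H1
  refine h.of_eq fun a => ?_
  have h2 := hF a
  rw [ν.symm.injective.eq_iff] at h2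
  rw [Equiv.eq_symm_apply]
  exact eq_neg_of_add_eq_zero_right h2

theorem c_hnsmul : Computable (fun p : ℕ × ℕ => ν.symm (p.1 • ν p.2)) := by
  have h := Computable.nat_rec (α := ℕ × ℕ) (f := fun p => p.1) (g := fun _ => ν.symm 0)
    (h := fun a (p : ℕ × ℕ) => ν.symm (ν p.2 + ν a.2)) Computable.fst (Computable.const _)
    (by
      show Computable (fun x : (ℕ × ℕ) × (ℕ × ℕ) => ν.symm (ν x.2.2 + ν x.1.2))
      exact c_hadd ν hν (by fun_prop) (by fun_prop))
  refine h.of_eq fun p => ?_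
  obtain ⟨k, a⟩ := p
  simp only
  induction k with
  | zero => simp
  | succ m ih =>
    show ν.symm (ν (Nat.rec (motive := fun _ => ℕ) (ν.symm 0)
      (fun n ih => ν.symm (ν ih + ν a)) m) + ν a) = _
    rw [ih]; simp [succ_nsmul]

theorem c_hzsmul {f : α → ℤ} {g : α → ℕ} (hf : Computable f) (hg : Computable g) :
    Computable (fun a => ν.symm (f a • ν (g a))) := by
  have h1 : Computable (fun a => ν.symm ((f a).toNat • ν (g a))) :=
    (c_hnsmul ν hν).comp (c_mk (c_toNat hf) hg)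
  have h2 : Computable (fun a => ν.symm ((- f a).toNat • ν (g a))) :=
    (c_hnsmul ν hν).comp (c_mk (c_toNat (c_ineg hf)) hg)
  have h3 := c_hadd ν hν h1 ((c_hneg ν hν).comp h2)
  refine h3.of_eq fun a => ?_
  simp only [Equiv.apply_symm_apply]
  congr 1
  rw [← natCast_zsmul, ← natCast_zsmul, ← sub_eq_add_neg, ← sub_smul]
  congr 1
  omega

theorem c_hsum {f : α → ℕ → ℤ} {n : α → ℕ} (hf : Computable (fun x : α × ℕ => f x.1 x.2))
    (hn : Computable n) : Computable (fun a => ν.symm (∑ i ∈ range (n a), f a i • ν i)) := by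
  have h := Computable.nat_rec (f := n) (g := fun _ => ν.symm 0)
    (h := fun a (p : ℕ × ℕ) => ν.symm (ν p.2 + ν (ν.symm (f a p.1 • ν p.1)))) hn
    (Computable.const _)
    (by
      show Computable (fun x : α × (ℕ × ℕ) =>
        ν.symm (ν x.2.2 + ν (ν.symm (f x.1 x.2.1 • ν x.2.1))))
      refine c_hadd ν hν (by fun_prop) ?_
      refine c_hzsmul ν hν ?_ (by fun_prop)
      exact hf.comp (f := fun x : α × ℕ => f x.1 x.2) (g := fun x : α × (ℕ × ℕ) => (x.1, x.2.1))
          (by fun_prop))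
  refine h.of_eq fun a => ?_
  induction n a with
  | zero => simp
  | succ m ih =>
    rw [Finset.sum_range_succ]
    show ν.symm (ν (Nat.rec (motive := fun _ => ℕ) (ν.symm 0)
      (fun n ih => ν.symm (ν ih + ν (ν.symm (f a n • ν n)))) m) + ν (ν.symm (f a m • ν m))) = _
    rw [ih]; simp

end grp

/-! ### coefficient vectors -/

/-- the coefficient vector with a given code -/
def vec (κ : ℕ) : List ℤ := (Encodable.decode κ : Option (List ℤ)).getD []

/-- entries of a coefficient vector -/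
def cf (κ i : ℕ) : ℤ := (vec κ).getD i 0

/-- length of a coefficient vector -/
def len (κ : ℕ) : ℕ := (vec κ).length

section

variable {α : Type} [Primcodable α]

@[fun_prop] theorem c_vec {f : α → ℕ} (hf : Computable f) : Computable (fun a => vec (f a)) := by
  unfold vec; fun_prop

@[fun_prop] theorem c_cf {f g : α → ℕ} (hf : Computable f) (hg : Computable g) :
    Computable (fun a => cf (f a) (g a)) := by
  unfold cf; fun_prop

@[fun_prop] theorem c_len {f : α → ℕ} (hf : Computable f) : Computable (fun a => len (f a)) := by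
  unfold len; fun_prop

theorem cf_encode (c : List ℤ) (i : ℕ) : cf (Encodable.encode c) i = c.getD i 0 := by
  simp [cf, vec]

theorem len_encode (c : List ℤ) : len (Encodable.encode c) = c.length := by
  simp [len, vec]

theorem cf_eq_zero {κ i : ℕ} (h : len κ ≤ i) : cf κ i = 0 := by
  unfold cf len at *
  rw [List.getD_eq_default _ _ h]

/-! ### candidates for basis elements -/

variable {H : Type} [AddCommGroup H] (ν : ℕ ≃ H)

/-- the vector with code `κ` shows that `j` depends on the smaller elements -/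
def Wit (κ j : ℕ) : Prop :=
  len κ = j + 1 ∧ cf κ j ≠ 0 ∧ ∑ i ∈ range (j + 1), cf κ i • ν i = 0

/-- `j` is still a candidate at time `t` -/
def Bs (t j : ℕ) : Prop := ∀ κ, κ < t → ¬ Wit ν κ j

open Classical in
/-- number of candidates below `h` -/
noncomputable def cnt (t h : ℕ) : ℕ := ∑ j ∈ range h, if Bs ν t j then 1 else 0

variable (hν : Computable₂ (fun a b : ℕ => ν.symm (ν a + ν b)))

include hν

theorem cp_hzero {f : α → ℕ → ℤ} {n : α → ℕ} (hf : Computable (fun x : α × ℕ => f x.1 x.2))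
    (hn : Computable n) : ComputablePred (fun a => ∑ i ∈ range (n a), f a i • ν i = 0) :=
  cp_of_eq (cp_eq (c_hsum ν hν hf hn) (Computable.const (ν.symm 0))) fun a => by
    rw [ν.symm.injective.eq_iff]

theorem cp_Wit {f g : α → ℕ} (hf : Computable f) (hg : Computable g) :
    ComputablePred (fun a => Wit ν (f a) (g a)) := by
  unfold Wit
  refine cp_and (by fun_prop) (cp_and (by fun_prop) ?_)
  exact cp_hzero ν hν (f := fun a i => cf (f a) i) (n := fun a => g a + 1)
    (by fun_prop) (by fun_prop)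

theorem cp_Bs {f g : α → ℕ} (hf : Computable f) (hg : Computable g) :
    ComputablePred (fun a => Bs ν (f a) (g a)) := by
  unfold Bs
  refine cp_ball (p := fun a κ => ¬ Wit ν κ (g a)) ?_ hf
  exact cp_not (cp_Wit ν hν (by fun_prop) (by fun_prop))

open Classical in
theorem c_cnt {f g : α → ℕ} (hf : Computable f) (hg : Computable g) :
    Computable (fun a => cnt ν (f a) (g a)) := by
  unfold cnt
  refine c_nsum (f := fun a j => if Bs ν (f a) j then 1 else 0) ?_ hg
  exact c_ite (cp_Bs ν hν (by fun_prop) (by fun_prop)) (Computable.const 1) (Computable.const 0)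

end

/-! ### states -/

/-- states: number of elements, number of coordinates, bound, denominator, coordinates,
functional, codes of the elements -/
abbrev St : Type := ℕ × ℕ × ℕ × ℕ × List (List ℤ) × List ℤ × List ℕ

def sn (σ : St) : ℕ := σ.1
def sL (σ : St) : ℕ := σ.2.1
def sK (σ : St) : ℕ := σ.2.2.1
def sM (σ : St) : ℕ := σ.2.2.2.1
/-- coordinates -/
def sU (σ : St) (i h : ℕ) : ℤ := if h < sL σ then (σ.2.2.2.2.1.getD i []).getD h 0 else 0
/-- functional -/
def sρ (σ : St) (h : ℕ) : ℤ := σ.2.2.2.2.2.1.getD h 0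
/-- codes of the elements -/
def sy (σ : St) (i : ℕ) : ℕ := σ.2.2.2.2.2.2.getD i 0
/-- values of the functional -/
def sr (σ : St) (i : ℕ) : ℤ := ∑ h ∈ range (sL σ), sU σ i h * sρ σ h
/-- value of the functional at an integer combination -/
def dr (σ : St) (κ : ℕ) : ℤ := ∑ i ∈ range (sn σ), cf κ i * sr σ i
/-- coordinates of an integer combination -/
def dU (σ : St) (κ h : ℕ) : ℤ := ∑ i ∈ range (sn σ), cf κ i * sU σ i h

section

variable {α : Type} [Primcodable α] {f : α → St} {g h : α → ℕ}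

@[fun_prop] theorem c_sn (hf : Computable f) : Computable (fun a => sn (f a)) := by
  unfold sn; fun_prop
@[fun_prop] theorem c_sL (hf : Computable f) : Computable (fun a => sL (f a)) := by
  unfold sL; fun_prop
@[fun_prop] theorem c_sK (hf : Computable f) : Computable (fun a => sK (f a)) := by
  unfold sK; fun_prop
@[fun_prop] theorem c_sM (hf : Computable f) : Computable (fun a => sM (f a)) := by
  unfold sM; fun_prop
@[fun_prop] theorem c_sU (hf : Computable f) (hg : Computable g) (hh : Computable h) :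
    Computable (fun a => sU (f a) (g a) (h a)) := by
  unfold sU
  refine (c_ite (p := fun a => h a < sL (f a)) (by fun_prop)
    (f := fun a => ((f a).2.2.2.2.1.getD (g a) []).getD (h a) 0) (g := fun _ => (0 : ℤ))
    (by fun_prop) (by fun_prop)).of_eq fun a => ?_
  congr
@[fun_prop] theorem c_sρ (hf : Computable f) (hg : Computable g) :
    Computable (fun a => sρ (f a) (g a)) := by
  unfold sρ; fun_prop
@[fun_prop] theorem c_sy (hf : Computable f) (hg : Computable g) :
    Computable (fun a => sy (f a) (g a)) := by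
  unfold sy; fun_prop
@[fun_prop] theorem c_sr (hf : Computable f) (hg : Computable g) :
    Computable (fun a => sr (f a) (g a)) := by
  unfold sr
  exact c_isum (f := fun a h => sU (f a) (g a) h * sρ (f a) h) (by fun_prop) (by fun_prop)
@[fun_prop] theorem c_dr (hf : Computable f) (hg : Computable g) :
    Computable (fun a => dr (f a) (g a)) := by
  unfold dr
  exact c_isum (f := fun a i => cf (g a) i * sr (f a) i) (by fun_prop) (by fun_prop)
@[fun_prop] theorem c_dU (hf : Computable f) (hg : Computable g) (hh : Computable h) :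
    Computable (fun a => dU (f a) (g a) (h a)) := by
  unfold dU
  exact c_isum (f := fun a i => cf (g a) i * sU (f a) i (h a)) (by fun_prop) (by fun_prop)

end

/-- value of the `e`-th computable function within `t` steps -/
def eps (t e i : ℕ) : Option ℕ := Code.evaln t (Denumerable.ofNat Code e) i

@[fun_prop] theorem c_eps {α : Type} [Primcodable α] {f g h : α → ℕ} (hf : Computable f)
    (hg : Computable g) (hh : Computable h) : Computable (fun a => eps (f a) (g a) (h a)) := by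
  have h1 : Computable (fun a => ((f a, Denumerable.ofNat Code (g a)), h a)) :=
    c_mk (c_mk hf ((Computable.ofNat Code).comp hg)) hh
  exact Code.primrec_evaln.to_comp.comp h1

/-- the `e`-th function is seen not to be a cone -/
def Sat (t : ℕ) (σ : St) (e : ℕ) : Prop :=
  ∃ κ, κ < sK σ ∧ (len κ ≤ sn σ ∧ dr σ κ = 0 ∧
    (∀ i, i < sn σ → ((0 < cf κ i → eps t e i = some 1) ∧ (cf κ i < 0 → eps t e i = some 0))) ∧
    ∃ i, i < sn σ ∧ (cf κ i ≠ 0 ∧ sr σ i ≠ 0))

theorem cp_Sat {α : Type} [Primcodable α] {f h : α → ℕ} {g : α → St} (hf : Computable f)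
    (hg : Computable g) (hh : Computable h) : ComputablePred (fun a => Sat (f a) (g a) (h a)) := by
  unfold Sat
  refine cp_bex (p := fun a κ => len κ ≤ sn (g a) ∧ dr (g a) κ = 0 ∧
    (∀ i, i < sn (g a) → ((0 < cf κ i → eps (f a) (h a) i = some 1) ∧
      (cf κ i < 0 → eps (f a) (h a) i = some 0))) ∧
    ∃ i, i < sn (g a) ∧ (cf κ i ≠ 0 ∧ sr (g a) i ≠ 0)) ?_ (by fun_prop)
  refine cp_and (by fun_prop) (cp_and (by fun_prop) (cp_and ?_ ?_))
  · refine cp_ball (p := fun (x : α × ℕ) i => ((0 < cf x.2 i → eps (f x.1) (h x.1) i = some 1) ∧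
      (cf x.2 i < 0 → eps (f x.1) (h x.1) i = some 0))) ?_ (by fun_prop)
    refine cp_and (cp_imp (by fun_prop) (by fun_prop)) (cp_imp (by fun_prop) (by fun_prop))
  · refine cp_bex (p := fun (x : α × ℕ) i => (cf x.2 i ≠ 0 ∧ sr (g x.1) i ≠ 0)) ?_ (by fun_prop)
    fun_prop

/-- the requirement `e` can be treated with the element `x` -/
def att (t : ℕ) (σ : St) (e x : ℕ) : Prop :=
  ¬ Sat t σ e ∧ e < x ∧ x < sn σ ∧
  (∀ i, i < sn σ → (x ≤ i → (e < sy σ i ∨ ∃ h, h < sL σ ∧ (sU σ i h ≠ 0 ∧ sy σ i < h)))) ∧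
  (∃ a, a < x ∧ (0 < sr σ a ∧ eps t e a = some 1)) ∧
  (∃ a, a < x ∧ (0 < sr σ a ∧ eps t e a = some 0)) ∧
  (eps t e x = some 0 ∨ eps t e x = some 1) ∧
  (∃ h, h < sL σ ∧ (sU σ x h ≠ 0 ∧ ∀ i, i < x → sU σ i h = 0)) ∧
  ∃ τ, τ < sn σ ∧ ((∃ i, i < x ∧ ((∀ h, h < sL σ → sU σ τ h = sU σ i h) ∨
      (∀ h, h < sL σ → sU σ τ h = - sU σ i h))) ∧
    sr σ τ ≠ 0 ∧ eps t e τ = some 1 ∧
    ∀ i, i < x → ((∃ k, k < sn σ ∧ ((∀ h, h < sL σ → sU σ k h = sU σ τ h - sU σ i h) ∧
        eps t e k = some 1)) ∧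
      (∃ k, k < sn σ ∧ ((∀ h, h < sL σ → sU σ k h = sU σ τ h + sU σ i h) ∧
        eps t e k = some 1))))

theorem cp_att : ComputablePred (fun q : (ℕ × St) × ℕ =>
    att q.1.1 q.1.2 q.2.unpair.1 q.2.unpair.2) := by
  have H : ComputablePred (fun q : ℕ × St × ℕ × ℕ => att q.1 q.2.1 q.2.2.1 q.2.2.2) := by
    unfold att
    refine cp_and (cp_not (cp_Sat (by fun_prop) (by fun_prop) (by fun_prop)))
      (cp_and (by fun_prop) (cp_and (by fun_prop) (cp_and ?_ (cp_and ?_ (cp_and ?_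
      (cp_and (by fun_prop) (cp_and ?_ ?_)))))))
    · refine cp_ball (p := fun (q : ℕ × St × ℕ × ℕ) i => (q.2.2.2 ≤ i → (q.2.2.1 < sy q.2.1 i ∨
        ∃ h, h < sL q.2.1 ∧ (sU q.2.1 i h ≠ 0 ∧ sy q.2.1 i < h)))) ?_ (by fun_prop)
      refine cp_imp (by fun_prop) (cp_or (by fun_prop) ?_)
      exact cp_bex (p := fun (x : (ℕ × St × ℕ × ℕ) × ℕ) h =>
        (sU x.1.2.1 x.2 h ≠ 0 ∧ sy x.1.2.1 x.2 < h)) (by fun_prop) (by fun_prop)
    · exact cp_bex (p := fun (q : ℕ × St × ℕ × ℕ) a => (0 < sr q.2.1 a ∧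
        eps q.1 q.2.2.1 a = some 1)) (by fun_prop) (by fun_prop)
    · exact cp_bex (p := fun (q : ℕ × St × ℕ × ℕ) a => (0 < sr q.2.1 a ∧
        eps q.1 q.2.2.1 a = some 0)) (by fun_prop) (by fun_prop)
    · refine cp_bex (p := fun (q : ℕ × St × ℕ × ℕ) h => (sU q.2.1 q.2.2.2 h ≠ 0 ∧
        ∀ i, i < q.2.2.2 → sU q.2.1 i h = 0)) ?_ (by fun_prop)
      refine cp_and (by fun_prop) ?_
      exact cp_ball (p := fun (x : (ℕ × St × ℕ × ℕ) × ℕ) i => sU x.1.2.1 i x.2 = 0)
        (by fun_prop) (by fun_prop)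
    · refine cp_bex (p := fun (q : ℕ × St × ℕ × ℕ) τ =>
        ((∃ i, i < q.2.2.2 ∧ ((∀ h, h < sL q.2.1 → sU q.2.1 τ h = sU q.2.1 i h) ∨
          (∀ h, h < sL q.2.1 → sU q.2.1 τ h = - sU q.2.1 i h))) ∧
        sr q.2.1 τ ≠ 0 ∧ eps q.1 q.2.2.1 τ = some 1 ∧
        ∀ i, i < q.2.2.2 → ((∃ k, k < sn q.2.1 ∧ ((∀ h, h < sL q.2.1 →
            sU q.2.1 k h = sU q.2.1 τ h - sU q.2.1 i h) ∧ eps q.1 q.2.2.1 k = some 1)) ∧
          (∃ k, k < sn q.2.1 ∧ ((∀ h, h < sL q.2.1 → sU q.2.1 k h = sU q.2.1 τ h + sU q.2.1 i h) ∧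
            eps q.1 q.2.2.1 k = some 1))))) ?_ (by fun_prop)
      refine cp_and ?_ (cp_and (by fun_prop) (cp_and (by fun_prop) ?_))
      · refine cp_bex (p := fun (x : (ℕ × St × ℕ × ℕ) × ℕ) i =>
          ((∀ h, h < sL x.1.2.1 → sU x.1.2.1 x.2 h = sU x.1.2.1 i h) ∨
          (∀ h, h < sL x.1.2.1 → sU x.1.2.1 x.2 h = - sU x.1.2.1 i h))) ?_ (by fun_prop)
        refine cp_or ?_ ?_
        · exact cp_ball (p := fun (x : ((ℕ × St × ℕ × ℕ) × ℕ) × ℕ) h =>
            sU x.1.1.2.1 x.1.2 h = sU x.1.1.2.1 x.2 h) (by fun_prop) (by fun_prop)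
        · exact cp_ball (p := fun (x : ((ℕ × St × ℕ × ℕ) × ℕ) × ℕ) h =>
            sU x.1.1.2.1 x.1.2 h = - sU x.1.1.2.1 x.2 h) (by fun_prop) (by fun_prop)
      · refine cp_ball (p := fun (x : (ℕ × St × ℕ × ℕ) × ℕ) i =>
          ((∃ k, k < sn x.1.2.1 ∧ ((∀ h, h < sL x.1.2.1 →
            sU x.1.2.1 k h = sU x.1.2.1 x.2 h - sU x.1.2.1 i h) ∧
              eps x.1.1 x.1.2.2.1 k = some 1)) ∧
          (∃ k, k < sn x.1.2.1 ∧ ((∀ h, h < sL x.1.2.1 →
            sU x.1.2.1 k h = sU x.1.2.1 x.2 h + sU x.1.2.1 i h) ∧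
            eps x.1.1 x.1.2.2.1 k = some 1)))) ?_ (by fun_prop)
        refine cp_and ?_ ?_
        · refine cp_bex (p := fun (x : ((ℕ × St × ℕ × ℕ) × ℕ) × ℕ) k =>
            ((∀ h, h < sL x.1.1.2.1 →
            sU x.1.1.2.1 k h = sU x.1.1.2.1 x.1.2 h - sU x.1.1.2.1 x.2 h) ∧
              eps x.1.1.1 x.1.1.2.2.1 k = some 1)) ?_ (by fun_prop)
          refine cp_and ?_ (by fun_prop)
          exact cp_ball (p := fun (x : (((ℕ × St × ℕ × ℕ) × ℕ) × ℕ) × ℕ) h =>
            sU x.1.1.1.2.1 x.2 h = sU x.1.1.1.2.1 x.1.1.2 h - sU x.1.1.1.2.1 x.1.2 h)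
            (by fun_prop) (by fun_prop)
        · refine cp_bex (p := fun (x : ((ℕ × St × ℕ × ℕ) × ℕ) × ℕ) k =>
            ((∀ h, h < sL x.1.1.2.1 →
            sU x.1.1.2.1 k h = sU x.1.1.2.1 x.1.2 h + sU x.1.1.2.1 x.2 h) ∧
              eps x.1.1.1 x.1.1.2.2.1 k = some 1)) ?_ (by fun_prop)
          refine cp_and ?_ (by fun_prop)
          exact cp_ball (p := fun (x : (((ℕ × St × ℕ × ℕ) × ℕ) × ℕ) × ℕ) h =>
            sU x.1.1.1.2.1 x.2 h = sU x.1.1.1.2.1 x.1.1.2 h + sU x.1.1.1.2.1 x.1.2 h)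
            (by fun_prop) (by fun_prop)
  exact cp_comp H (f := fun q : (ℕ × St) × ℕ => (q.1.1, q.1.2, q.2.unpair.1, q.2.unpair.2))
    (by fun_prop)

/-- the pair (requirement, element) that acts -/
noncomputable def act (t : ℕ) (σ : St) : Option ℕ :=
  lfind (fun p => att t σ p.unpair.1 p.unpair.2) t

theorem c_act {α : Type} [Primcodable α] {f : α → ℕ} {g : α → St} (hf : Computable f)
    (hg : Computable g) : Computable (fun a => act (f a) (g a)) := by
  have h : Computable (fun a : ℕ × St => act a.1 a.2) :=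
    c_lfind (p := fun (a : ℕ × St) p => att a.1 a.2 p.unpair.1 p.unpair.2) cp_att (by fun_prop)
  exact h.comp (c_mk hf hg)

end Pool.Agent.H670.OA
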