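import Pool.Agent.H670.OA.State

/-! The step relation and the sequence of states. -/

set_option autoImplicit false

namespace Pool.Agent.H670.OA

open Finset (range)

theorem exists_iter {S : Type} [Primcodable S] (σ0 : S) {G : ℕ → S → Prop}
    {R : ℕ → S → S → Prop}
    (hG : ComputablePred (fun x : ℕ × S => G x.1 x.2))
    (hR : ComputablePred (fun x : (ℕ × S) × S => R x.1.1 x.1.2 x.2))
    (h0 : G 0 σ0) (hGR : ∀ s σ σ', R s σ σ' → G (s + 1) σ')
    (hex : ∀ s σ, G s σ → ∃ σ', R s σ σ') :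
    ∃ st : ℕ → S, Computable st ∧ ∀ s, R s (st s) (st (s + 1)) := by
  obtain ⟨dec, hdec, hde⟩ : ∃ dec : ℕ → S, Computable dec ∧ ∀ x, dec (Encodable.encode x) = x := by
    refine ⟨fun c => (Encodable.decode c : Option S).getD σ0, by fun_prop, fun x => ?_⟩
    simp only [Encodable.encodek, Option.getD_some]
  have H1 : ∀ a : ℕ × S, ∃ c : ℕ, ¬ G a.1 a.2 ∨ R a.1 a.2 (dec c) := by
    rintro ⟨s, σ⟩
    by_cases h : G s σ
    · obtain ⟨σ', h'⟩ := hex s σ h
      refine ⟨Encodable.encode σ', Or.inr ?_⟩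
      rw [hde]; exact h'
    · exact ⟨0, Or.inl h⟩
  obtain ⟨F, hF, hF2⟩ := exists_find (p := fun (a : ℕ × S) (c : ℕ) =>
    ¬ G a.1 a.2 ∨ R a.1 a.2 (dec c))
    (cp_or (cp_not (cp_comp hG (f := fun x : (ℕ × S) × ℕ => x.1) (by fun_prop)))
      (cp_comp hR (f := fun x : (ℕ × S) × ℕ => (x.1, dec x.2)) (by fun_prop))) H1
  have hst : Computable (fun s => Nat.rec (motive := fun _ => S) σ0
      (fun s σ => dec (F (s, σ))) s) := by
    have h := Computable.nat_rec (α := ℕ) (f := fun s => s) (g := fun _ => σ0)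
      (h := fun _ (p : ℕ × S) => dec (F (p.1, p.2))) (by fun_prop) (by fun_prop)
      (by
        show Computable (fun x : ℕ × (ℕ × S) => dec (F (x.2.1, x.2.2)))
        fun_prop)
    exact h
  refine ⟨_, hst, ?_⟩
  have hgood : ∀ s, G s (Nat.rec (motive := fun _ => S) σ0 (fun s σ => dec (F (s, σ))) s) := by
    intro s
    induction s with
    | zero => exact h0
    | succ s ih =>
      rcases hF2 (s, _) with h1 | h1
      · exact absurd ih h1
      · exact hGR _ _ _ h1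
  intro s
  rcases hF2 (s, _) with h1 | h1
  · exact absurd (hgood s) h1
  · exact h1

variable {H : Type} [AddCommGroup H] (ν : ℕ ≃ H)

/-- good states -/
def Good (t : ℕ) (σ : St) : Prop :=
  0 < sM σ ∧
  (∀ i, i < sn σ → (sM σ : ℤ) • ν (sy σ i) = ∑ h ∈ range (sL σ), sU σ i h • ν h) ∧
  (∀ i, i < sn σ → ∀ h, h < sL σ → (sU σ i h ≠ 0 → (Bs ν t h ∧ cnt ν t h ≤ i))) ∧
  (∀ i, i < sn σ → ∀ j, j < i → sr σ i ≠ sr σ j) ∧
  (∀ κ, κ < sK σ → (len κ ≤ sn σ → (dr σ κ = 0 → ∀ h, h < sL σ → dU σ κ h = 0)))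

/-- the `i`-th element is not changed at stage `s` -/
def keep (s : ℕ) (σ : St) (i : ℕ) : Prop :=
  (s % 2 = 0 → (Bs ν (s / 2) (len (s / 2) - 1) → (¬ Bs ν (s / 2 + 1) (len (s / 2) - 1) →
    ∀ h, h < sL σ → (sU σ i h ≠ 0 → h < len (s / 2) - 1)))) ∧
  (s % 2 = 1 → ∀ p, p < s / 2 → (act (s / 2) σ = some p → i < p.unpair.2))

/-- the step relation -/
def Step (s : ℕ) (σ σ' : St) : Prop :=
  Good ν ((s + 2) / 2) σ' ∧ sn σ ≤ sn σ' ∧ sK σ < sK σ' ∧
  (∀ κ, κ < sK σ → (len κ ≤ sn σ →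
    ((0 < dr σ' κ ↔ 0 < dr σ κ) ∧ (dr σ' κ < 0 ↔ dr σ κ < 0)))) ∧
  (∀ h, h < sn σ + 1 → ∃ k, k < sn σ' ∧ (sy σ' k = h ∧
    ∀ h', h' < sL σ' → (sU σ' k h' ≠ 0 → h' < h + 1))) ∧
  (∀ i, i < sn σ → (keep ν s σ i → ∀ h, h < sL σ + sL σ' →
    (sM σ' : ℤ) * sU σ i h = sM σ * sU σ' i h)) ∧
  (s % 2 = 1 → ∀ p, p < s / 2 → (act (s / 2) σ = some p → Sat (s / 2) σ' p.unpair.1))

variable (hν : Computable₂ (fun a b : ℕ => ν.symm (ν a + ν b)))
variable {α : Type} [Primcodable α]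

include hν

theorem cp_Good {f : α → ℕ} {g : α → St} (hf : Computable f) (hg : Computable g) :
    ComputablePred (fun a => Good ν (f a) (g a)) := by
  unfold Good
  refine cp_and (by fun_prop) (cp_and ?_ (cp_and ?_ (cp_and ?_ ?_)))
  · refine cp_ball (p := fun a i => (sM (g a) : ℤ) • ν (sy (g a) i) =
      ∑ h ∈ range (sL (g a)), sU (g a) i h • ν h) ?_ (by fun_prop)
    have h1 : Computable (fun x : α × ℕ => ν.symm ((sM (g x.1) : ℤ) • ν (sy (g x.1) x.2))) :=
      c_hzsmul ν hν (by fun_prop) (by fun_prop)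
    have h2 : Computable (fun x : α × ℕ =>
        ν.symm (∑ h ∈ range (sL (g x.1)), sU (g x.1) x.2 h • ν h)) :=
      c_hsum ν hν (f := fun (x : α × ℕ) h => sU (g x.1) x.2 h) (by fun_prop) (by fun_prop)
    exact cp_of_eq (cp_eq h1 h2) fun a => by rw [ν.symm.injective.eq_iff]
  · refine cp_ball (p := fun a i => ∀ h, h < sL (g a) → (sU (g a) i h ≠ 0 →
      (Bs ν (f a) h ∧ cnt ν (f a) h ≤ i))) ?_ (by fun_prop)
    refine cp_ball (p := fun (x : α × ℕ) h => (sU (g x.1) x.2 h ≠ 0 →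
      (Bs ν (f x.1) h ∧ cnt ν (f x.1) h ≤ x.2))) ?_ (by fun_prop)
    refine cp_imp (by fun_prop) (cp_and (cp_Bs ν hν (by fun_prop) (by fun_prop)) ?_)
    exact cp_nle (c_cnt ν hν (by fun_prop) (by fun_prop)) (by fun_prop)
  · refine cp_ball (p := fun a i => ∀ j, j < i → sr (g a) i ≠ sr (g a) j) ?_ (by fun_prop)
    exact cp_ball (p := fun (x : α × ℕ) j => sr (g x.1) x.2 ≠ sr (g x.1) j)
      (by fun_prop) (by fun_prop)
  · refine cp_ball (p := fun a κ => (len κ ≤ sn (g a) → (dr (g a) κ = 0 → ∀ h, h < sL (g a) →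
      dU (g a) κ h = 0))) ?_ (by fun_prop)
    refine cp_imp (by fun_prop) (cp_imp (by fun_prop) ?_)
    exact cp_ball (p := fun (x : α × ℕ) h => dU (g x.1) x.2 h = 0) (by fun_prop) (by fun_prop)

theorem cp_keep {f h : α → ℕ} {g : α → St} (hf : Computable f) (hg : Computable g)
    (hh : Computable h) : ComputablePred (fun a => keep ν (f a) (g a) (h a)) := by
  unfold keep
  refine cp_and (cp_imp (by fun_prop) (cp_imp ?_ (cp_imp (cp_not ?_) ?_)))
    (cp_imp (by fun_prop) ?_)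
  · exact cp_Bs ν hν (by fun_prop) (by fun_prop)
  · exact cp_Bs ν hν (by fun_prop) (by fun_prop)
  · refine cp_ball (p := fun a h' => (sU (g a) (h a) h' ≠ 0 → h' < len (f a / 2) - 1)) ?_
      (by fun_prop)
    exact cp_imp (by fun_prop) (by fun_prop)
  · refine cp_ball (p := fun a p => (act (f a / 2) (g a) = some p → h a < p.unpair.2)) ?_
      (by fun_prop)
    refine cp_imp (cp_eq (c_act (by fun_prop) (by fun_prop)) ?_) (by fun_prop)
    exact Computable.option_some.comp (by fun_prop)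

theorem cp_Step {f : α → ℕ} {g g' : α → St} (hf : Computable f) (hg : Computable g)
    (hg' : Computable g') : ComputablePred (fun a => Step ν (f a) (g a) (g' a)) := by
  unfold Step
  refine cp_and (cp_Good ν hν (by fun_prop) hg') (cp_and (by fun_prop) (cp_and (by fun_prop)
    (cp_and ?_ (cp_and ?_ (cp_and ?_ (cp_imp (by fun_prop) ?_))))))
  · refine cp_ball (p := fun a κ => (len κ ≤ sn (g a) →
      ((0 < dr (g' a) κ ↔ 0 < dr (g a) κ) ∧ (dr (g' a) κ < 0 ↔ dr (g a) κ < 0)))) ?_ (by fun_prop)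
    exact cp_imp (by fun_prop) (cp_and (by fun_prop) (by fun_prop))
  · refine cp_ball (p := fun a h => ∃ k, k < sn (g' a) ∧ (sy (g' a) k = h ∧
      ∀ h', h' < sL (g' a) → (sU (g' a) k h' ≠ 0 → h' < h + 1))) ?_ (by fun_prop)
    refine cp_bex (p := fun (x : α × ℕ) k => (sy (g' x.1) k = x.2 ∧
      ∀ h', h' < sL (g' x.1) → (sU (g' x.1) k h' ≠ 0 → h' < x.2 + 1))) ?_ (by fun_prop)
    refine cp_and (by fun_prop) ?_
    refine cp_ball (p := fun (x : (α × ℕ) × ℕ) h' => (sU (g' x.1.1) x.2 h' ≠ 0 →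
      h' < x.1.2 + 1)) ?_ (by fun_prop)
    exact cp_imp (by fun_prop) (by fun_prop)
  · refine cp_ball (p := fun a i => (keep ν (f a) (g a) i → ∀ h, h < sL (g a) + sL (g' a) →
      (sM (g' a) : ℤ) * sU (g a) i h = sM (g a) * sU (g' a) i h)) ?_ (by fun_prop)
    refine cp_imp (cp_keep ν hν (by fun_prop) (by fun_prop) (by fun_prop)) ?_
    exact cp_ball (p := fun (x : α × ℕ) h => (sM (g' x.1) : ℤ) * sU (g x.1) x.2 h =
      sM (g x.1) * sU (g' x.1) x.2 h) (by fun_prop) (by fun_prop)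
  · refine cp_ball (p := fun a p => (act (f a / 2) (g a) = some p →
      Sat (f a / 2) (g' a) p.unpair.1)) ?_ (by fun_prop)
    refine cp_imp (cp_eq (c_act (by fun_prop) (by fun_prop)) ?_)
      (cp_Sat (by fun_prop) (by fun_prop) (by fun_prop))
    exact Computable.option_some.comp (by fun_prop)

theorem exists_seq (hex : ∀ s σ, Good ν ((s + 1) / 2) σ → ∃ σ', Step ν s σ σ') :
    ∃ st : ℕ → St, Computable st ∧ ∀ s, Step ν s (st s) (st (s + 1)) := by
  have h1 : Computable (fun s : ℕ => (s + 1) / 2) := by fun_prop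
  have hG : ComputablePred (fun x : ℕ × St => Good ν ((x.1 + 1) / 2) x.2) :=
    cp_Good ν hν (f := fun x : ℕ × St => (x.1 + 1) / 2) (g := fun x => x.2)
      (h1.comp Computable.fst) Computable.snd
  have hR : ComputablePred (fun x : (ℕ × St) × St => Step ν x.1.1 x.1.2 x.2) :=
    cp_Step ν hν (f := fun x : (ℕ × St) × St => x.1.1) (g := fun x => x.1.2) (g' := fun x => x.2)
      (Computable.fst.comp Computable.fst) (Computable.snd.comp Computable.fst) Computable.snd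
  refine exists_iter (S := St) (0, 0, 0, 1, [], [], [])
    (G := fun s σ => Good ν ((s + 1) / 2) σ) (R := fun s σ σ' => Step ν s σ σ') hG hR ?_ ?_ hex
  · refine ⟨Nat.one_pos, ?_, ?_, ?_, ?_⟩
    · intro i hi; exact absurd hi (Nat.not_lt_zero _)
    · intro i hi; exact absurd hi (Nat.not_lt_zero _)
    · intro i hi; exact absurd hi (Nat.not_lt_zero _)
    · intro i hi; exact absurd hi (Nat.not_lt_zero _)
  · intro s σ σ' h
    exact h.1

end Pool.Agent.H670.OA
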